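import Pool.Agent.Lib.MP_945b72_nt.Ode

/-!
The endomorphism with multiplier `s`, `s^2 = -7`, of the Jacobi quartic with `x = 3 s`.
-/

namespace Pool.Agent.Lib.MP_945b72_nt

section Abs

variable {A : Type*} [CommRing A]

def pN (s w : A) : A := s - 21 * w - 5 * s * w ^ 2 + w ^ 3

def pD (s w : A) : A := 1 - 5 * s * w - 21 * w ^ 2 + s * w ^ 3

def pB (s w : A) : A := 1 + 14 * s * w + 143 * w ^ 2 + 132 * s * w ^ 3 + 143 * w ^ 4 +
  14 * s * w ^ 5 + w ^ 6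

theorem base_one (s w : A) (hs : s ^ 2 = -7) :
    pN s w * pD s w + 2 * w * ((-21 - 10 * s * w + 3 * w ^ 2) * pD s w -
      pN s w * (-5 * s - 42 * w + 3 * s * w ^ 2)) = s * pB s w := by
  simp only [pN, pD, pB]
  linear_combination (-9 * w - 62 * w ^ 3 - 9 * w ^ 5) * hs

theorem base_two (s w : A) (hs : s ^ 2 = -7) :
    (1 - 2 * (3 * s) * w + w ^ 2) * pB s w ^ 2 =
      pD s w ^ 4 - 2 * (3 * s) * w * pN s w ^ 2 * pD s w ^ 2 + w ^ 2 * pN s w ^ 4 := by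
  simp only [pN, pD, pB]
  linear_combination (6 * s * w + 53 * w ^ 2 - 61 * s ^ 2 * w ^ 2 + 566 * s * w ^ 3 +
    150 * s ^ 3 * w ^ 3 + 2625 * w ^ 4 - 5033 * s ^ 2 * w ^ 4 - 17998 * s * w ^ 5 -
    1560 * s ^ 3 * w ^ 5 - 13686 * w ^ 6 + 20198 * s ^ 2 * w ^ 6 + 90660 * s * w ^ 7 +
    4356 * s ^ 3 * w ^ 7 - 13686 * w ^ 8 + 20198 * s ^ 2 * w ^ 8 - 17998 * s * w ^ 9 -
    1560 * s ^ 3 * w ^ 9 + 2625 * w ^ 10 - 5033 * s ^ 2 * w ^ 10 + 566 * s * w ^ 11 +
    150 * s ^ 3 * w ^ 11 + 53 * w ^ 12 - 61 * s ^ 2 * w ^ 12 + 6 * s * w ^ 13) * hs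

end Abs

section Ser

open PowerSeries

variable {R : Type*} [CommRing R]

theorem base_pt {s : R} (hs : s ^ 2 = -7) {I : R⟦X⟧} (hI : pD (C s) X * I = 1) :
    Pt (3 * s) s (X * pN (C s) X ^ 2 * I ^ 2) (pN (C s) X * pB (C s) X * I ^ 3) := by
  have hsC : (C s : R⟦X⟧) ^ 2 = -7 := by
    rw [← map_pow, hs, map_neg, map_ofNat]
  have I0 : constantCoeff I = 1 := by
    have := congrArg constantCoeff hI
    simp [pD] at this
    exact this
  have h3 : (C (3 * s) : R⟦X⟧) = 3 * C s := by rw [map_mul, map_ofNat]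
  have d21 : d⁄dX R (21 : R⟦X⟧) = 0 := by
    have := (d⁄dX R).map_natCast 21
    simpa using this
  have d5 : d⁄dX R (5 : R⟦X⟧) = 0 := by
    have := (d⁄dX R).map_natCast 5
    simpa using this
  have dN : d⁄dX R (pN (C s) (X : R⟦X⟧)) = -21 - 10 * C s * X + 3 * X ^ 2 := by
    simp only [pN, map_add, map_sub, Derivation.leibniz, Derivation.leibniz_pow, derivative_C,
      derivative_X, d21, d5, smul_eq_mul, nsmul_eq_mul]
    push_cast
    ring
  have dD : d⁄dX R (pD (C s) (X : R⟦X⟧)) = -5 * C s - 42 * X + 3 * C s * X ^ 2 := by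
    simp only [pD, map_add, map_sub, Derivation.leibniz, Derivation.leibniz_pow, derivative_C,
      derivative_X, d21, d5, smul_eq_mul, nsmul_eq_mul, Derivation.map_one_eq_zero]
    push_cast
    ring
  have dI : d⁄dX R I = - (-5 * C s - 42 * X + 3 * C s * X ^ 2) * I ^ 2 := by
    have h := congrArg (d⁄dX R) hI
    rw [Derivation.leibniz, dD, Derivation.map_one_eq_zero, smul_eq_mul, smul_eq_mul] at h
    calc d⁄dX R I = (pD (C s) X * I) * d⁄dX R I := by rw [hI]; ring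
      _ = I * (pD (C s) X * d⁄dX R I + I * (-5 * C s - 42 * X + 3 * C s * X ^ 2)) -
          (-5 * C s - 42 * X + 3 * C s * X ^ 2) * I ^ 2 := by ring
      _ = _ := by rw [h]; ring
  refine ⟨?_, ?_, ?_, ?_⟩
  · simp
  · simp [pN, pB, I0]
  · rw [Derivation.leibniz, Derivation.leibniz, Derivation.leibniz_pow, Derivation.leibniz_pow,
      dN, dI, derivative_X]
    simp only [smul_eq_mul, nsmul_eq_mul]
    push_cast
    have h1 := base_one (C s) (X : R⟦X⟧) hsC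
    linear_combination pN (C s) X * I ^ 3 * h1 -
      (pN (C s) X ^ 2 * I ^ 2 + 2 * X * pN (C s) X * I ^ 2 * (-21 - 10 * C s * X + 3 * X ^ 2)) * hI
  · have h2 := base_two (C s) (X : R⟦X⟧) hsC
    have hI4 : (pD (C s) X * I) ^ 4 = 1 := by rw [hI]; ring
    have hI2 : (pD (C s) X * I) ^ 2 = 1 := by rw [hI]; ring
    simp only [qq, h3]
    linear_combination X * pN (C s) X ^ 2 * I ^ 6 * h2 +
      X * pN (C s) X ^ 2 * I ^ 2 * hI4 - 6 * C s * X ^ 2 * pN (C s) X ^ 4 * I ^ 4 * hI2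

end Ser

end Pool.Agent.Lib.MP_945b72_nt
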