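import Mathlib

/-!
The binomial part: `∑ (-1)^m C(m,2j)^2 ≡ C(n+j,2j)` modulo `p^2`, `p = 2n+1`.
-/

namespace Pool.Agent.Lib.MP_945b72_nt

open Finset

theorem ch1 (m k : ℕ) : ((m : ℤ) + 1 - k) * ((m + 1).choose k : ℤ) = (m + 1) * (m.choose k : ℤ) := by
  rcases Nat.lt_or_ge (m + 1) k with h | h
  · rw [Nat.choose_eq_zero_of_lt h, Nat.choose_eq_zero_of_lt (by omega)]; simp
  · have h1 := Nat.add_one_mul_choose_eq m k
    have h2 := Nat.choose_succ_right_eq (m + 1) k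
    have h3 : ((m + 1 - k : ℕ) : ℤ) = (m : ℤ) + 1 - k := by
      rw [Nat.cast_sub h]; push_cast; ring
    have h4 : ((m + 1) * m.choose k : ℤ) = ((m + 1).choose (k + 1) * (k + 1) : ℤ) := by
      exact_mod_cast h1
    have h5 : ((m + 1).choose (k + 1) * (k + 1) : ℤ) = (m + 1).choose k * ((m + 1 - k : ℕ) : ℤ) := by
      exact_mod_cast h2
    rw [← h3, mul_comm, ← h5, ← h4]

theorem ch2 (m k : ℕ) : ((k : ℤ) + 1) * (m.choose (k + 1) : ℤ) = (m - k) * (m.choose k : ℤ) := by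
  rcases Nat.lt_or_ge m k with h | h
  · rw [Nat.choose_eq_zero_of_lt h, Nat.choose_eq_zero_of_lt (by omega)]; simp
  · have h2 := Nat.choose_succ_right_eq m k
    have h3 : ((m - k : ℕ) : ℤ) = (m : ℤ) - k := by rw [Nat.cast_sub h]
    have h5 : (m.choose (k + 1) * (k + 1) : ℤ) = m.choose k * ((m - k : ℕ) : ℤ) := by
      exact_mod_cast h2
    rw [← h3]; linarith

/-- certificate polynomial -/
def Rp (k m : ℤ) : ℤ := 2 * m ^ 2 - 2 * (3 * k + 4) * m + (k + 1) * (5 * k + 8)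

/-- certificate -/
def Hh (k m : ℕ) : ℤ := Rp k m * ((m : ℤ) - k) ^ 2 * (m.choose k : ℤ) ^ 2

theorem tele (k m : ℕ) : ((k : ℤ) + 1) ^ 3 * (k + 2) * (m.choose k : ℤ) ^ 2 +
    4 * (k + 1) ^ 2 * (k + 2) ^ 2 * (m.choose (k + 2) : ℤ) ^ 2 = Hh k (m + 1) + Hh k m := by
  have h1 := ch1 m k
  have h2 := ch2 m k
  have h3 := ch2 m (k + 1)
  have e1 : Hh k (m + 1) = Rp k (m + 1) * ((m + 1) * (m.choose k : ℤ)) ^ 2 := by
    rw [← h1]; unfold Hh; push_cast; ring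
  have e2 : ((k : ℤ) + 1) ^ 2 * (k + 2) ^ 2 * (m.choose (k + 2) : ℤ) ^ 2 =
      (((m : ℤ) - k - 1) * ((m - k) * (m.choose k : ℤ))) ^ 2 := by
    rw [← h2]
    have h4 : ((k : ℤ) + 2) * (m.choose (k + 2) : ℤ) =
        ((m : ℤ) - k - 1) * (m.choose (k + 1) : ℤ) := by
      push_cast at h3
      linarith
    calc ((k : ℤ) + 1) ^ 2 * (k + 2) ^ 2 * (m.choose (k + 2) : ℤ) ^ 2 =
        ((k : ℤ) + 1) ^ 2 * (((k : ℤ) + 2) * (m.choose (k + 2) : ℤ)) ^ 2 := by ring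
      _ = _ := by rw [h4]; ring
  rw [e1]
  have e3 : 4 * ((k : ℤ) + 1) ^ 2 * (k + 2) ^ 2 * (m.choose (k + 2) : ℤ) ^ 2 =
      4 * (((k : ℤ) + 1) ^ 2 * (k + 2) ^ 2 * (m.choose (k + 2) : ℤ) ^ 2) := by ring
  rw [e3, e2]
  unfold Hh Rp
  ring

/-- the alternating sum of squares of binomial coefficients -/
def Aa (p k : ℕ) : ℤ := ∑ m ∈ range p, (-1) ^ m * (m.choose k : ℤ) ^ 2

theorem tele_sum (k N : ℕ) : ∑ m ∈ range N, (-1 : ℤ) ^ m * (Hh k (m + 1) + Hh k m) =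
    Hh k 0 - (-1) ^ N * Hh k N := by
  induction N with
  | zero => simp
  | succ N ih => rw [sum_range_succ, ih, pow_succ]; ring

theorem Hh_zero (k : ℕ) : Hh k 0 = 0 := by
  unfold Hh
  cases k with
  | zero => simp
  | succ k => simp

theorem Aa_rec (k p : ℕ) : ((k : ℤ) + 1) ^ 3 * (k + 2) * Aa p k +
    4 * (k + 1) ^ 2 * (k + 2) ^ 2 * Aa p (k + 2) = - (-1) ^ p * Hh k p := by
  have h := tele_sum k p
  rw [Hh_zero, zero_sub, ← neg_mul] at h
  rw [← h]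
  unfold Aa
  rw [mul_sum, mul_sum, ← sum_add_distrib]
  apply sum_congr rfl
  intro m _
  rw [← tele]; ring

theorem dvd_Hh {p k : ℕ} (hp : p.Prime) (hk : k < p) : (p : ℤ) ^ 2 ∣ Hh k p := by
  unfold Hh
  rcases Nat.eq_zero_or_pos k with h | h
  · subst h
    simp only [Nat.cast_zero, sub_zero]
    exact Dvd.dvd.mul_right (dvd_mul_left _ _) _
  · have h1 : (p : ℤ) ∣ (p.choose k : ℤ) := by
      exact_mod_cast hp.dvd_choose_self h.ne' hk
    exact Dvd.dvd.mul_left (pow_dvd_pow_of_dvd h1 2) _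

theorem coprime_int {p : ℕ} (hp : p.Prime) {a : ℕ} (h0 : 0 < a) (h : a < p) :
    IsCoprime ((p : ℤ) ^ 2) (a : ℤ) := by
  apply IsCoprime.pow_left
  rw [Nat.isCoprime_iff_coprime]
  exact (Nat.Prime.coprime_iff_not_dvd hp).mpr (Nat.not_dvd_of_pos_of_lt h0 h)

theorem Aa_cong {p k : ℕ} (hp : p.Prime) (hk : k + 2 < p) :
    (p : ℤ) ^ 2 ∣ ((k : ℤ) + 1) * Aa p k + 4 * (k + 2) * Aa p (k + 2) := by
  have h1 : (p : ℤ) ^ 2 ∣ (((k : ℤ) + 1) ^ 2 * (k + 2)) *
      (((k : ℤ) + 1) * Aa p k + 4 * (k + 2) * Aa p (k + 2)) := by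
    have h2 := Aa_rec k p
    have h3 : (p : ℤ) ^ 2 ∣ - (-1) ^ p * Hh k p := Dvd.dvd.mul_left (dvd_Hh hp (by omega)) _
    rw [← h2] at h3
    have : (((k : ℤ) + 1) ^ 2 * (k + 2)) *
      (((k : ℤ) + 1) * Aa p k + 4 * (k + 2) * Aa p (k + 2)) = ((k : ℤ) + 1) ^ 3 * (k + 2) * Aa p k +
    4 * (k + 1) ^ 2 * (k + 2) ^ 2 * Aa p (k + 2) := by ring
    rw [this]; exact h3
  have c1 : IsCoprime ((p : ℤ) ^ 2) ((k : ℤ) + 1) := by
    have := coprime_int hp (a := k + 1) (by omega) (by omega)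
    push_cast at this; exact this
  have c2 : IsCoprime ((p : ℤ) ^ 2) ((k : ℤ) + 2) := by
    have := coprime_int hp (a := k + 2) (by omega) (by omega)
    push_cast at this; exact this
  exact (IsCoprime.mul_right (c1.pow_right (n := 2)) c2).dvd_of_dvd_mul_left h1

theorem cc_rec (n j : ℕ) : ((n : ℤ) - j) * (n + j + 1) * ((n + j).choose (2 * j) : ℤ) =
    (2 * j + 1) * (2 * j + 2) * ((n + j + 1).choose (2 * j + 2) : ℤ) := by
  have h1 := ch1 (n + j) (2 * j + 2)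
  have h2 := ch2 (n + j) (2 * j)
  have h3 := ch2 (n + j) (2 * j + 1)
  have h4 := ch2 (n + j + 1) (2 * j + 1)
  have h5 := Nat.add_one_mul_choose_eq (n + j) (2 * j + 1)
  have h6 : ((n : ℤ) + j + 1) * ((n + j).choose (2 * j + 1) : ℤ) =
      ((n + j + 1).choose (2 * j + 2) : ℤ) * (2 * j + 2) := by
    have : (((n + j).succ * (n + j).choose (2 * j + 1) : ℕ) : ℤ) =
      (((n + j).succ.choose (2 * j + 1).succ * (2 * j + 1).succ : ℕ) : ℤ) := by rw [h5]
    push_cast at this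
    convert this using 1
    ring
  push_cast at h2
  calc ((n : ℤ) - j) * (n + j + 1) * ((n + j).choose (2 * j) : ℤ) =
      (n + j + 1) * (((n : ℤ) + j - 2 * j) * ((n + j).choose (2 * j) : ℤ)) := by ring
    _ = (n + j + 1) * ((2 * j + 1) * ((n + j).choose (2 * j + 1) : ℤ)) := by rw [h2]
    _ = (2 * j + 1) * ((n + j + 1) * ((n + j).choose (2 * j + 1) : ℤ)) := by ring
    _ = _ := by rw [h6]; ring

theorem Aa_zero {n : ℕ} : Aa (2 * n + 1) 0 = 1 := by
  unfold Aa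
  simp only [Nat.choose_zero_right, Nat.cast_one, one_pow, mul_one]
  induction n with
  | zero => simp
  | succ n ih =>
    have h : (-1 : ℤ) ^ (2 * n) = 1 := by rw [pow_mul]; norm_num
    rw [show 2 * (n + 1) + 1 = (2 * n + 1) + 1 + 1 by ring, sum_range_succ, sum_range_succ, ih,
      pow_succ (-1 : ℤ) (2 * n + 1), pow_succ (-1 : ℤ) (2 * n), h]
    norm_num

theorem Aa_eq {n j : ℕ} (hp : (2 * n + 1).Prime) (hj : j ≤ n) :
    ((2 * n + 1 : ℕ) : ℤ) ^ 2 ∣ Aa (2 * n + 1) (2 * j) - ((n + j).choose (2 * j) : ℤ) := by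
  induction j with
  | zero => simp [Aa_zero]
  | succ j ih =>
    have h0 := ih (by omega)
    have h1 := Aa_cong (p := 2 * n + 1) (k := 2 * j) hp (by omega)
    have h2 := cc_rec n j
    have hodd : 2 * n + 1 ≠ 2 := by omega
    have h3 : ((2 * n + 1 : ℕ) : ℤ) ^ 2 ∣ (4 * (2 * j + 1) * (2 * j + 2)) *
        (Aa (2 * n + 1) (2 * (j + 1)) - ((n + (j + 1)).choose (2 * (j + 1)) : ℤ)) := by
      have e : (4 * (2 * (j : ℤ) + 1) * (2 * j + 2)) *
        (Aa (2 * n + 1) (2 * (j + 1)) - ((n + (j + 1)).choose (2 * (j + 1)) : ℤ)) =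
        (2 * j + 1) * ((((2 * j : ℕ) : ℤ) + 1) * Aa (2 * n + 1) (2 * j) +
          4 * (((2 * j : ℕ) : ℤ) + 2) * Aa (2 * n + 1) (2 * j + 2)) -
        (2 * j + 1) ^ 2 * (Aa (2 * n + 1) (2 * j) - ((n + j).choose (2 * j) : ℤ)) -
        ((2 * n + 1 : ℕ) : ℤ) ^ 2 * ((n + j).choose (2 * j) : ℤ) := by
        rw [show 2 * (j + 1) = 2 * j + 2 by ring, show n + (j + 1) = n + j + 1 by ring]
        push_cast
        linear_combination 4 * h2
      rw [e]
      exact ((h1.mul_left _).sub (h0.mul_left _)).sub (dvd_mul_right _ _)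
    have c1 := coprime_int hp (a := 2 * j + 1) (by omega) (by omega)
    have c2 := coprime_int hp (a := 2 * j + 2) (by omega) (by omega)
    have c3 := coprime_int hp (a := 2) (by omega) (by have := hp.two_le; omega)
    have c4 : IsCoprime (((2 * n + 1 : ℕ) : ℤ) ^ 2) (4 * (2 * (j : ℤ) + 1) * (2 * j + 2)) := by
      have h44 : (4 : ℤ) = ((2 : ℕ) : ℤ) * ((2 : ℕ) : ℤ) := by norm_num
      rw [h44]
      refine IsCoprime.mul_right (IsCoprime.mul_right (IsCoprime.mul_right c3 c3) ?_) ?_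
      · push_cast at c1 ⊢; exact c1
      · push_cast at c2 ⊢; exact c2
    exact c4.dvd_of_dvd_mul_left h3

/-- the sequence `a(n)` of the problem -/
def aSeq (n : ℕ) : ℤ :=
  ∑ j ∈ range (n + 1), (-16) ^ j * (n.choose j : ℤ) ^ 2 * ((n - j).choose j : ℤ) ^ 2

theorem aSeq_eq {m N : ℕ} (h : m < N) :
    aSeq m = ∑ j ∈ range N, (-16) ^ j * (m.choose (2 * j) : ℤ) ^ 2 * ((2 * j).choose j : ℤ) ^ 2 := by
  unfold aSeq
  rw [← sum_subset (s₁ := range (m + 1)) (s₂ := range N)]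
  · apply sum_congr rfl
    intro j hj
    rw [mem_range] at hj
    have : m.choose j * (m - j).choose j = m.choose (2 * j) * (2 * j).choose j := by
      rcases Nat.lt_or_ge m (2 * j) with h1 | h1
      · rw [Nat.choose_eq_zero_of_lt h1, Nat.choose_eq_zero_of_lt (show m - j < j by omega)]
        simp
      · have := Nat.choose_mul (n := m) (k := 2 * j) (s := j) (by omega)
        rw [this, show 2 * j - j = j by omega]
    have h2 : ((m.choose j : ℤ) * ((m - j).choose j : ℤ)) =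
      (m.choose (2 * j) : ℤ) * ((2 * j).choose j : ℤ) := by exact_mod_cast this
    calc (-16 : ℤ) ^ j * (m.choose j : ℤ) ^ 2 * ((m - j).choose j : ℤ) ^ 2 =
        (-16) ^ j * ((m.choose j : ℤ) * ((m - j).choose j : ℤ)) ^ 2 := by ring
      _ = _ := by rw [h2]; ring
  · intro j hj
    rw [mem_range] at hj ⊢
    omega
  · intro j _ hj
    rw [mem_range] at hj
    rw [Nat.choose_eq_zero_of_lt (show m < 2 * j by omega)]
    simp

theorem bin_part {n : ℕ} (hp : (2 * n + 1).Prime) :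
    ((2 * n + 1 : ℕ) : ℤ) ^ 2 ∣ (∑ m ∈ range (2 * n + 1), (-1) ^ m * aSeq m) -
      ∑ j ∈ range (n + 1), (-16) ^ j * ((n + j).choose (2 * j) : ℤ) * ((2 * j).choose j : ℤ) ^ 2 := by
  have h1 : (∑ m ∈ range (2 * n + 1), (-1) ^ m * aSeq m) =
      ∑ j ∈ range (n + 1), (-16) ^ j * ((2 * j).choose j : ℤ) ^ 2 * Aa (2 * n + 1) (2 * j) := by
    have h2 : ∀ m ∈ range (2 * n + 1), (-1 : ℤ) ^ m * aSeq m = ∑ j ∈ range (n + 1),
        (-16) ^ j * ((2 * j).choose j : ℤ) ^ 2 * ((-1) ^ m * (m.choose (2 * j) : ℤ) ^ 2) := by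
      intro m hm
      rw [mem_range] at hm
      rw [aSeq_eq hm, mul_sum, ← sum_subset (s₁ := range (n + 1)) (s₂ := range (2 * n + 1))]
      · apply sum_congr rfl
        intro j _
        ring
      · intro j hj
        rw [mem_range] at hj ⊢
        omega
      · intro j _ hj
        rw [mem_range] at hj
        rw [Nat.choose_eq_zero_of_lt (show m < 2 * j by omega)]
        simp
    rw [sum_congr rfl h2, sum_comm]
    apply sum_congr rfl
    intro j _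
    rw [← mul_sum]
    rfl
  rw [h1, ← sum_sub_distrib]
  apply dvd_sum
  intro j hj
  rw [mem_range] at hj
  have := Aa_eq hp (show j ≤ n by omega)
  have e : (-16 : ℤ) ^ j * ((2 * j).choose j : ℤ) ^ 2 * Aa (2 * n + 1) (2 * j) -
      (-16) ^ j * ((n + j).choose (2 * j) : ℤ) * ((2 * j).choose j : ℤ) ^ 2 =
      ((-16) ^ j * ((2 * j).choose j : ℤ) ^ 2) *
        (Aa (2 * n + 1) (2 * j) - ((n + j).choose (2 * j) : ℤ)) := by ring
  rw [e]
  exact this.mul_left _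

end Pool.Agent.Lib.MP_945b72_nt
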