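import Pool.Agent.Lib.MP_945b72_nt.Pt

/-!
Multiplication by a positive integer: polynomials of degree `n^2` with reciprocity.
-/

namespace Pool.Agent.Lib.MP_945b72_nt

open Polynomial

variable {R : Type*} [CommRing R]

/-- evaluation of a polynomial at a power series -/
noncomputable def ev (u : PowerSeries R) : R[X] →+* PowerSeries R :=
  Polynomial.eval₂RingHom PowerSeries.C u

@[simp] theorem ev_C (u : PowerSeries R) (r : R) : ev u (C r) = PowerSeries.C r := by
  simp [ev]

@[simp] theorem ev_X (u : PowerSeries R) : ev u X = u := by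
  simp [ev]

theorem C_two' : (C (2 : R) : R[X]) = 2 := map_ofNat C 2

theorem C_four' : (C (4 : R) : R[X]) = 4 := map_ofNat C 4

/-- the data of multiplication by `n` -/
structure MulPoly (x : R) (n : ℕ) (U V : R[X]) : Prop where
  dU : U.natDegree ≤ n ^ 2
  dV : V.natDegree ≤ n ^ 2
  U0 : U.coeff 0 = 0
  V0 : V.coeff 0 = 1
  odd : Odd n → reflect (n ^ 2) U = V
  evenU : Even n → reflect (n ^ 2) U = U
  evenV : Even n → reflect (n ^ 2) V = V
  pt : ∀ a : R, a ≠ 0 → ∀ u z : PowerSeries R, Pt x a u z →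
    ∃ u' z' : PowerSeries R, Pt x (n * a) u' z' ∧ ev u V * u' = ev u U

theorem MulPoly.one (x : R) : MulPoly x 1 X 1 := by
  refine ⟨?_, ?_, ?_, ?_, ?_, ?_, ?_, ?_⟩
  · exact natDegree_X_le
  · simp
  · simp
  · simp
  · intro _; simp
  · intro h; simp at h
  · intro h; simp at h
  · intro a _ u z h
    refine ⟨u, z, ?_, ?_⟩
    · simpa using h
    · simp

theorem reflect_pow (f : R[X]) {F : ℕ} (hf : f.natDegree ≤ F) (k : ℕ) :
    reflect (k * F) (f ^ k) = (reflect F f) ^ k := by
  induction k with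
  | zero => simp
  | succ k ih =>
    have h1 : (f ^ k).natDegree ≤ k * F :=
      le_trans natDegree_pow_le (Nat.mul_le_mul_left k hf)
    rw [pow_succ, pow_succ, ← ih, ← reflect_mul _ _ h1 hf]
    congr 1
    ring

theorem constantCoeff_ev (u : PowerSeries R) (h : PowerSeries.constantCoeff u = 0) (P : R[X]) :
    PowerSeries.constantCoeff (ev u P) = P.coeff 0 := by
  have : (PowerSeries.constantCoeff).comp (ev u) =
      (Polynomial.eval₂RingHom (RingHom.id R) 0 : R[X] →+* R) := by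
    apply Polynomial.ringHom_ext
    · intro r; simp
    · simp [h]
  have h2 := congrArg (fun f => f P) this
  simp only [RingHom.comp_apply, coe_eval₂RingHom] at h2
  rw [h2, eval₂_id, coeff_zero_eq_eval_zero]

theorem MulPoly.even {x : R} [IsDomain R] [CharZero R] {m : ℕ} (hm : 1 ≤ m) {U V : R[X]}
    (h : MulPoly x m U V) :
    MulPoly x (2 * m) (4 * U * V * (V ^ 2 - 2 * C x * U * V + U ^ 2)) ((V ^ 2 - U ^ 2) ^ 2) := by
  have hU := h.dU
  have hV := h.dV
  have e4 : (2 * m) ^ 2 = m ^ 2 + m ^ 2 + (2 * m ^ 2) := by ring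
  have d1 : (V ^ 2).natDegree ≤ 2 * m ^ 2 := le_trans natDegree_pow_le (by omega)
  have d2 : (U ^ 2).natDegree ≤ 2 * m ^ 2 := le_trans natDegree_pow_le (by omega)
  have d3 : (U * V).natDegree ≤ 2 * m ^ 2 := le_trans natDegree_mul_le (by omega)
  have d3' : (2 * C x * U * V).natDegree ≤ 2 * m ^ 2 := by
    have : (2 * C x * U * V) = C (2 * x) * (U * V) := by
      rw [C_mul, C_two']; ring
    rw [this]
    exact le_trans (natDegree_C_mul_le _ _) d3
  have d4 : (V ^ 2 - 2 * C x * U * V + U ^ 2).natDegree ≤ 2 * m ^ 2 := by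
    refine le_trans (natDegree_add_le _ _) (max_le ?_ d2)
    exact le_trans (natDegree_sub_le _ _) (max_le d1 d3')
  have d5 : (V ^ 2 - U ^ 2).natDegree ≤ 2 * m ^ 2 :=
    le_trans (natDegree_sub_le _ _) (max_le d1 d2)
  have d6 : (4 * U).natDegree ≤ m ^ 2 := by
    have : (4 * U : R[X]) = C 4 * U := by rw [C_four']
    rw [this]
    exact le_trans (natDegree_C_mul_le _ _) hU
  have d7 : (4 * U * V).natDegree ≤ m ^ 2 + m ^ 2 := le_trans natDegree_mul_le (by omega)
  -- reflections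
  have r1 : reflect (2 * m ^ 2) (V ^ 2) = (reflect (m ^ 2) V) ^ 2 := reflect_pow V hV 2
  have r2 : reflect (2 * m ^ 2) (U ^ 2) = (reflect (m ^ 2) U) ^ 2 := reflect_pow U hU 2
  have r3 : reflect (2 * m ^ 2) (2 * C x * U * V) =
      2 * C x * reflect (m ^ 2) U * reflect (m ^ 2) V := by
    have e1 : (2 * C x * U * V) = C (2 * x) * (U * V) := by
      rw [C_mul, C_two']; ring
    rw [e1, reflect_C_mul, two_mul (m ^ 2), reflect_mul U V hU hV, C_mul, C_two']
    ring
  have r4 : reflect ((2 * m) ^ 2) (4 * U * V * (V ^ 2 - 2 * C x * U * V + U ^ 2)) =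
      4 * reflect (m ^ 2) U * reflect (m ^ 2) V * ((reflect (m ^ 2) V) ^ 2 -
        2 * C x * reflect (m ^ 2) U * reflect (m ^ 2) V + (reflect (m ^ 2) U) ^ 2) := by
    rw [e4, reflect_mul _ _ d7 d4, reflect_mul _ _ d6 hV, reflect_add, reflect_sub, r1, r2, r3]
    have e1 : (4 * U : R[X]) = C 4 * U := by rw [C_four']
    rw [e1, reflect_C_mul, C_four']
  have r5 : reflect ((2 * m) ^ 2) ((V ^ 2 - U ^ 2) ^ 2) =
      ((reflect (m ^ 2) V) ^ 2 - (reflect (m ^ 2) U) ^ 2) ^ 2 := by
    have e5 : (2 * m) ^ 2 = 2 * (2 * m ^ 2) := by ring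
    rw [e5, reflect_pow _ d5, reflect_sub, r1, r2]
  refine ⟨?_, ?_, ?_, ?_, ?_, ?_, ?_, ?_⟩
  · rw [e4]
    exact le_trans natDegree_mul_le (by omega)
  · have e5 : (2 * m) ^ 2 = 2 * (2 * m ^ 2) := by ring
    rw [e5]
    exact le_trans natDegree_pow_le (by omega)
  · simp [mul_coeff_zero, h.U0]
  · rw [coeff_zero_eq_eval_zero] at *
    have u0 := h.U0
    have v0 := h.V0
    rw [coeff_zero_eq_eval_zero] at u0 v0
    simp [u0, v0]
  · intro ho
    exfalso
    rw [Nat.odd_iff] at ho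
    omega
  · intro _
    rw [r4]
    rcases Nat.even_or_odd m with he | ho
    · rw [h.evenU he, h.evenV he]
    · have e1 := h.odd ho
      have e2 : reflect (m ^ 2) V = U := by rw [← e1, reflect_reflect]
      rw [e1, e2]; ring
  · intro _
    rw [r5]
    rcases Nat.even_or_odd m with he | ho
    · rw [h.evenU he, h.evenV he]
    · have e1 := h.odd ho
      have e2 : reflect (m ^ 2) V = U := by rw [← e1, reflect_reflect]
      rw [e1, e2]; ring
  · intro a ha u z hp
    obtain ⟨b, zb, hb, hVb⟩ := h.pt a ha u z hp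
    have hma : (m : R) * a ≠ 0 := by
      apply mul_ne_zero _ ha
      exact_mod_cast (show m ≠ 0 by omega)
    obtain ⟨I, hI⟩ := unit_of_zero (D := 1 - b * b) (by simp [hb.u0])
    have hadd := hb.add hma hma hb hI
    have e : (m : R) * a + m * a = ((2 * m : ℕ) : R) * a := by push_cast; ring
    rw [e] at hadd
    refine ⟨_, _, hadd, ?_⟩
    rw [double_eq _ _ _ _ _ hb.ez]
    simp only [map_mul, map_pow, map_sub, map_add, ev_C, map_ofNat]
    rw [← hVb]
    have hI4 : ((1 - b * b) * I) ^ 2 = 1 := by rw [hI]; ring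
    simp only [qq]
    linear_combination (4 * (ev u V) ^ 4 * b * (1 - 2 * PowerSeries.C x * b + b ^ 2)) * hI4

theorem MulPoly.odd_step {x : R} [IsDomain R] [CharZero R] {m : ℕ} (hm : 1 ≤ m)
    {U₀ V₀ U₁ V₁ : R[X]} (h₀ : MulPoly x m U₀ V₀) (h₁ : MulPoly x (m + 1) U₁ V₁) :
    ∃ U V : R[X], MulPoly x (2 * m + 1) U V := by
  obtain ⟨e, he⟩ : ∃ e : ℕ, e = 2 * m ^ 2 + 2 * m := ⟨_, rfl⟩
  have e1 : (m + 1) ^ 2 + m ^ 2 = e + 1 := by rw [he]; ring
  have e2 : (2 * m + 1) ^ 2 = 1 + 2 * e := by rw [he]; ring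
  have num0 : (U₁ * V₀ - U₀ * V₁).coeff 0 = 0 := by
    rw [coeff_sub, mul_coeff_zero, mul_coeff_zero, h₁.U0, h₀.U0]; ring
  obtain ⟨N, hN⟩ : ∃ N : R[X], U₁ * V₀ - U₀ * V₁ = X * N := X_dvd_iff.mpr num0
  set W : R[X] := V₁ * V₀ - U₁ * U₀ with hW
  have dnum : (U₁ * V₀ - U₀ * V₁).natDegree ≤ e + 1 := by
    have a1 : (U₁ * V₀).natDegree ≤ e + 1 := by
      refine le_trans natDegree_mul_le ?_
      have := h₁.dU; have := h₀.dV; omega
    have a2 : (U₀ * V₁).natDegree ≤ e + 1 := by
      refine le_trans natDegree_mul_le ?_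
      have := h₁.dV; have := h₀.dU; omega
    exact le_trans (natDegree_sub_le _ _) (max_le a1 a2)
  have dN : N.natDegree ≤ e := by
    by_cases hN0 : N = 0
    · rw [hN0]; simp
    · rw [hN, natDegree_X_mul hN0] at dnum
      omega
  -- reflection of the numerator
  have rnum : reflect (e + 1) (U₁ * V₀ - U₀ * V₁) = W ∨
      reflect (e + 1) (U₁ * V₀ - U₀ * V₁) = - W := by
    have r1 : reflect (e + 1) (U₁ * V₀) = reflect ((m + 1) ^ 2) U₁ * reflect (m ^ 2) V₀ := by
      rw [← e1]; exact reflect_mul _ _ h₁.dU h₀.dV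
    have r2 : reflect (e + 1) (U₀ * V₁) = reflect (m ^ 2) U₀ * reflect ((m + 1) ^ 2) V₁ := by
      rw [← e1, add_comm]; exact reflect_mul _ _ h₀.dU h₁.dV
    rw [reflect_sub, r1, r2]
    rcases Nat.even_or_odd m with hev | hod
    · left
      have o1 : Odd (m + 1) := hev.add_one
      have a1 := h₁.odd o1
      have a2 : reflect ((m + 1) ^ 2) V₁ = U₁ := by rw [← a1, reflect_reflect]
      rw [h₀.evenU hev, h₀.evenV hev, a1, a2, hW]; ring
    · right
      have o1 : Even (m + 1) := hod.add_one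
      have a1 := h₀.odd hod
      have a2 : reflect (m ^ 2) V₀ = U₀ := by rw [← a1, reflect_reflect]
      rw [h₁.evenU o1, h₁.evenV o1, a1, a2, hW]; ring
  have rN : reflect (e + 1) (U₁ * V₀ - U₀ * V₁) = reflect e N := by
    rw [hN, add_comm e 1, reflect_mul _ _ natDegree_X_le dN]; simp
  have rN2 : (reflect e N) ^ 2 = W ^ 2 := by
    rw [← rN]
    rcases rnum with h | h
    · rw [h]
    · rw [h]; ring
  have dW : W.natDegree ≤ e := by
    have d1 : (reflect e N).natDegree ≤ e :=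
      le_trans natDegree_reflect_le (max_le le_rfl dN)
    rw [rN] at rnum
    rcases rnum with h | h
    · rw [← h]; exact d1
    · have : W = - reflect e N := by rw [h]; ring
      rw [this, natDegree_neg]; exact d1
  refine ⟨X * N ^ 2, W ^ 2, ?_, ?_, ?_, ?_, ?_, ?_, ?_, ?_⟩
  · rw [e2]
    refine le_trans natDegree_mul_le ?_
    have a1 := natDegree_X_le (R := R)
    have a2 : (N ^ 2).natDegree ≤ 2 * e := le_trans natDegree_pow_le (by omega)
    omega
  · rw [e2]
    exact le_trans natDegree_pow_le (by omega)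
  · simp
  · have u0 := h₁.U0
    have v0 := h₁.V0
    have v0' := h₀.V0
    rw [coeff_zero_eq_eval_zero] at u0 v0 v0' ⊢
    rw [hW]; simp [u0, v0, v0']
  · intro _
    have a2 : (N ^ 2).natDegree ≤ 2 * e := le_trans natDegree_pow_le (by omega)
    rw [e2, reflect_mul _ _ natDegree_X_le a2, reflect_pow _ dN, rN2]; simp
  · intro hev
    exfalso
    rw [Nat.even_iff] at hev; omega
  · intro hev
    exfalso
    rw [Nat.even_iff] at hev; omega
  · intro a ha u z hp
    obtain ⟨b, zb, hb, hVb⟩ := h₀.pt a ha u z hp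
    obtain ⟨c, zc, hc, hVc⟩ := h₁.pt a ha u z hp
    have hma : (m : R) * a ≠ 0 := by
      apply mul_ne_zero _ ha
      exact_mod_cast (show m ≠ 0 by omega)
    have hma1 : ((m + 1 : ℕ) : R) * a ≠ 0 := by
      apply mul_ne_zero _ ha
      exact_mod_cast (show m + 1 ≠ 0 by omega)
    obtain ⟨I, hI⟩ := unit_of_zero (D := 1 - c * b) (by simp [hb.u0])
    have hsum := hc.add hma1 hma hb hI
    have hdif := hc.add hma1 (neg_ne_zero.mpr hma) hb.neg hI
    have es : ((m + 1 : ℕ) : R) * a + m * a = ((2 * m + 1 : ℕ) : R) * a := by push_cast; ring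
    have ed : ((m + 1 : ℕ) : R) * a + -(m * a) = a := by push_cast; ring
    rw [es] at hsum
    rw [ed] at hdif
    have hu := Sol.unique ha hdif.sol hp.sol
    refine ⟨_, _, hsum, ?_⟩
    have hprod := add_mul_sub _ _ _ _ _ _ _ hc.ez hb.ez hI
    rw [hu] at hprod
    have hu0 : u ≠ 0 := by
      intro h0
      have := hp.sol.u1
      rw [h0, map_zero] at this
      exact ha ((pow_eq_zero_iff two_ne_zero).mp this.symm)
    have hnum : u * ev u N = ev u V₁ * ev u V₀ * (c - b) := by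
      have := congrArg (ev u) hN
      simp only [map_sub, map_mul, ev_X] at this
      rw [← this, ← hVb, ← hVc]; ring
    have hden : ev u W = ev u V₁ * ev u V₀ * (1 - c * b) := by
      rw [hW]
      simp only [map_sub, map_mul]
      rw [← hVb, ← hVc]; ring
    apply mul_left_cancel₀ hu0
    simp only [map_mul, map_pow, ev_X]
    have hI2 : ((1 - c * b) * I) ^ 2 = 1 := by rw [hI]; ring
    rw [hden]
    have h3 : u * (u * ev u N ^ 2) = (ev u V₁ * ev u V₀ * (c - b)) ^ 2 := by
      rw [← hnum]; ring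
    rw [h3]
    linear_combination (ev u V₁ * ev u V₀ * (1 - c * b)) ^ 2 * hprod +
      (ev u V₁ * ev u V₀ * (c - b)) ^ 2 * hI2

theorem exists_mulPoly [IsDomain R] [CharZero R] (x : R) (n : ℕ) (hn : 1 ≤ n) :
    ∃ U V : R[X], MulPoly x n U V := by
  induction n using Nat.strong_induction_on with
  | _ n ih =>
    rcases Nat.lt_or_ge n 2 with h2 | h2
    · have : n = 1 := by omega
      subst this
      exact ⟨X, 1, MulPoly.one x⟩
    · rcases Nat.even_or_odd n with he | ho
      · obtain ⟨m, hm⟩ := he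
        have hm' : n = 2 * m := by omega
        obtain ⟨U, V, h⟩ := ih m (by omega) (by omega)
        rw [hm']
        exact ⟨_, _, h.even (by omega)⟩
      · obtain ⟨m, hm⟩ := ho
        obtain ⟨U₀, V₀, h₀⟩ := ih m (by omega) (by omega)
        obtain ⟨U₁, V₁, h₁⟩ := ih (m + 1) (by omega) (by omega)
        rw [hm]
        exact MulPoly.odd_step (by omega) h₀ h₁

end Pool.Agent.Lib.MP_945b72_nt
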