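import Pool.Agent.Lib.MP_945b72_nt.Bin
import Pool.Agent.Lib.MP_945b72_nt.IntMul

/-!
Legendre polynomials: generating function and Clausen's formula for the square.
-/

namespace Pool.Agent.Lib.MP_945b72_nt

open Polynomial Finset

/-- `C(m+k,2k) C(2k,k)` -/
def tt (m k : ℕ) : ℤ := ((m + k).choose (2 * k) : ℤ) * ((2 * k).choose k : ℤ)

theorem central_rec (k : ℕ) : ((k : ℤ) + 1) * ((2 * (k + 1)).choose (k + 1) : ℤ) =
    2 * (2 * k + 1) * ((2 * k).choose k : ℤ) := by
  have := Nat.succ_mul_centralBinom_succ k
  unfold Nat.centralBinom at this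
  exact_mod_cast this

theorem tt_F1 (m k : ℕ) : ((k : ℤ) + 1) ^ 2 * tt m (k + 1) = ((m : ℤ) - k) * (m + k + 1) * tt m k := by
  unfold tt
  have h1 := cc_rec m k
  have h2 := central_rec k
  rw [show m + (k + 1) = m + k + 1 by ring, show 2 * (k + 1) = 2 * k + 2 by ring] at *
  linear_combination ((k : ℤ) + 1) * ((m + k + 1).choose (2 * k + 2) : ℤ) * h2 -
    ((2 * k).choose k : ℤ) * h1

theorem tt_F2 (m k : ℕ) : ((m : ℤ) + 1 - k) * tt (m + 1) k = ((m : ℤ) + 1 + k) * tt m k := by
  unfold tt
  have h1 := ch1 (m + k) (2 * k)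
  rw [show m + 1 + k = m + k + 1 by ring]
  push_cast at h1
  linear_combination ((2 * k).choose k : ℤ) * h1

theorem tt_zero (m : ℕ) : tt m 0 = 1 := by simp [tt]

theorem tt_gt {m k : ℕ} (h : m < k) : tt m k = 0 := by
  unfold tt
  rw [Nat.choose_eq_zero_of_lt (by omega)]
  simp

theorem tt_three (m k : ℕ) : ((m : ℤ) + 2) * tt (m + 2) (k + 1) =
    (2 * m + 3) * (tt (m + 1) (k + 1) + 2 * tt (m + 1) k) - (m + 1) * tt m (k + 1) := by
  have hk : (((k : ℤ) + 1) ^ 2) ≠ 0 := by positivity
  apply mul_left_cancel₀ hk
  have a1 := tt_F1 (m + 1) k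
  have a2 := tt_F1 (m + 2) k
  have a3 := tt_F1 m k
  have b1 := tt_F2 (m + 1) k
  have b2 := tt_F2 m k
  push_cast at *
  linear_combination ((m : ℤ) + 2) * a2 - (2 * m + 3) * a1 + (m + 1) * a3 +
    ((m : ℤ) + 2) * (m + 2 + k + 1) * b1 - ((m : ℤ) + 1) * (m - k) * b2

section Legendre

variable {L : Type*} [Field L] [CharZero L]

/-- the Legendre polynomial at `1 + 2 z` -/
def yy (z : L) (n N : ℕ) : L := ∑ k ∈ range N, (tt n k : L) * z ^ k

theorem yy_stable (z : L) {n N : ℕ} (h : n < N) : yy z n N = yy z n (n + 1) := by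
  unfold yy
  symm
  apply sum_subset
  · intro j hj
    rw [mem_range] at hj ⊢
    omega
  · intro j _ hj
    rw [mem_range] at hj
    rw [tt_gt (by omega)]
    simp

theorem yy_rec (z : L) (m : ℕ) : ((m : L) + 2) * yy z (m + 2) (m + 3) =
    (2 * m + 3) * (1 + 2 * z) * yy z (m + 1) (m + 2) - (m + 1) * yy z m (m + 1) := by
  rw [← yy_stable z (show m < m + 3 by omega), ← yy_stable z (show m + 1 < m + 3 by omega)]
  have e0 : ∀ n, yy z n (m + 3) = 1 + ∑ k ∈ range (m + 2), (tt n (k + 1) : L) * z ^ (k + 1) := by
    intro n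
    unfold yy
    rw [sum_range_succ']
    simp [tt_zero, add_comm]
  have e1 : z * yy z (m + 1) (m + 3) = ∑ k ∈ range (m + 2), (tt (m + 1) k : L) * z ^ (k + 1) := by
    unfold yy
    rw [sum_range_succ, tt_gt (show m + 1 < m + 2 by omega)]
    simp only [Int.cast_zero, zero_mul, add_zero]
    rw [mul_sum]
    apply sum_congr rfl
    intro k _
    ring
  have e2 : (m + 2) * ∑ k ∈ range (m + 2), (tt (m + 2) (k + 1) : L) * z ^ (k + 1) =
      (2 * m + 3) * (∑ k ∈ range (m + 2), (tt (m + 1) (k + 1) : L) * z ^ (k + 1) +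
        2 * ∑ k ∈ range (m + 2), (tt (m + 1) k : L) * z ^ (k + 1)) -
        (m + 1) * ∑ k ∈ range (m + 2), (tt m (k + 1) : L) * z ^ (k + 1) := by
    simp only [mul_sum, ← sum_add_distrib, ← sum_sub_distrib]
    apply sum_congr rfl
    intro k _
    have h := tt_three m k
    have h' : (((m : ℤ) + 2 : ℤ) : L) * (tt (m + 2) (k + 1) : L) =
      (((2 * m + 3 : ℤ)) : L) * ((tt (m + 1) (k + 1) : L) + 2 * (tt (m + 1) k : L)) -
        (((m : ℤ) + 1 : ℤ) : L) * (tt m (k + 1) : L) := by
      exact_mod_cast h
    push_cast at h'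
    linear_combination z ^ (k + 1) * h'
  have e3 := e0 (m + 2)
  have e4 := e0 (m + 1)
  have e5 := e0 m
  linear_combination ((m : L) + 2) * e3 - (2 * m + 3) * e4 + (m + 1) * e5 + e2 -
    2 * (2 * m + 3) * e1

theorem gen_rec {x : L} {G : PowerSeries L}
    (hG : (1 - 2 * PowerSeries.C x * PowerSeries.X + PowerSeries.X ^ 2) * G ^ 2 = 1)
    (m : ℕ) : ((m : L) + 2) * PowerSeries.coeff (m + 2) G =
      (2 * m + 3) * x * PowerSeries.coeff (m + 1) G - (m + 1) * PowerSeries.coeff m G := by
  have hGne : G ≠ 0 := by
    rintro rfl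
    simp at hG
  have h2 : PowerSeries.derivative L (2 : PowerSeries L) = 0 := by
    have := (PowerSeries.derivative L).map_natCast 2
    simpa using this
  have e := congrArg (PowerSeries.derivative L) hG
  simp only [map_add, map_sub, Derivation.leibniz, Derivation.leibniz_pow, h2,
    PowerSeries.derivative_C, PowerSeries.derivative_X, smul_eq_mul,
    Derivation.map_one_eq_zero, nsmul_eq_mul] at e
  push_cast at e
  have e2 : PowerSeries.derivative L G - 2 * (PowerSeries.C x * (PowerSeries.X *
      PowerSeries.derivative L G)) + PowerSeries.X * (PowerSeries.X * PowerSeries.derivative L G) =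
      PowerSeries.C x * G - PowerSeries.X * G := by
    have h2G : (2 : PowerSeries L) * G ≠ 0 := mul_ne_zero (by
      have : (2 : PowerSeries L) = PowerSeries.C 2 := (map_ofNat _ 2).symm
      rw [this]
      intro h0
      have := congrArg PowerSeries.constantCoeff h0
      simp at this) hGne
    apply mul_left_cancel₀ h2G
    linear_combination e
  have e3 := congrArg (PowerSeries.coeff (m + 1)) e2
  have h2' : (2 : PowerSeries L) = PowerSeries.C 2 := (map_ofNat _ 2).symm
  rw [h2'] at e3
  simp only [map_add, map_sub, PowerSeries.coeff_C_mul, PowerSeries.coeff_succ_X_mul] at e3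
  cases m with
  | zero =>
    simp only [PowerSeries.coeff_derivative, zero_add, PowerSeries.coeff_zero_X_mul] at e3 ⊢
    push_cast at e3 ⊢
    linear_combination e3
  | succ m =>
    rw [PowerSeries.coeff_succ_X_mul] at e3
    simp only [PowerSeries.coeff_derivative] at e3
    push_cast at e3 ⊢
    linear_combination e3

theorem gen_one {x : L} {G : PowerSeries L}
    (hG : (1 - 2 * PowerSeries.C x * PowerSeries.X + PowerSeries.X ^ 2) * G ^ 2 = 1)
    (hG0 : PowerSeries.constantCoeff G = 1) : PowerSeries.coeff 1 G = x := by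
  have e := congrArg (PowerSeries.coeff 1) hG
  have h2' : (2 : PowerSeries L) = PowerSeries.C 2 := (map_ofNat _ 2).symm
  have hG2 : PowerSeries.coeff 1 (G ^ 2) = 2 * PowerSeries.coeff 1 G := by
    rw [pow_two, PowerSeries.coeff_mul]
    simp [Finset.Nat.antidiagonal_succ, hG0]
    ring
  rw [h2', ← map_mul, PowerSeries.coeff_mul] at e
  simp [Finset.Nat.antidiagonal_succ, hG0, PowerSeries.coeff_one,
    PowerSeries.coeff_X, hG2] at e
  linear_combination e / 2

theorem gen_eq {z : L} {G : PowerSeries L}
    (hG : (1 - 2 * PowerSeries.C (1 + 2 * z) * PowerSeries.X + PowerSeries.X ^ 2) * G ^ 2 = 1)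
    (hG0 : PowerSeries.constantCoeff G = 1) (n : ℕ) :
    PowerSeries.coeff n G = yy z n (n + 1) := by
  have key : ∀ n, PowerSeries.coeff n G = yy z n (n + 1) ∧
      PowerSeries.coeff (n + 1) G = yy z (n + 1) (n + 2) := by
    intro n
    induction n with
    | zero =>
      refine ⟨?_, ?_⟩
      · rw [PowerSeries.coeff_zero_eq_constantCoeff_apply, hG0]
        simp [yy, tt_zero]
      · rw [zero_add, gen_one hG hG0]
        unfold yy
        rw [sum_range_succ, sum_range_one]
        simp [tt]
    | succ n ih =>
      refine ⟨ih.2, ?_⟩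
      have h1 := gen_rec hG n
      have h2 := yy_rec z n
      have hn : (n : L) + 2 ≠ 0 := by exact_mod_cast (show n + 2 ≠ 0 by omega)
      apply mul_left_cancel₀ hn
      rw [h1, ih.1, ih.2, h2]
  exact (key n).1

end Legendre

section Clausen

variable {L : Type*} [Field L] [CharZero L]

theorem ode_unique {N : L} {D : L[X]} (h0 : D.coeff 0 = 0)
    (h : (X + X ^ 2) ^ 2 * derivative (derivative (derivative D)) +
      3 * (X + X ^ 2) * (1 + 2 * X) * derivative (derivative D) +
      ((6 - 4 * C N) * (X + X ^ 2) + 1) * derivative D - 2 * C N * (1 + 2 * X) * D = 0) :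
    D = 0 := by
  set T1 := X * derivative D with hT1
  set T2 := X ^ 2 * derivative (derivative D) with hT2
  set T3 := X ^ 3 * derivative (derivative (derivative D)) with hT3
  have c1 : ∀ k, T1.coeff k = k * D.coeff k := by
    intro k
    rw [hT1]
    cases k with
    | zero => simp
    | succ k => rw [coeff_X_mul, coeff_derivative]; push_cast; ring
  have c2 : ∀ k, T2.coeff k = k * (k - 1) * D.coeff k := by
    intro k
    rw [hT2, pow_two, mul_assoc]
    cases k with
    | zero => simp
    | succ k =>
      rw [coeff_X_mul]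
      cases k with
      | zero => simp
      | succ k => rw [coeff_X_mul, coeff_derivative, coeff_derivative]; push_cast; ring
  have c3 : ∀ k, T3.coeff k = k * (k - 1) * (k - 2) * D.coeff k := by
    intro k
    rw [hT3, show (X : L[X]) ^ 3 = X * (X * X) by ring, mul_assoc, mul_assoc]
    cases k with
    | zero => simp
    | succ k =>
      rw [coeff_X_mul]
      cases k with
      | zero => simp
      | succ k =>
        rw [coeff_X_mul]
        cases k with
        | zero => simp
        | succ k =>
          rw [coeff_X_mul, coeff_derivative, coeff_derivative, coeff_derivative]; push_cast; ring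
  have C3 : (3 : L[X]) = C 3 := (map_ofNat C 3).symm
  have C9 : (9 : L[X]) = C 9 := (map_ofNat C 9).symm
  have C2 : (2 : L[X]) = C 2 := (map_ofNat C 2).symm
  have C6 : (6 : L[X]) = C 6 := (map_ofNat C 6).symm
  have C4 : (4 : L[X]) = C 4 := (map_ofNat C 4).symm
  have key : (T3 + C 3 * T2 + T1) + X * (C 2 * T3 + C 9 * T2 + C (6 - 4 * N) * T1 -
      C (2 * N) * D) + X * (X * (T3 + C 6 * T2 + C (6 - 4 * N) * T1 - C (4 * N) * D)) = 0 := by
    simp only [map_sub, map_mul, ← C3, ← C9, ← C2, ← C6, ← C4]
    rw [hT1, hT2, hT3]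
    linear_combination X * h
  have hrec0 : ∀ k, k = 0 ∨ D.coeff k = 0 := by
    intro k
    induction k using Nat.strong_induction_on with
    | _ k ih =>
      rcases k with _ | _ | k
      · left; rfl
      · right
        have e := congrArg (fun P => P.coeff (0 + 1)) key
        simp only [coeff_add, coeff_sub, coeff_C_mul, coeff_zero, coeff_X_mul] at e
        simp only [mul_coeff_zero, coeff_X_zero, coeff_add, coeff_sub, coeff_C_mul, c1, c2, c3,
          h0] at e
        push_cast at e
        linear_combination e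
      · right
        have e := congrArg (fun P => P.coeff (k + 1 + 1)) key
        simp only [coeff_add, coeff_sub, coeff_C_mul, coeff_zero, coeff_X_mul, c1, c2, c3] at e
        have d1 : D.coeff (k + 1) = 0 := by
          rcases ih (k + 1) (by omega) with h1 | h1
          · omega
          · exact h1
        have d2 : D.coeff k = 0 := by
          rcases ih k (by omega) with h1 | h1
          · rw [h1]; exact h0
          · exact h1
        rw [d1, d2] at e
        push_cast at e
        have e2 : ((k : L) + 2) ^ 3 * D.coeff (k + 1 + 1) = 0 := by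
          linear_combination e
        have hk : ((k : L) + 2) ^ 3 ≠ 0 := by
          apply pow_ne_zero
          exact_mod_cast (show k + 2 ≠ 0 by omega)
        exact (mul_eq_zero.mp e2).resolve_left hk
  ext k
  rw [coeff_zero]
  rcases hrec0 k with h1 | h1
  · rw [h1]; exact h0
  · exact h1

/-- the polynomial `∑ C(n+k,2k) C(2k,k) X^k` -/
noncomputable def Yp (L : Type*) [Field L] (n : ℕ) : L[X] :=
  ∑ k ∈ range (n + 1), C (tt n k : L) * X ^ k

/-- the polynomial `∑ C(n+k,2k) C(2k,k)^2 X^k` -/
noncomputable def Gp (L : Type*) [Field L] (n : ℕ) : L[X] :=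
  ∑ k ∈ range (n + 1), C ((tt n k * ((2 * k).choose k : ℤ) : ℤ) : L) * X ^ k

theorem coeff_Yp (n k : ℕ) : (Yp L n).coeff k = (tt n k : L) := by
  unfold Yp
  rw [finset_sum_coeff]
  simp only [coeff_C_mul, coeff_X_pow, mul_ite, mul_one, mul_zero]
  rw [sum_ite_eq]
  split_ifs with h
  · rfl
  · rw [mem_range] at h
    rw [tt_gt (by omega)]; simp

theorem coeff_Gp (n k : ℕ) :
    (Gp L n).coeff k = ((tt n k * ((2 * k).choose k : ℤ) : ℤ) : L) := by
  unfold Gp
  rw [finset_sum_coeff]
  simp only [coeff_C_mul, coeff_X_pow, mul_ite, mul_one, mul_zero]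
  rw [sum_ite_eq]
  split_ifs with h
  · rfl
  · rw [mem_range] at h
    rw [tt_gt (by omega)]; simp

theorem ode_Y (n : ℕ) : (X + X ^ 2) * derivative (derivative (Yp L n)) +
    (1 + 2 * X) * derivative (Yp L n) - C ((n : L) * (n + 1)) * Yp L n = 0 := by
  set D := Yp L n with hD
  set T1 := X * derivative D with hT1
  set T2 := X ^ 2 * derivative (derivative D) with hT2
  have c1 : ∀ k, T1.coeff k = k * D.coeff k := by
    intro k
    rw [hT1]
    cases k with
    | zero => simp
    | succ k => rw [coeff_X_mul, coeff_derivative]; push_cast; ring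
  have c2 : ∀ k, T2.coeff k = k * (k - 1) * D.coeff k := by
    intro k
    rw [hT2, pow_two, mul_assoc]
    cases k with
    | zero => simp
    | succ k =>
      rw [coeff_X_mul]
      cases k with
      | zero => simp
      | succ k => rw [coeff_X_mul, coeff_derivative, coeff_derivative]; push_cast; ring
  have C2 : (2 : L[X]) = C 2 := (map_ofNat C 2).symm
  apply mul_left_cancel₀ (X_ne_zero (R := L))
  have key : (X : L[X]) * ((X + X ^ 2) * derivative (derivative D) +
      (1 + 2 * X) * derivative D - C ((n : L) * (n + 1)) * D) =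
      (T2 + T1) + X * (T2 + C 2 * T1 - C ((n : L) * (n + 1)) * D) := by
    rw [hT1, hT2, ← C2]; ring
  rw [key, mul_zero]
  ext k
  rw [coeff_zero]
  cases k with
  | zero =>
    simp only [coeff_add, mul_coeff_zero, coeff_X_zero, zero_mul, add_zero, c1, c2]
    simp
  | succ k =>
    simp only [coeff_add, coeff_sub, coeff_X_mul, coeff_C_mul, c1, c2, hD, coeff_Yp]
    have h := tt_F1 n k
    have h' : ((k : L) + 1) ^ 2 * (tt n (k + 1) : L) = ((n : L) - k) * (n + k + 1) * (tt n k : L) := by
      exact_mod_cast h
    push_cast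
    linear_combination h'

theorem ode_G (n : ℕ) : X ^ 2 * (4 * X + 1) * derivative (derivative (derivative (Gp L n))) +
    (18 * X ^ 2 + 3 * X) * derivative (derivative (Gp L n)) +
    ((12 - 4 * C ((n : L) * (n + 1))) * X + 1) * derivative (Gp L n) -
    2 * C ((n : L) * (n + 1)) * Gp L n = 0 := by
  set D := Gp L n with hD
  set T1 := X * derivative D with hT1
  set T2 := X ^ 2 * derivative (derivative D) with hT2
  set T3 := X ^ 3 * derivative (derivative (derivative D)) with hT3
  have c1 : ∀ k, T1.coeff k = k * D.coeff k := by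
    intro k
    rw [hT1]
    cases k with
    | zero => simp
    | succ k => rw [coeff_X_mul, coeff_derivative]; push_cast; ring
  have c2 : ∀ k, T2.coeff k = k * (k - 1) * D.coeff k := by
    intro k
    rw [hT2, pow_two, mul_assoc]
    cases k with
    | zero => simp
    | succ k =>
      rw [coeff_X_mul]
      cases k with
      | zero => simp
      | succ k => rw [coeff_X_mul, coeff_derivative, coeff_derivative]; push_cast; ring
  have c3 : ∀ k, T3.coeff k = k * (k - 1) * (k - 2) * D.coeff k := by
    intro k
    rw [hT3, show (X : L[X]) ^ 3 = X * (X * X) by ring, mul_assoc, mul_assoc]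
    cases k with
    | zero => simp
    | succ k =>
      rw [coeff_X_mul]
      cases k with
      | zero => simp
      | succ k =>
        rw [coeff_X_mul]
        cases k with
        | zero => simp
        | succ k =>
          rw [coeff_X_mul, coeff_derivative, coeff_derivative, coeff_derivative]; push_cast; ring
  have C2 : (2 : L[X]) = C 2 := (map_ofNat C 2).symm
  have C3 : (3 : L[X]) = C 3 := (map_ofNat C 3).symm
  have C4 : (4 : L[X]) = C 4 := (map_ofNat C 4).symm
  have C12 : (12 : L[X]) = C 12 := (map_ofNat C 12).symm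
  have C18 : (18 : L[X]) = C 18 := (map_ofNat C 18).symm
  apply mul_left_cancel₀ (X_ne_zero (R := L))
  have key : (X : L[X]) * (X ^ 2 * (4 * X + 1) * derivative (derivative (derivative D)) +
      (18 * X ^ 2 + 3 * X) * derivative (derivative D) +
      ((12 - 4 * C ((n : L) * (n + 1))) * X + 1) * derivative D -
      2 * C ((n : L) * (n + 1)) * D) =
      (T3 + C 3 * T2 + T1) + X * (C 4 * T3 + C 18 * T2 + C (12 - 4 * ((n : L) * (n + 1))) * T1 -
        C (2 * ((n : L) * (n + 1))) * D) := by
    rw [hT1, hT2, hT3]
    simp only [map_sub, map_mul, ← C2, ← C3, ← C4, ← C12, ← C18]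
    ring
  rw [key, mul_zero]
  ext k
  rw [coeff_zero]
  cases k with
  | zero =>
    simp only [coeff_add, mul_coeff_zero, coeff_X_zero, zero_mul, add_zero, c1, c2, c3,
      coeff_C_mul]
    simp
  | succ k =>
    simp only [coeff_add, coeff_sub, coeff_X_mul, coeff_C_mul, c1, c2, c3, hD, coeff_Gp]
    have h := tt_F1 n k
    have h2 := central_rec k
    have h' : ((k : L) + 1) ^ 2 * (tt n (k + 1) : L) = ((n : L) - k) * (n + k + 1) * (tt n k : L) := by
      exact_mod_cast h
    have h2' : ((k : L) + 1) * ((2 * (k + 1)).choose (k + 1) : L) =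
        2 * (2 * k + 1) * ((2 * k).choose k : L) := by
      exact_mod_cast h2
    push_cast
    linear_combination ((k : L) + 1) ^ 2 * (tt n (k + 1) : L) * h2' +
      2 * (2 * k + 1) * ((2 * k).choose k : L) * h'

theorem clausen_poly (n : ℕ) : (Yp L n) ^ 2 = (Gp L n).comp (X + X ^ 2) := by
  rw [← sub_eq_zero]
  apply ode_unique (N := (n : L) * (n + 1))
  · rw [coeff_sub, coeff_zero_eq_eval_zero, coeff_zero_eq_eval_zero, eval_pow, eval_comp,
      ← coeff_zero_eq_eval_zero, coeff_Yp]
    simp only [eval_add, eval_X, eval_pow]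
    rw [show (0 : L) + 0 ^ 2 = 0 by ring, ← coeff_zero_eq_eval_zero, coeff_Gp, tt_zero]
    simp
  · have h1 := ode_Y (L := L) n
    have h2 := congrArg derivative h1
    have h3 := congrArg (fun P => P.comp (X + X ^ 2)) (ode_G (L := L) n)
    have dP : derivative (X + X ^ 2 : L[X]) = 1 + 2 * X := by
      rw [derivative_add, derivative_X, pow_two, derivative_mul, derivative_X]
      ring
    have dP3 : derivative (2 : L[X]) = 0 := by rw [← C_two', derivative_C]
    have dP2 : derivative (1 + 2 * X : L[X]) = 2 := by
      rw [derivative_add, derivative_one, derivative_mul, derivative_X, dP3]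
      ring
    simp only [derivative_sub, derivative_add, derivative_mul, derivative_C, dP3, dP2,
      derivative_zero, zero_mul, zero_add, derivative_one, derivative_X, derivative_X_pow] at h2
    simp only [sub_comp, add_comp, mul_comp, pow_comp, X_comp, C_comp, one_comp, ofNat_comp,
      zero_comp] at h3
    have k1 : derivative ((Gp L n).comp (X + X ^ 2)) =
        (1 + 2 * X) * (derivative (Gp L n)).comp (X + X ^ 2) := by
      rw [derivative_comp, dP]
    have k2 : derivative ((derivative (Gp L n)).comp (X + X ^ 2)) =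
        (1 + 2 * X) * (derivative (derivative (Gp L n))).comp (X + X ^ 2) := by
      rw [derivative_comp, dP]
    have k3 : derivative ((derivative (derivative (Gp L n))).comp (X + X ^ 2)) =
        (1 + 2 * X) * (derivative (derivative (derivative (Gp L n)))).comp (X + X ^ 2) := by
      rw [derivative_comp, dP]
    have f1 : derivative (Yp L n ^ 2 - (Gp L n).comp (X + X ^ 2)) =
        2 * Yp L n * derivative (Yp L n) -
          (1 + 2 * X) * (derivative (Gp L n)).comp (X + X ^ 2) := by
      rw [derivative_sub, k1, pow_two, derivative_mul]; ring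
    have f2 : derivative (2 * Yp L n * derivative (Yp L n) -
          (1 + 2 * X) * (derivative (Gp L n)).comp (X + X ^ 2)) =
        2 * derivative (Yp L n) ^ 2 + 2 * Yp L n * derivative (derivative (Yp L n)) -
        (2 * (derivative (Gp L n)).comp (X + X ^ 2) +
          (1 + 2 * X) ^ 2 * (derivative (derivative (Gp L n))).comp (X + X ^ 2)) := by
      rw [derivative_sub, derivative_mul, derivative_mul, derivative_mul, k2, dP2, dP3]; ring
    have f3 : derivative (2 * derivative (Yp L n) ^ 2 +
        2 * Yp L n * derivative (derivative (Yp L n)) -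
        (2 * (derivative (Gp L n)).comp (X + X ^ 2) +
          (1 + 2 * X) ^ 2 * (derivative (derivative (Gp L n))).comp (X + X ^ 2))) =
        6 * derivative (Yp L n) * derivative (derivative (Yp L n)) +
        2 * Yp L n * derivative (derivative (derivative (Yp L n))) -
        (6 * (1 + 2 * X) * (derivative (derivative (Gp L n))).comp (X + X ^ 2) +
          (1 + 2 * X) ^ 3 *
            (derivative (derivative (derivative (Gp L n)))).comp (X + X ^ 2)) := by
      simp only [pow_two, derivative_sub, derivative_add, derivative_mul, k2, k3, dP3,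
        derivative_one, derivative_X]
      simp only [← pow_two]
      rw [k2, k3]
      ring
    rw [f1, f2, f3]
    simp only [Nat.cast_ofNat, C_two'] at h2
    linear_combination (2 * (X + X ^ 2) * Yp L n) * h2 +
      (6 * (X + X ^ 2) * derivative (Yp L n) + 2 * (1 + 2 * X) * Yp L n) * h1 -
      (1 + 2 * X) * h3

theorem legendre_sq {z : L} {G : PowerSeries L}
    (hG : (1 - 2 * PowerSeries.C (1 + 2 * z) * PowerSeries.X + PowerSeries.X ^ 2) * G ^ 2 = 1)
    (hG0 : PowerSeries.constantCoeff G = 1) (n : ℕ) :
    (PowerSeries.coeff n G) ^ 2 =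
      ∑ k ∈ range (n + 1), ((tt n k * ((2 * k).choose k : ℤ) : ℤ) : L) * (z + z ^ 2) ^ k := by
  have h1 := congrArg (Polynomial.eval z) (clausen_poly (L := L) n)
  rw [eval_pow, eval_comp] at h1
  have h2 : (Yp L n).eval z = yy z n (n + 1) := by
    unfold Yp yy
    rw [eval_finset_sum]
    simp
  rw [gen_eq hG hG0, ← h2, h1]
  unfold Gp
  rw [eval_finset_sum]
  simp

end Clausen

end Pool.Agent.Lib.MP_945b72_nt
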