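import Pool.Agent.Lib.MP_945b72_nt.P3

/-!
Assembly.
-/

namespace Pool.Agent.Lib.MP_945b72_nt

open Finset

theorem cong_sum {p : ℕ} (hp : p.Prime) {m n : ℕ} (hm : 1 ≤ m) (hn : 1 ≤ n)
    (h : m ^ 2 + 7 * n ^ 2 = p) :
    (p : ℤ) ^ 2 ∣ (∑ k ∈ range p, (-1) ^ k * aSeq k) - 4 * (m : ℤ) ^ 2 + 2 * p := by
  haveI : Fact p.Prime := ⟨hp⟩
  have h8 : 8 ≤ p := by nlinarith
  obtain ⟨N, hN⟩ : Odd p := hp.odd_of_ne_two (by omega)
  obtain ⟨s, hs, hdiv⟩ := hensel (p := p) hm hn h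
  have hu2 : IsUnit (2 : ℤ_[p]) := by
    have := isUnit_nat (p := p) (n := 2) (by omega) (by omega)
    exact_mod_cast this
  obtain ⟨t, ht⟩ := isUnit_iff_exists_inv.mp hu2
  have hz0 : 1 + 2 * ((3 * s - 1) * t) = 3 * s := by linear_combination (3 * s - 1) * ht
  have hmain := main_cong hm hn h hN hs hdiv hz0
  set z0 : ℤ_[p] := (3 * s - 1) * t with hz0def
  have hsQ : (s : ℚ_[p]) ^ 2 = -7 := by
    have := congrArg (fun y : ℤ_[p] => (y : ℚ_[p])) hs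
    push_cast at this
    exact this
  have hz0Q : 1 + 2 * (z0 : ℚ_[p]) = 3 * (s : ℚ_[p]) := by
    have := congrArg (fun y : ℤ_[p] => (y : ℚ_[p])) hz0
    push_cast at this
    exact this
  have hv : (z0 : ℚ_[p]) + (z0 : ℚ_[p]) ^ 2 = -16 := by
    have h4 : (4 : ℚ_[p]) * ((z0 : ℚ_[p]) + (z0 : ℚ_[p]) ^ 2) = 4 * (-16) := by
      linear_combination (1 + 2 * (z0 : ℚ_[p]) + 3 * (s : ℚ_[p])) * hz0Q + 9 * hsQ
    exact mul_left_cancel₀ (by norm_num) h4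
  have hS := yy_sq (z0 : ℚ_[p]) N
  rw [hv] at hS
  set S : ℤ := ∑ j ∈ range (N + 1), (-16) ^ j * ((N + j).choose (2 * j) : ℤ) *
    ((2 * j).choose j : ℤ) ^ 2 with hSdef
  have hS2 : (yy (z0 : ℚ_[p]) N (N + 1)) ^ 2 = (S : ℚ_[p]) := by
    rw [hS, hSdef]
    push_cast
    apply sum_congr rfl
    intro k _
    unfold tt
    push_cast
    ring
  rw [hS2] at hmain
  have hnorm : ((m : ℚ_[p]) + n * s) * ((m : ℚ_[p]) - n * s) = p := by
    have hc : (m : ℚ_[p]) ^ 2 + 7 * (n : ℚ_[p]) ^ 2 = (p : ℚ_[p]) := by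
      exact_mod_cast congrArg (Nat.cast (R := ℚ_[p])) h
    linear_combination hc + (-(n : ℚ_[p]) ^ 2) * hsQ
  have hpi : ‖((m : ℚ_[p]) + n * s) ^ 2‖ ≤ ‖(p : ℚ_[p])‖ ^ 2 := by
    obtain ⟨c, hc⟩ := hdiv
    have hc' : (m : ℚ_[p]) + n * s = (p : ℚ_[p]) * (c : ℚ_[p]) := by
      have := congrArg (fun y : ℤ_[p] => (y : ℚ_[p])) hc
      push_cast at this
      exact this
    rw [hc', norm_pow, norm_mul]
    apply pow_le_pow_left₀ (by positivity)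
    exact mul_le_of_le_one_right (norm_nonneg _) c.2
  have hfin : ‖((S - (4 * (m : ℤ) ^ 2 - 2 * p) : ℤ) : ℚ_[p])‖ ≤ ‖(p : ℚ_[p])‖ ^ 2 := by
    have e : ((S - (4 * (m : ℤ) ^ 2 - 2 * p) : ℤ) : ℚ_[p]) =
        ((S : ℚ_[p]) - ((m : ℚ_[p]) - n * s) ^ 2) + (-(((m : ℚ_[p]) + n * s) ^ 2)) := by
      push_cast
      linear_combination (-2) * hnorm
    rw [e]
    refine le_trans (IsUltrametricDist.norm_add_le_max _ _) (max_le hmain ?_)
    rw [norm_neg]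
    exact hpi
  have hdvd : (p : ℤ) ^ 2 ∣ S - (4 * (m : ℤ) ^ 2 - 2 * p) := by
    have hq : ‖(p : ℚ_[p])‖ ^ 2 = (p : ℝ) ^ (-(2 : ℕ) : ℤ) := by
      rw [Padic.norm_p, zpow_neg, zpow_natCast, inv_pow]
    rw [hq, Padic.norm_int_le_pow_iff_dvd] at hfin
    exact_mod_cast hfin
  have hbin : (p : ℤ) ^ 2 ∣ (∑ k ∈ range p, (-1) ^ k * aSeq k) - S := by
    have hp' : (2 * N + 1).Prime := hN ▸ hp
    have := bin_part hp'
    rw [← hN] at this
    exact this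
  have e : (∑ k ∈ range p, (-1) ^ k * aSeq k) - 4 * (m : ℤ) ^ 2 + 2 * p =
      ((∑ k ∈ range p, (-1) ^ k * aSeq k) - S) + (S - (4 * (m : ℤ) ^ 2 - 2 * p)) := by ring
  rw [e]
  exact hbin.add hdvd

theorem conjecture (p : ℕ) (hp : p.Prime) (h7 : p % 7 = 1 ∨ p % 7 = 2 ∨ p % 7 = 4) (x y : ℤ)
    (hxy : x ^ 2 + 7 * y ^ 2 = p) :
    (p : ℤ) ^ 2 ∣ (∑ m ∈ range p, (-1) ^ m * aSeq m) - 4 * x ^ 2 + 2 * p := by
  have hx : 1 ≤ x.natAbs := by
    rcases Nat.eq_zero_or_pos x.natAbs with h | h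
    · exfalso
      rw [Int.natAbs_eq_zero] at h
      rw [h] at hxy
      have : (7 : ℤ) ∣ p := ⟨y ^ 2, by rw [← hxy]; ring⟩
      have h' : 7 ∣ p := by exact_mod_cast this
      omega
    · exact h
  have hy : 1 ≤ y.natAbs := by
    rcases Nat.eq_zero_or_pos y.natAbs with h | h
    · exfalso
      rw [Int.natAbs_eq_zero] at h
      rw [h] at hxy
      have h1 : x.natAbs ^ 2 = p := by
        have : ((x.natAbs ^ 2 : ℕ) : ℤ) = p := by
          push_cast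
          rw [sq_abs, ← hxy]; ring
        exact_mod_cast this
      exact (Irreducible.not_isSquare hp) ⟨x.natAbs, by rw [← h1]; ring⟩
    · exact h
  have hnat : x.natAbs ^ 2 + 7 * y.natAbs ^ 2 = p := by
    have : ((x.natAbs ^ 2 + 7 * y.natAbs ^ 2 : ℕ) : ℤ) = p := by
      push_cast
      rw [sq_abs, sq_abs, ← hxy]
    exact_mod_cast this
  have := cong_sum hp hx hy hnat
  rwa [Int.natCast_natAbs, sq_abs] at this

end Pool.Agent.Lib.MP_945b72_nt
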