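import Pool.Agent.Lib.MP_945b72_nt.IntMul

/-!
Homogenisation of polynomials, rational power series.
-/

namespace Pool.Agent.Lib.MP_945b72_nt

open Polynomial

variable {R : Type*} [CommRing R]

/-- the homogenisation of degree `N` evaluated at `(A, B)` -/
noncomputable def hm (N : ℕ) (P A B : R[X]) : R[X] :=
  ∑ i ∈ Finset.range (N + 1), C (P.coeff i) * A ^ i * B ^ (N - i)

theorem ev_eq_sum (u : PowerSeries R) {P : R[X]} {N : ℕ} (h : P.natDegree ≤ N) :
    ev u P = ∑ i ∈ Finset.range (N + 1), PowerSeries.C (P.coeff i) * u ^ i := by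
  have : ev u P = P.eval₂ PowerSeries.C u := rfl
  rw [this, Polynomial.eval₂_eq_sum_range' _ (Nat.lt_succ_of_le h)]

@[simp] theorem coe_C' (r : R) : ((C r : R[X]) : PowerSeries R) = PowerSeries.C r := by
  simp

theorem ev_PSX (P : R[X]) : ev PowerSeries.X P = (P : PowerSeries R) := by
  have : ev PowerSeries.X P = P.eval₂ PowerSeries.C PowerSeries.X := rfl
  rw [this, Polynomial.eval₂_C_X_eq_coe]

/-- the coercion to power series as a ring homomorphism -/
noncomputable def cp : R[X] →+* PowerSeries R := Polynomial.coeToPowerSeries.ringHom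

theorem cp_apply (P : R[X]) : cp P = (P : PowerSeries R) := rfl

theorem cp_eq_ev (P : R[X]) : cp P = ev PowerSeries.X P := (ev_PSX P).symm

@[simp] theorem cp_C (r : R) : cp (C r : R[X]) = PowerSeries.C r := by
  rw [cp_eq_ev]; simp

@[simp] theorem cp_X : cp (X : R[X]) = PowerSeries.X := by
  rw [cp_eq_ev]; simp

theorem cp_inj : Function.Injective (cp : R[X] →+* PowerSeries R) :=
  fun _ _ h => Polynomial.coe_inj.mp h

theorem coeff_cp (P : R[X]) (n : ℕ) : PowerSeries.coeff n (cp P) = P.coeff n := by
  rw [cp_apply, Polynomial.coeff_coe]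

theorem constantCoeff_cp (P : R[X]) : PowerSeries.constantCoeff (cp P) = P.coeff 0 := by
  rw [← PowerSeries.coeff_zero_eq_constantCoeff_apply, coeff_cp]

theorem derivative_cp (P : R[X]) :
    PowerSeries.derivative R (cp P) = cp (derivative P) := PowerSeries.derivative_coe P

theorem cp_hm {N : ℕ} {P A B : R[X]} (h : P.natDegree ≤ N) {u : PowerSeries R}
    (hu : cp B * u = cp A) : cp (hm N P A B) = cp B ^ N * ev u P := by
  rw [ev_eq_sum u h, hm, map_sum, Finset.mul_sum]
  apply Finset.sum_congr rfl
  intro i hi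
  rw [Finset.mem_range] at hi
  rw [map_mul, map_mul, map_pow, map_pow, cp_C, ← hu]
  have : cp B ^ N = cp B ^ i * cp B ^ (N - i) := by
    rw [← pow_add]; congr 1; omega
  rw [this]; ring

theorem hm_natDegree_le {N M : ℕ} {P A B : R[X]} (hA : A.natDegree ≤ M) (hB : B.natDegree ≤ M) :
    (hm N P A B).natDegree ≤ M * N := by
  apply natDegree_sum_le_of_forall_le
  intro i hi
  rw [Finset.mem_range] at hi
  have h1 : (A ^ i).natDegree ≤ i * M := le_trans natDegree_pow_le (Nat.mul_le_mul_left _ hA)
  have h2 : (B ^ (N - i)).natDegree ≤ (N - i) * M :=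
    le_trans natDegree_pow_le (Nat.mul_le_mul_left _ hB)
  have h3 : (C (P.coeff i) * A ^ i).natDegree ≤ i * M := le_trans (natDegree_C_mul_le _ _) h1
  refine le_trans natDegree_mul_le ?_
  have h4 : i * M + (N - i) * M = M * N := by
    rw [← add_mul, mul_comm]; congr 1; omega
  omega

theorem reflect_hm {N M : ℕ} {P A B : R[X]} (hP : P.natDegree ≤ N) (hA : A.natDegree ≤ M)
    (hB : B.natDegree ≤ M) (h : reflect M A = B) :
    reflect (M * N) (hm N P A B) = hm N (reflect N P) A B := by
  have hB' : reflect M B = A := by rw [← h, reflect_reflect]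
  have h1 : reflect (M * N) (hm N P A B) =
      ∑ i ∈ Finset.range (N + 1), C (P.coeff i) * B ^ i * A ^ (N - i) := by
    unfold hm
    have : ∀ s : Finset ℕ, ∀ f : ℕ → R[X], reflect (M * N) (∑ i ∈ s, f i) =
        ∑ i ∈ s, reflect (M * N) (f i) := by
      intro s f
      classical
      induction s using Finset.induction_on with
      | empty => simp
      | insert a s ha ih => rw [Finset.sum_insert ha, Finset.sum_insert ha, reflect_add, ih]
    rw [this]
    apply Finset.sum_congr rfl
    intro i hi
    rw [Finset.mem_range] at hi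
    have h1 : (A ^ i).natDegree ≤ i * M := le_trans natDegree_pow_le (Nat.mul_le_mul_left _ hA)
    have h2 : (B ^ (N - i)).natDegree ≤ (N - i) * M :=
      le_trans natDegree_pow_le (Nat.mul_le_mul_left _ hB)
    have h4 : M * N = i * M + (N - i) * M := by
      rw [← add_mul, mul_comm]; congr 1; omega
    rw [mul_assoc, reflect_C_mul, h4, reflect_mul _ _ h1 h2, reflect_pow _ hA, reflect_pow _ hB, h,
      hB', mul_assoc]
  rw [h1, hm, ← Finset.sum_range_reflect]
  apply Finset.sum_congr rfl
  intro i hi
  rw [Finset.mem_range] at hi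
  have e1 : N + 1 - 1 - i = N - i := by omega
  have e2 : N - (N - i) = i := by omega
  rw [e1, e2, coeff_reflect, revAt_le (by omega)]
  ring

theorem hm_dvd_left {N : ℕ} (P A B : R[X]) : A ∣ hm N P A B - C (P.coeff 0) * B ^ N := by
  unfold hm
  rw [Finset.sum_range_succ']
  simp only [pow_zero, mul_one, Nat.sub_zero, add_sub_cancel_right]
  apply Finset.dvd_sum
  intro i _
  exact Dvd.dvd.mul_right (Dvd.dvd.mul_left (dvd_pow_self A (Nat.succ_ne_zero i)) _) _

theorem hm_dvd_right {N : ℕ} (P A B : R[X]) : B ∣ hm N P A B - C (P.coeff N) * A ^ N := by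
  unfold hm
  rw [Finset.sum_range_succ]
  simp only [Nat.sub_self, pow_zero, mul_one, add_sub_cancel_right]
  apply Finset.dvd_sum
  intro i hi
  rw [Finset.mem_range] at hi
  exact Dvd.dvd.mul_left (dvd_pow_self B (by omega)) _

/-- rational power series -/
def IsRat (f : PowerSeries R) : Prop := ∃ A B : R[X], B.coeff 0 = 1 ∧ cp B * f = cp A

protected theorem IsRat.C (r : R) : IsRat (PowerSeries.C r) :=
  ⟨Polynomial.C r, 1, by simp, by simp⟩

protected theorem IsRat.cp (P : R[X]) : IsRat (cp P) := ⟨P, 1, by simp, by simp⟩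

protected theorem IsRat.X : IsRat (PowerSeries.X : PowerSeries R) := ⟨Polynomial.X, 1, by simp, by simp⟩

protected theorem IsRat.add {f g : PowerSeries R} (hf : IsRat f) (hg : IsRat g) : IsRat (f + g) := by
  obtain ⟨A, B, hB, h⟩ := hf
  obtain ⟨A', B', hB', h'⟩ := hg
  refine ⟨A * B' + A' * B, B * B', ?_, ?_⟩
  · rw [mul_coeff_zero, hB, hB', mul_one]
  · simp only [map_mul, map_add]
    rw [← h, ← h']; ring

protected theorem IsRat.mul {f g : PowerSeries R} (hf : IsRat f) (hg : IsRat g) : IsRat (f * g) := by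
  obtain ⟨A, B, hB, h⟩ := hf
  obtain ⟨A', B', hB', h'⟩ := hg
  refine ⟨A * A', B * B', ?_, ?_⟩
  · rw [mul_coeff_zero, hB, hB', mul_one]
  · simp only [map_mul]
    rw [← h, ← h']; ring

protected theorem IsRat.one : IsRat (1 : PowerSeries R) := ⟨1, 1, by simp, by simp⟩

protected theorem IsRat.pow {f : PowerSeries R} (hf : IsRat f) (n : ℕ) : IsRat (f ^ n) := by
  induction n with
  | zero => simpa using IsRat.one
  | succ n ih => rw [pow_succ]; exact ih.mul hf

protected theorem IsRat.neg {f : PowerSeries R} (hf : IsRat f) : IsRat (-f) := by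
  have := (IsRat.C (-1 : R)).mul hf
  simpa using this

protected theorem IsRat.sub {f g : PowerSeries R} (hf : IsRat f) (hg : IsRat g) : IsRat (f - g) := by
  rw [sub_eq_add_neg]; exact hf.add hg.neg

protected theorem IsRat.ofNat (n : ℕ) : IsRat (n : PowerSeries R) := by
  have := IsRat.C (n : R)
  simpa using this

protected theorem IsRat.two : IsRat (2 : PowerSeries R) := by
  have := IsRat.ofNat (R := R) 2
  simpa using this

protected theorem IsRat.inv {D I : PowerSeries R} (hD : IsRat D) (h0 : PowerSeries.constantCoeff D = 1)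
    (hI : D * I = 1) : IsRat I := by
  obtain ⟨A, B, hB, h⟩ := hD
  refine ⟨B, A, ?_, ?_⟩
  · have := congrArg PowerSeries.constantCoeff h
    rw [map_mul, constantCoeff_cp, constantCoeff_cp, hB, h0, mul_one] at this
    exact this.symm
  · rw [← h, mul_assoc, hI, mul_one]

protected theorem IsRat.deriv {f : PowerSeries R} (hf : IsRat f) : IsRat (PowerSeries.derivative R f) := by
  obtain ⟨A, B, hB, h⟩ := hf
  refine ⟨B * derivative A - derivative B * A, B ^ 2, ?_, ?_⟩
  · rw [coeff_zero_eq_eval_zero] at *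
    simp [hB]
  · have e := congrArg (PowerSeries.derivative R) h
    rw [Derivation.leibniz, derivative_cp, derivative_cp, smul_eq_mul, smul_eq_mul] at e
    simp only [map_mul, map_sub, map_pow]
    rw [← e, ← h]; ring

protected theorem IsRat.qq {x : R} {u : PowerSeries R} (hu : IsRat u) : IsRat (qq (PowerSeries.C x) u) := by
  unfold Pool.Agent.Lib.MP_945b72_nt.qq
  exact (IsRat.one.sub ((IsRat.two.mul (IsRat.C x)).mul hu)).add (hu.pow 2)

end Pool.Agent.Lib.MP_945b72_nt
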