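import Pool.Agent.Lib.MP_945b72_nt.Base

/-!
Reduced forms of rational series, conjugation, reciprocity of the differential equation.
-/

namespace Pool.Agent.Lib.MP_945b72_nt

open Polynomial

section Field

variable {K : Type*} [Field K]

theorem IsRat.reduced {f : PowerSeries K} (hf : IsRat f) :
    ∃ A B : K[X], IsCoprime A B ∧ B.coeff 0 = 1 ∧ cp B * f = cp A := by
  obtain ⟨A, B, hB, h⟩ := hf
  have hB0 : B ≠ 0 := by rintro rfl; simp at hB
  classical
  set g := EuclideanDomain.gcd A B with hg
  have hgne : g ≠ 0 := by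
    intro h0
    rw [hg, EuclideanDomain.gcd_eq_zero_iff] at h0
    exact hB0 h0.2
  obtain ⟨A', hA'⟩ := EuclideanDomain.gcd_dvd_left A B
  obtain ⟨B', hB'⟩ := EuclideanDomain.gcd_dvd_right A B
  have hcop : IsCoprime A' B' := by
    have := EuclideanDomain.gcd_eq_gcd_ab A B
    refine ⟨EuclideanDomain.gcdA A B, EuclideanDomain.gcdB A B, ?_⟩
    apply mul_left_cancel₀ hgne
    rw [← hg] at hA' hB' this
    calc g * (EuclideanDomain.gcdA A B * A' + EuclideanDomain.gcdB A B * B') =
        (g * A') * EuclideanDomain.gcdA A B + (g * B') * EuclideanDomain.gcdB A B := by ring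
      _ = g := by rw [← hA', ← hB', ← this]
      _ = g * 1 := by ring
  rw [← hg] at hA' hB'
  have hprod : g.coeff 0 * B'.coeff 0 = 1 := by rw [← mul_coeff_zero, ← hB', hB]
  have hb0 : B'.coeff 0 ≠ 0 := right_ne_zero_of_mul_eq_one hprod
  have hred : cp B' * f = cp A' := by
    have hcg : cp g ≠ 0 := by
      intro h0; exact hgne (cp_inj (by rw [h0, map_zero]))
    apply mul_left_cancel₀ hcg
    rw [← mul_assoc, ← map_mul, ← map_mul, ← hA', ← hB', h]
  refine ⟨C (B'.coeff 0)⁻¹ * A', C (B'.coeff 0)⁻¹ * B', ?_, ?_, ?_⟩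
  · have hu : IsUnit (C (B'.coeff 0)⁻¹ : K[X]) := by
      rw [isUnit_C]; exact (IsUnit.mk0 _ (inv_ne_zero hb0))
    exact (isCoprime_mul_unit_left hu A' B').mpr hcop
  · rw [coeff_C_mul, inv_mul_cancel₀ hb0]
  · rw [map_mul, map_mul, mul_assoc, hred]

theorem reduced_unique {f : PowerSeries K} {A B A' B' : K[X]} (h : IsCoprime A B)
    (hB : B.coeff 0 = 1) (hf : cp B * f = cp A) (hdeg : A'.natDegree ≤ A.natDegree)
    (hA' : A' ≠ 0)
    (hB' : B'.coeff 0 = 1) (hf' : cp B' * f = cp A') : A' = A ∧ B' = B := by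
  have e : A' * B = A * B' := by
    apply cp_inj
    rw [map_mul, map_mul, ← hf, ← hf']; ring
  have hd : A ∣ A' := by
    apply h.dvd_of_dvd_mul_right
    rw [e]; exact dvd_mul_right _ _
  obtain ⟨c, hc⟩ := hd
  have hA0 : A ≠ 0 := by rintro rfl; rw [zero_mul] at hc; exact hA' hc
  have hc0 : c ≠ 0 := by rintro rfl; rw [mul_zero] at hc; exact hA' hc
  have hcd : c.natDegree = 0 := by
    rw [hc, natDegree_mul hA0 hc0] at hdeg; omega
  have e2 : B' = c * B := by
    apply mul_left_cancel₀ hA0
    rw [← e, hc]; ring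
  have hc1 : c = 1 := by
    rw [eq_C_of_natDegree_eq_zero hcd] at e2 ⊢
    rw [e2, coeff_C_mul, hB, mul_one] at hB'
    rw [hB', C_1]
  rw [hc1] at hc e2
  exact ⟨by rw [hc, mul_one], by rw [e2, one_mul]⟩

theorem IsRat.inv' {f : PowerSeries K} (hf : IsRat f) (h0 : PowerSeries.constantCoeff f ≠ 0) :
    ∃ g, IsRat g ∧ f * g = 1 := by
  set c := PowerSeries.constantCoeff f with hc
  have h1 : PowerSeries.constantCoeff (PowerSeries.C c⁻¹ * f) = 1 := by
    rw [map_mul, PowerSeries.constantCoeff_C, ← hc, inv_mul_cancel₀ h0]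
  obtain ⟨I, hI⟩ := unit_of_zero h1
  have hI' : IsRat I := ((IsRat.C c⁻¹).mul hf).inv h1 hI
  refine ⟨PowerSeries.C c⁻¹ * I, (IsRat.C _).mul hI', ?_⟩
  rw [← hI]; ring

/-- conjugation on power series -/
noncomputable def cj (σ : K →+* K) : PowerSeries K →+* PowerSeries K :=
  (PowerSeries.rescale (-1 : K)).comp (PowerSeries.map σ)

theorem coeff_cj (σ : K →+* K) (n : ℕ) (f : PowerSeries K) :
    PowerSeries.coeff n (cj σ f) = (-1) ^ n * σ (PowerSeries.coeff n f) := by
  rw [cj, RingHom.comp_apply, PowerSeries.coeff_rescale, PowerSeries.coeff_map]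

theorem cj_C (σ : K →+* K) (r : K) : cj σ (PowerSeries.C r) = PowerSeries.C (σ r) := by
  ext n
  rw [coeff_cj, PowerSeries.coeff_C, PowerSeries.coeff_C]
  split_ifs with h
  · rw [h]; simp
  · simp

theorem cj_X (σ : K →+* K) : cj σ PowerSeries.X = - PowerSeries.X := by
  ext n
  rw [coeff_cj, map_neg, PowerSeries.coeff_X]
  split_ifs with h
  · rw [h]; simp
  · simp

theorem cj_deriv (σ : K →+* K) (f : PowerSeries K) :
    cj σ (PowerSeries.derivative K f) = - PowerSeries.derivative K (cj σ f) := by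
  ext n
  rw [coeff_cj, map_neg, PowerSeries.coeff_derivative, PowerSeries.coeff_derivative, coeff_cj]
  simp only [map_mul, map_add, map_natCast, map_one]
  ring

/-- conjugation on polynomials -/
noncomputable def cjP (σ : K →+* K) : K[X] →+* K[X] :=
  (Polynomial.compRingHom (-X)).comp (Polynomial.mapRingHom σ)

theorem cp_cjP (σ : K →+* K) (P : K[X]) : cp (cjP σ P) = cj σ (cp P) := by
  have : (cp : K[X] →+* PowerSeries K).comp (cjP σ) = (cj σ).comp cp := by
    apply Polynomial.ringHom_ext
    · intro r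
      simp only [RingHom.comp_apply, cjP, coe_mapRingHom, map_C, coe_compRingHom_apply, C_comp,
        cp_C, cj_C]
    · simp only [RingHom.comp_apply, cjP, coe_mapRingHom, map_X, coe_compRingHom_apply, X_comp,
        cp_X, cj_X, map_neg]
  exact congrArg (fun f => f P) this

theorem coeff_cjP (σ : K →+* K) (P : K[X]) (n : ℕ) :
    (cjP σ P).coeff n = (-1) ^ n * σ (P.coeff n) := by
  rw [← coeff_cp, cp_cjP, coeff_cj, coeff_cp]

theorem natDegree_cjP (σ : K →+* K) (P : K[X]) : (cjP σ P).natDegree = P.natDegree := by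
  rw [cjP, RingHom.comp_apply, coe_mapRingHom, coe_compRingHom_apply, natDegree_comp,
    natDegree_neg, natDegree_X, mul_one, natDegree_map]

theorem Sol.conj {σ : K →+* K} {s a : K} (hs : σ s = -s) {u : PowerSeries K}
    (h : Sol (3 * s) a u) : Sol (3 * s) (σ a) (-(cj σ u)) := by
  refine ⟨?_, ?_, ?_⟩
  · rw [← PowerSeries.coeff_zero_eq_constantCoeff_apply, map_neg, coeff_cj,
      PowerSeries.coeff_zero_eq_constantCoeff_apply, h.u0]
    simp
  · rw [map_neg, coeff_cj, h.u1, map_pow]; ring
  · have e := congrArg (cj σ) h.eu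
    have h3 : σ (3 * s) = - (3 * s) := by rw [map_mul, hs, map_ofNat]; ring
    simp only [qq, map_mul, map_pow, map_add, map_sub, map_one, map_ofNat, cj_C, cj_X, cj_deriv,
      hs] at e
    simp only [qq, map_neg, map_pow, map_mul, map_ofNat]
    simp only [map_neg] at e
    linear_combination -e

end Field

section Refl

variable {R : Type*} [CommRing R]

theorem coeff_X_mul_deriv (P : R[X]) (i : ℕ) : (X * derivative P).coeff i = i * P.coeff i := by
  cases i with
  | zero => simp
  | succ i => rw [coeff_X_mul, coeff_derivative]; push_cast; ring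

theorem reflect_deriv {k : ℕ} {P : R[X]} (h : P.natDegree ≤ k) :
    X * derivative (reflect k P) = C (k : R) * reflect k P - reflect k (X * derivative P) := by
  ext i
  rw [coeff_X_mul_deriv, coeff_sub, coeff_C_mul, coeff_reflect, coeff_reflect, coeff_X_mul_deriv]
  by_cases hi : i ≤ k
  · rw [revAt_le hi, Nat.cast_sub hi]; ring
  · rw [revAt_eq_self_of_lt (by omega), coeff_eq_zero_of_natDegree_lt (by omega)]; ring

theorem natDegree_X_mul_deriv {k : ℕ} {P : R[X]} (h : P.natDegree ≤ k) :
    (X * derivative P).natDegree ≤ k := by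
  rw [natDegree_le_iff_coeff_eq_zero]
  intro N hN
  rw [coeff_X_mul_deriv, coeff_eq_zero_of_natDegree_lt (by omega), mul_zero]

theorem PODE.reflect [IsDomain R] {x a : R} {U V : R[X]} {k : ℕ} (hU : U.natDegree ≤ k)
    (hV : V.natDegree ≤ k) (h : PODE x a U V) :
    PODE x a (Polynomial.reflect k V) (Polynomial.reflect k U) := by
  have dU := natDegree_X_mul_deriv hU
  have dV := natDegree_X_mul_deriv hV
  set D := (X * derivative U) * V - U * (X * derivative V) with hD
  have d1 : ((X * derivative U) * V).natDegree ≤ k + k := le_trans natDegree_mul_le (by omega)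
  have d2 : (U * (X * derivative V)).natDegree ≤ k + k := le_trans natDegree_mul_le (by omega)
  have dD : D.natDegree ≤ k + k := le_trans (natDegree_sub_le _ _) (max_le d1 d2)
  have rD : Polynomial.reflect (k + k) D = X * (derivative (Polynomial.reflect k V) *
      Polynomial.reflect k U - Polynomial.reflect k V * derivative (Polynomial.reflect k U)) := by
    rw [hD, reflect_sub, reflect_mul _ _ dU hV, reflect_mul _ _ hU dV]
    have e1 := reflect_deriv hU
    have e2 := reflect_deriv hV
    linear_combination Polynomial.reflect k V * e1 - Polynomial.reflect k U * e2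
  have dq : (qq (C x) X : R[X]).natDegree ≤ 2 := by
    unfold qq
    have a1 : (1 : R[X]).natDegree ≤ 2 := by simp
    have a2 : (2 * C x * X : R[X]).natDegree ≤ 2 := by
      have : (2 * C x * X : R[X]) = C (2 * x) * X := by rw [C_mul, C_two']
      rw [this]
      exact le_trans (natDegree_C_mul_le _ _) (le_trans natDegree_X_le (by omega))
    have a3 : (X ^ 2 : R[X]).natDegree ≤ 2 := natDegree_X_pow_le 2
    exact le_trans (natDegree_add_le _ _) (max_le (le_trans (natDegree_sub_le _ _)
      (max_le a1 a2)) a3)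
  have rq : Polynomial.reflect 2 (qq (C x) X : R[X]) = qq (C x) X := by
    unfold qq
    have e1 : (2 * C x * X : R[X]) = C (2 * x) * X ^ 1 := by rw [C_mul, C_two', pow_one]
    have e0 : (1 : R[X]) = C 1 * X ^ 0 := by simp
    have e2 : (X ^ 2 : R[X]) = C 1 * X ^ 2 := by simp
    rw [e1, e0, e2, reflect_add, reflect_sub, reflect_C_mul_X_pow, reflect_C_mul_X_pow,
      reflect_C_mul_X_pow]
    simp only [revAt_le (show 0 ≤ 2 by omega), revAt_le (show 1 ≤ 2 by omega),
      revAt_le (show 2 ≤ 2 by omega)]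
    ring
  have rX : Polynomial.reflect 2 (X : R[X]) = X := by
    have : (X : R[X]) = C 1 * X ^ 1 := by simp
    rw [this, reflect_C_mul_X_pow, revAt_le (show 1 ≤ 2 by omega)]
  have dX2 : (X : R[X]).natDegree ≤ 2 := le_trans natDegree_X_le (by omega)
  have dUV : (U * V).natDegree ≤ k + k := le_trans natDegree_mul_le (by omega)
  have dV2 : (V ^ 2).natDegree ≤ k + k := le_trans natDegree_pow_le (by omega)
  have dU2 : (U ^ 2).natDegree ≤ k + k := le_trans natDegree_pow_le (by omega)
  have e3 : (2 * C x * U * V) = C (2 * x) * (U * V) := by rw [C_mul, C_two']; ring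
  have dUV2 : (2 * C x * U * V).natDegree ≤ k + k := by
    rw [e3]; exact le_trans (natDegree_C_mul_le _ _) dUV
  have dM : (V ^ 2 - 2 * C x * U * V + U ^ 2).natDegree ≤ k + k :=
    le_trans (natDegree_add_le _ _) (max_le (le_trans (natDegree_sub_le _ _)
      (max_le dV2 dUV2)) dU2)
  have rM : Polynomial.reflect (k + k) (V ^ 2 - 2 * C x * U * V + U ^ 2) =
      Polynomial.reflect k V ^ 2 - 2 * C x * Polynomial.reflect k V * Polynomial.reflect k U +
        Polynomial.reflect k U ^ 2 := by
    rw [reflect_add, reflect_sub, e3, reflect_C_mul, reflect_mul _ _ hU hV, ← two_mul,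
      reflect_pow _ hV, reflect_pow _ hU, C_mul, C_two']
    ring
  have dM2 : (U * V * (V ^ 2 - 2 * C x * U * V + U ^ 2)).natDegree ≤ (k + k) + (k + k) :=
    le_trans natDegree_mul_le (by omega)
  have eq1 : qq (C x) X * D ^ 2 =
      C (a ^ 2) * (X * (U * V * (V ^ 2 - 2 * C x * U * V + U ^ 2))) := by
    have h' := h
    unfold PODE at h'
    rw [hD]
    linear_combination X * h'
  have dD2 : (D ^ 2).natDegree ≤ 2 * (k + k) :=
    le_trans natDegree_pow_le (by omega)
  have eq2 := congrArg (Polynomial.reflect (2 + 2 * (k + k))) eq1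
  have dM3 : (U * V * (V ^ 2 - 2 * C x * U * V + U ^ 2)).natDegree ≤ 2 * (k + k) := by omega
  rw [reflect_mul _ _ dq dD2, rq, reflect_pow _ dD, rD, reflect_C_mul,
    reflect_mul _ _ dX2 dM3, rX, two_mul (k + k),
    reflect_mul _ _ dUV dM, reflect_mul _ _ hU hV, rM] at eq2
  unfold PODE
  apply mul_left_cancel₀ (X_ne_zero (R := R))
  linear_combination eq2

end Refl

end Pool.Agent.Lib.MP_945b72_nt
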