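import Pool.Agent.Lib.MP_945b72_nt.K1

/-!
Rational points: parity types of multiples, and coprimality.
-/

namespace Pool.Agent.Lib.MP_945b72_nt

open Polynomial

section Field

variable {K : Type*} [Field K]

/-- `u = w f^2` with `f` rational -/
def TyO (u : PowerSeries K) : Prop := ∃ f, IsRat f ∧ u = PowerSeries.X * f ^ 2

/-- `u = w q(w) f^2` with `f` rational -/
def TyE (x : K) (u : PowerSeries K) : Prop :=
  ∃ f, IsRat f ∧ u = PowerSeries.X * qq (PowerSeries.C x) PowerSeries.X * f ^ 2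

theorem IsRat.z_of_pt {x a : K} (ha : a ≠ 0) {u z : PowerSeries K} (h : Pt x a u z)
    (hu : IsRat u) : IsRat z := by
  have : z = PowerSeries.C a⁻¹ * PowerSeries.derivative K u := by
    rw [h.du, ← mul_assoc, ← map_mul, inv_mul_cancel₀ ha, map_one, one_mul]
  rw [this]
  exact (IsRat.C _).mul hu.deriv

theorem qX_ne_zero (x : K) : qq (PowerSeries.C x) (PowerSeries.X : PowerSeries K) ≠ 0 := by
  intro h
  have := congrArg PowerSeries.constantCoeff h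
  simp [qq] at this

theorem TyO.data {x a : K} (ha : a ≠ 0) {u z : PowerSeries K} (h : Pt x a u z)
    (hu : IsRat u) (ho : TyO u) : ∃ f g, IsRat f ∧ IsRat g ∧ u = PowerSeries.X * f ^ 2 ∧
      z = f * g ∧ qq (PowerSeries.C x) u = qq (PowerSeries.C x) PowerSeries.X * g ^ 2 := by
  obtain ⟨f, hf, hfu⟩ := ho
  have hf0 : PowerSeries.constantCoeff f ≠ 0 := by
    intro h0
    have h1 := h.sol.u1
    rw [hfu, show (1 : ℕ) = 0 + 1 from rfl, PowerSeries.coeff_succ_X_mul,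
      PowerSeries.coeff_zero_eq_constantCoeff_apply, map_pow, h0] at h1
    exact ha ((pow_eq_zero_iff two_ne_zero).mp (by rw [← h1]; ring))
  obtain ⟨k, hk, hfk⟩ := hf.inv' hf0
  have hz : IsRat z := IsRat.z_of_pt ha h hu
  refine ⟨f, k * z, hf, hk.mul hz, hfu, by rw [← mul_assoc, hfk, one_mul], ?_⟩
  have hfne : f ≠ 0 := by rintro rfl; simp at hf0
  have hXf : PowerSeries.X * f ^ 2 ≠ 0 := mul_ne_zero PowerSeries.X_ne_zero (pow_ne_zero 2 hfne)
  apply mul_left_cancel₀ hXf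
  have e := h.ez
  rw [hfu] at e ⊢
  rw [← e]
  linear_combination (-(PowerSeries.X * z ^ 2 * qq (PowerSeries.C x) PowerSeries.X *
    (f * k + 1))) * hfk

theorem TyE.data {x a : K} (ha : a ≠ 0) {u z : PowerSeries K} (h : Pt x a u z)
    (hu : IsRat u) (ho : TyE x u) : ∃ f g, IsRat f ∧ IsRat g ∧
      u = PowerSeries.X * qq (PowerSeries.C x) PowerSeries.X * f ^ 2 ∧
      z = f * g ∧ qq (PowerSeries.C x) u = g ^ 2 := by
  obtain ⟨f, hf, hfu⟩ := ho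
  have hf0 : PowerSeries.constantCoeff f ≠ 0 := by
    intro h0
    have h1 := h.sol.u1
    rw [hfu, show (1 : ℕ) = 0 + 1 from rfl, mul_assoc, PowerSeries.coeff_succ_X_mul,
      PowerSeries.coeff_zero_eq_constantCoeff_apply, map_mul, map_pow, h0] at h1
    exact ha ((pow_eq_zero_iff two_ne_zero).mp (by rw [← h1]; ring))
  obtain ⟨k, hk, hfk⟩ := hf.inv' hf0
  have hz : IsRat z := IsRat.z_of_pt ha h hu
  refine ⟨f, k * z, hf, hk.mul hz, hfu, by rw [← mul_assoc, hfk, one_mul], ?_⟩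
  have hfne : f ≠ 0 := by rintro rfl; simp at hf0
  have hXf : PowerSeries.X * qq (PowerSeries.C x) PowerSeries.X * f ^ 2 ≠ 0 :=
    mul_ne_zero (mul_ne_zero PowerSeries.X_ne_zero (qX_ne_zero x)) (pow_ne_zero 2 hfne)
  apply mul_left_cancel₀ hXf
  have e := h.ez
  rw [hfu] at e ⊢
  rw [← e]
  linear_combination (-(PowerSeries.X * z ^ 2 * qq (PowerSeries.C x) PowerSeries.X *
    (f * k + 1))) * hfk

variable {x a b : K} {u₁ z₁ u₂ z₂ I : PowerSeries K}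

theorem IsRat.add_pt (ha : a ≠ 0) (hb : b ≠ 0) (h₁ : Pt x a u₁ z₁) (h₂ : Pt x b u₂ z₂)
    (r₁ : IsRat u₁) (r₂ : IsRat u₂) (hI : (1 - u₁ * u₂) * I = 1) :
    IsRat I ∧ IsRat (addA (PowerSeries.C x)
      (PowerSeries.X * qq (PowerSeries.C x) PowerSeries.X) u₁ z₁ u₂ z₂ * I ^ 2) := by
  have hI' : IsRat I := (IsRat.one.sub (r₁.mul r₂)).inv (by simp [h₁.u0]) hI
  have z₁' := IsRat.z_of_pt ha h₁ r₁
  have z₂' := IsRat.z_of_pt hb h₂ r₂
  refine ⟨hI', IsRat.mul ?_ (hI'.pow 2)⟩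
  unfold addA
  exact ((r₁.mul r₂.qq).add (r₂.mul r₁.qq)).add
    (((IsRat.two.mul (IsRat.X.mul IsRat.X.qq)).mul z₁').mul z₂')

theorem TyO.add_odd (ha : a ≠ 0) (hb : b ≠ 0) (h₁ : Pt x a u₁ z₁) (h₂ : Pt x b u₂ z₂)
    (r₁ : IsRat u₁) (r₂ : IsRat u₂) (t₁ : TyO u₁) (t₂ : TyO u₂) (hI : (1 - u₁ * u₂) * I = 1) :
    TyE x (addA (PowerSeries.C x)
      (PowerSeries.X * qq (PowerSeries.C x) PowerSeries.X) u₁ z₁ u₂ z₂ * I ^ 2) := by
  obtain ⟨hI', -⟩ := IsRat.add_pt ha hb h₁ h₂ r₁ r₂ hI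
  obtain ⟨f₁, g₁, hf₁, hg₁, e₁, k₁, q₁⟩ := t₁.data ha h₁ r₁
  obtain ⟨f₂, g₂, hf₂, hg₂, e₂, k₂, q₂⟩ := t₂.data hb h₂ r₂
  refine ⟨(f₁ * g₂ + f₂ * g₁) * I, ((hf₁.mul hg₂).add (hf₂.mul hg₁)).mul hI', ?_⟩
  unfold addA
  rw [q₁, q₂, k₁, k₂, e₁, e₂]
  ring

theorem TyO.add_even (ha : a ≠ 0) (hb : b ≠ 0) (h₁ : Pt x a u₁ z₁) (h₂ : Pt x b u₂ z₂)
    (r₁ : IsRat u₁) (r₂ : IsRat u₂) (t₁ : TyO u₁) (t₂ : TyE x u₂) (hI : (1 - u₁ * u₂) * I = 1) :
    TyO (addA (PowerSeries.C x)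
      (PowerSeries.X * qq (PowerSeries.C x) PowerSeries.X) u₁ z₁ u₂ z₂ * I ^ 2) := by
  obtain ⟨hI', -⟩ := IsRat.add_pt ha hb h₁ h₂ r₁ r₂ hI
  obtain ⟨f₁, g₁, hf₁, hg₁, e₁, k₁, q₁⟩ := t₁.data ha h₁ r₁
  obtain ⟨f₂, g₂, hf₂, hg₂, e₂, k₂, q₂⟩ := t₂.data hb h₂ r₂
  refine ⟨(f₁ * g₂ + qq (PowerSeries.C x) PowerSeries.X * f₂ * g₁) * I,
    ((hf₁.mul hg₂).add ((IsRat.X.qq.mul hf₂).mul hg₁)).mul hI', ?_⟩
  unfold addA
  rw [q₁, q₂, k₁, k₂, e₁, e₂]
  ring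

theorem TyE.add_odd (ha : a ≠ 0) (hb : b ≠ 0) (h₁ : Pt x a u₁ z₁) (h₂ : Pt x b u₂ z₂)
    (r₁ : IsRat u₁) (r₂ : IsRat u₂) (t₁ : TyE x u₁) (t₂ : TyO u₂) (hI : (1 - u₁ * u₂) * I = 1) :
    TyO (addA (PowerSeries.C x)
      (PowerSeries.X * qq (PowerSeries.C x) PowerSeries.X) u₁ z₁ u₂ z₂ * I ^ 2) := by
  obtain ⟨hI', -⟩ := IsRat.add_pt ha hb h₁ h₂ r₁ r₂ hI
  obtain ⟨f₁, g₁, hf₁, hg₁, e₁, k₁, q₁⟩ := t₁.data ha h₁ r₁
  obtain ⟨f₂, g₂, hf₂, hg₂, e₂, k₂, q₂⟩ := t₂.data hb h₂ r₂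
  refine ⟨(f₂ * g₁ + qq (PowerSeries.C x) PowerSeries.X * f₁ * g₂) * I,
    ((hf₂.mul hg₁).add ((IsRat.X.qq.mul hf₁).mul hg₂)).mul hI', ?_⟩
  unfold addA
  rw [q₁, q₂, k₁, k₂, e₁, e₂]
  ring

/-- all positive multiples of a rational point of odd type -/
theorem multiples [CharZero K] {x a : K} (ha : a ≠ 0) {u z : PowerSeries K} (h : Pt x a u z)
    (hr : IsRat u) (ht : TyO u) (n : ℕ) (hn : 1 ≤ n) :
    ∃ u' z', Pt x (n * a) u' z' ∧ IsRat u' ∧ (Odd n → TyO u') ∧ (Even n → TyE x u') := by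
  induction n, hn using Nat.le_induction with
  | base =>
    refine ⟨u, z, by simpa using h, hr, fun _ => ht, fun h => ?_⟩
    simp at h
  | succ n hn ih =>
    obtain ⟨v, y, hv, hvr, ho, he⟩ := ih
    have hna : (n : K) * a ≠ 0 := by
      apply mul_ne_zero _ ha
      exact_mod_cast (show n ≠ 0 by omega)
    obtain ⟨I, hI⟩ := unit_of_zero (D := 1 - v * u) (by simp [hv.u0])
    have hadd := hv.add hna ha h hI
    have e : (n : K) * a + a = ((n + 1 : ℕ) : K) * a := by push_cast; ring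
    rw [e] at hadd
    refine ⟨_, _, hadd, (IsRat.add_pt hna ha hv h hvr hr hI).2, ?_, ?_⟩
    · intro h1
      have hne : Even n := by
        rw [Nat.odd_iff] at h1; rw [Nat.even_iff]; omega
      exact (he hne).add_odd hna ha hv h hvr hr ht hI
    · intro h1
      have hne : Odd n := by
        rw [Nat.even_iff] at h1; rw [Nat.odd_iff]; omega
      exact (ho hne).add_odd hna ha hv h hvr hr ht hI

/-- coprimality of numerator of `α` and denominator of `β` -/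
theorem coprime_aux [CharZero K] {x a b : K} (ha : a ≠ 0) (hb : b ≠ 0) {U V U' V' : K[X]} {k : ℕ}
    {u v : PowerSeries K} (hu : Sol x a u) (hv : Sol x b v) (hUV : IsCoprime U V)
    (h : cp V * u = cp U) (hV0 : V.coeff 0 = 1) (hUV' : IsCoprime U' V')
    (h' : cp V' * v = cp U') (hV0' : V'.coeff 0 = 1) (dU : U.natDegree = k) (hUne : U ≠ 0)
    (dV : V.natDegree ≤ k) (dU' : U'.natDegree ≤ k) (dV' : V'.natDegree ≤ k) :
    IsCoprime U V' := by
  have U0 : ∀ {P Q : K[X]} {f : PowerSeries K} {c : K}, Sol x c f → cp Q * f = cp P →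
      Q.coeff 0 = 1 → P.coeff 0 = 0 ∧ P.coeff 1 = c ^ 2 := by
    intro P Q f c hf hPQ hQ0
    constructor
    · rw [← constantCoeff_cp, ← hPQ, map_mul, hf.u0, mul_zero]
    · rw [← coeff_cp, ← hPQ, PowerSeries.coeff_mul]
      simp [Finset.antidiagonal, Finset.Nat.antidiagonal_succ, coeff_cp, hQ0, hf.u0, hf.u1]
  obtain ⟨u0, u1⟩ := U0 hu h hV0
  obtain ⟨u0', u1'⟩ := U0 hv h' hV0'
  have P1 : PODE x a U V := hu.pode h
  have P2 : PODE x b U' V' := hv.pode h'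
  -- the two compositions
  obtain ⟨I, hI⟩ := unit_of_zero (D := ev u V') (by rw [constantCoeff_ev u hu.u0, hV0'])
  obtain ⟨J, hJ⟩ := unit_of_zero (D := ev v V) (by rw [constantCoeff_ev v hv.u0, hV0])
  have c1 : ev u V' * (I * ev u U') = ev u U' := by rw [← mul_assoc, hI, one_mul]
  have c2 : ev v V * (J * ev v U) = ev v U := by rw [← mul_assoc, hJ, one_mul]
  have s1 := P2.comp u0' u1' hV0' hu c1
  have s2 := P1.comp u0 u1 hV0 hv c2
  have hcomp : I * ev u U' = J * ev v U := by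
    rw [mul_comm b a] at s1
    exact s1.unique (mul_ne_zero ha hb) s2
  have key : hm k U' U V * hm k V U' V' = hm k U U' V' * hm k V' U V := by
    apply cp_inj
    rw [map_mul, map_mul, cp_hm dU' h, cp_hm dV h', cp_hm dU.le h', cp_hm dV' h, ← c1, ← c2,
      hcomp]
    ring
  have hlead : U.coeff k ≠ 0 := by
    rw [← dU, coeff_natDegree, Ne, leadingCoeff_eq_zero]; exact hUne
  apply isCoprime_of_prime_dvd (fun h0 => hUne h0.1)
  intro q hq hqU hqV'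
  have hqV : ¬ q ∣ V := by
    intro hh
    exact hq.not_unit (hUV.isUnit_of_dvd' hqU hh)
  have hqU' : ¬ q ∣ U' := by
    intro hh
    exact hq.not_unit (hUV'.isUnit_of_dvd' hh hqV')
  have hconst : ∀ c : K, c ≠ 0 → ¬ q ∣ C c := by
    intro c hc hd
    exact hq.not_unit (isUnit_of_dvd_unit hd (isUnit_C.mpr (IsUnit.mk0 c hc)))
  have d1 : q ∣ hm k U' U V := by
    have := hqU.trans (hm_dvd_left (N := k) U' U V)
    rw [u0'] at this
    simpa using this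
  have d2 : ¬ q ∣ hm k U U' V' := by
    intro hd
    have := hqV'.trans (hm_dvd_right (N := k) U U' V')
    rw [dvd_sub_right hd] at this
    rcases hq.dvd_or_dvd this with h3 | h3
    · exact hconst _ hlead h3
    · exact hqU' (hq.dvd_of_dvd_pow h3)
  have d3 : ¬ q ∣ hm k V' U V := by
    intro hd
    have := hqU.trans (hm_dvd_left (N := k) V' U V)
    rw [dvd_sub_right hd] at this
    rcases hq.dvd_or_dvd this with h3 | h3
    · rw [hV0'] at h3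
      exact hconst _ one_ne_zero h3
    · exact hqV (hq.dvd_of_dvd_pow h3)
  have d4 : q ∣ hm k U U' V' * hm k V' U V := by
    rw [← key]; exact d1.mul_right _
  rcases hq.dvd_or_dvd d4 with h3 | h3
  · exact d2 h3
  · exact d3 h3

end Field

end Pool.Agent.Lib.MP_945b72_nt
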