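import Pool.Agent.Lib.MP_945b72_nt.K2

/-!
Numerator and denominator of the product of the endomorphisms `m + n s` and `m - n s`.
-/

namespace Pool.Agent.Lib.MP_945b72_nt

open Polynomial

section Gen

variable {R : Type*} [CommRing R]

theorem cp_pN (s : R) : cp (pN (C s) X : R[X]) = pN (PowerSeries.C s) PowerSeries.X := by
  simp only [pN, map_add, map_sub, map_mul, map_pow, map_ofNat, cp_C, cp_X]

theorem cp_pD (s : R) : cp (pD (C s) X : R[X]) = pD (PowerSeries.C s) PowerSeries.X := by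
  simp only [pD, map_add, map_sub, map_mul, map_pow, map_ofNat, map_one, cp_C, cp_X]

theorem pN_eq (s : R) : (pN (C s) X : R[X]) =
    C s * X ^ 0 + C (-21) * X ^ 1 + C (-5 * s) * X ^ 2 + C 1 * X ^ 3 := by
  simp only [pN, map_neg, map_mul, map_ofNat, map_one]
  ring

theorem pD_eq (s : R) : (pD (C s) X : R[X]) =
    C s * X ^ 3 + C (-21) * X ^ 2 + C (-5 * s) * X ^ 1 + C 1 * X ^ 0 := by
  simp only [pD, map_neg, map_mul, map_ofNat, map_one]
  ring

theorem reflect_pN (s : R) : reflect 3 (pN (C s) X : R[X]) = pD (C s) X := by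
  rw [pN_eq, pD_eq]
  simp only [reflect_add, reflect_C_mul_X_pow]
  simp only [revAt_le (show 0 ≤ 3 by omega), revAt_le (show 1 ≤ 3 by omega),
      revAt_le (show 2 ≤ 3 by omega), revAt_le (show 3 ≤ 3 by omega)]

theorem natDegree_pN (s : R) : (pN (C s) X : R[X]).natDegree ≤ 3 := by
  rw [natDegree_le_iff_coeff_eq_zero]
  intro N hN
  rw [pN_eq]
  simp only [coeff_add, coeff_C_mul, coeff_X_pow]
  rw [if_neg (by omega), if_neg (by omega), if_neg (by omega), if_neg (by omega)]
  ring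

theorem natDegree_pD (s : R) : (pD (C s) X : R[X]).natDegree ≤ 3 := by
  rw [natDegree_le_iff_coeff_eq_zero]
  intro N hN
  rw [pD_eq]
  simp only [coeff_add, coeff_C_mul, coeff_X_pow]
  rw [if_neg (by omega), if_neg (by omega), if_neg (by omega), if_neg (by omega)]
  ring

/-- the numerator of the endomorphism `s` -/
noncomputable def Us (s : R) : R[X] := X * (pN (C s) X) ^ 2

/-- the denominator of the endomorphism `s` -/
noncomputable def Vs (s : R) : R[X] := (pD (C s) X) ^ 2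

theorem reflect_Us (s : R) : reflect 7 (Us s) = Vs s := by
  have h : (7 : ℕ) = 1 + 2 * 3 := by norm_num
  rw [Us, h, reflect_mul _ _ natDegree_X_le
    (le_trans natDegree_pow_le (Nat.mul_le_mul_left 2 (natDegree_pN s))),
    reflect_pow _ (natDegree_pN s), reflect_pN, Vs]
  simp

theorem natDegree_Us (s : R) : (Us s).natDegree ≤ 7 := by
  refine le_trans natDegree_mul_le ?_
  have h1 := natDegree_X_le (R := R)
  have h2 : ((pN (C s) X : R[X]) ^ 2).natDegree ≤ 2 * 3 :=
    le_trans natDegree_pow_le (Nat.mul_le_mul_left 2 (natDegree_pN s))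
  omega

theorem natDegree_Vs (s : R) : (Vs s).natDegree ≤ 7 := by
  have h2 : ((pD (C s) X : R[X]) ^ 2).natDegree ≤ 2 * 3 :=
    le_trans natDegree_pow_le (Nat.mul_le_mul_left 2 (natDegree_pD s))
  unfold Vs
  omega

theorem Us0 (s : R) : (Us s).coeff 0 = 0 := by simp [Us]

theorem Vs0 (s : R) : (Vs s).coeff 0 = 1 := by
  rw [Vs, coeff_zero_eq_eval_zero]; simp [pD]

theorem cp_VsUs (s : R) {I : PowerSeries R}
    (hI : pD (PowerSeries.C s) PowerSeries.X * I = 1) :
    cp (Vs s) * (PowerSeries.X * pN (PowerSeries.C s) PowerSeries.X ^ 2 * I ^ 2) =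
      cp (Us s) := by
  rw [Vs, Us, map_pow, map_mul, map_pow, cp_pD, cp_pN, cp_X]
  have hI2 : (pD (PowerSeries.C s) PowerSeries.X * I) ^ 2 = 1 := by rw [hI]; ring
  linear_combination (PowerSeries.X * pN (PowerSeries.C s) PowerSeries.X ^ 2) * hI2

theorem coeff_zero_hm {N : ℕ} {P A B : R[X]} (hA : A.coeff 0 = 0) (hB : B.coeff 0 = 1) :
    (hm N P A B).coeff 0 = P.coeff 0 := by
  obtain ⟨c, hc⟩ := hm_dvd_left (N := N) P A B
  have : hm N P A B = A * c + C (P.coeff 0) * B ^ N := by rw [← hc]; ring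
  have hB' : (B ^ N).coeff 0 = 1 := by
    rw [coeff_zero_eq_eval_zero, eval_pow, ← coeff_zero_eq_eval_zero, hB, one_pow]
  rw [this, coeff_add, mul_coeff_zero, hA, mul_coeff_zero, hB', coeff_C_zero]
  ring

theorem first_coeffs {P Q : R[X]} {f : PowerSeries R} {x c : R} (hf : Sol x c f)
    (hPQ : cp Q * f = cp P) (hQ0 : Q.coeff 0 = 1) : P.coeff 0 = 0 ∧ P.coeff 1 = c ^ 2 := by
  constructor
  · rw [← constantCoeff_cp, ← hPQ, map_mul, hf.u0, mul_zero]
  · rw [← coeff_cp, ← hPQ, PowerSeries.coeff_mul]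
    simp [Finset.antidiagonal, Finset.Nat.antidiagonal_succ, coeff_cp, hQ0, hf.u0, hf.u1]

end Gen

theorem numden {K : Type*} [Field K] [CharZero K] {s : K} (hs : s ^ 2 = -7) {m n p : ℕ}
    (hm1 : 1 ≤ m) (hn1 : 1 ≤ n) (hp : m ^ 2 + 7 * n ^ 2 = p) (hodd : Odd p) :
    ∃ (num den : K[X]) (u v zu zv : PowerSeries K), num.natDegree = p ∧ num ≠ 0 ∧
      den.natDegree + 1 = p ∧ den ≠ 0 ∧
      Pt (3 * s) ((m : K) + n * s) u zu ∧ Pt (3 * s) ((m : K) - n * s) v zv ∧
      IsRat u ∧ IsRat v ∧ TyO u ∧ u * v * cp den ^ 2 = cp num ^ 2 := by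
  have hp0 : p ≠ 0 := by rintro rfl; simp at hodd
  have hpK : (p : K) ≠ 0 := by exact_mod_cast hp0
  have hmK : (m : K) ≠ 0 := by exact_mod_cast (show m ≠ 0 by omega)
  have hnK : (n : K) ≠ 0 := by exact_mod_cast (show n ≠ 0 by omega)
  have hs0 : s ≠ 0 := by
    rintro rfl
    have : (7 : K) = 0 := by linear_combination hs
    norm_num at this
  have hnsK : (n : K) * s ≠ 0 := mul_ne_zero hnK hs0
  have hpar : (Odd m ∧ Even n) ∨ (Even m ∧ Odd n) := by
    rw [Nat.odd_iff] at hodd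
    rcases Nat.even_or_odd m with h | h <;> rcases Nat.even_or_odd n with h' | h'
    · exfalso
      obtain ⟨i, rfl⟩ := h; obtain ⟨j, rfl⟩ := h'
      have : (i + i) ^ 2 + 7 * (j + j) ^ 2 = 2 * (2 * i ^ 2 + 14 * j ^ 2) := by ring
      omega
    · right; exact ⟨h, h'⟩
    · left; exact ⟨h, h'⟩
    · exfalso
      obtain ⟨i, rfl⟩ := h; obtain ⟨j, rfl⟩ := h'
      have : (2 * i + 1) ^ 2 + 7 * (2 * j + 1) ^ 2 =
        2 * (2 * i ^ 2 + 2 * i + 14 * j ^ 2 + 14 * j + 4) := by ring
      omega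
  -- the points
  obtain ⟨um, zm, hPm, hrm, hom, hem⟩ := multiples (K := K) one_ne_zero (Pt.one (3 * s)) IsRat.X
    ⟨1, IsRat.one, by ring⟩ m hm1
  rw [mul_one] at hPm
  obtain ⟨I, hI⟩ := unit_of_zero (D := pD (PowerSeries.C s) PowerSeries.X) (by simp [pD])
  have hPs := base_pt hs hI
  have hNr : IsRat (pN (PowerSeries.C s) PowerSeries.X) := by
    rw [← cp_pN]; exact IsRat.cp _
  have hDr : IsRat (pD (PowerSeries.C s) PowerSeries.X) := by
    rw [← cp_pD]; exact IsRat.cp _
  have hIr : IsRat I := hDr.inv (by simp [pD]) hI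
  have hrs : IsRat (PowerSeries.X * pN (PowerSeries.C s) PowerSeries.X ^ 2 * I ^ 2) :=
    (IsRat.X.mul (hNr.pow 2)).mul (hIr.pow 2)
  obtain ⟨un, zn, hPn, hrn, hon, hen⟩ := multiples (K := K) hs0 hPs hrs
    ⟨pN (PowerSeries.C s) PowerSeries.X * I, hNr.mul hIr, by ring⟩ n hn1
  -- the polynomials
  obtain ⟨Um, Vm, hMm⟩ := exists_mulPoly (3 * s) m hm1
  obtain ⟨Un, Vn, hMn⟩ := exists_mulPoly (3 * s) n hn1
  have cm : cp Vm * um = cp Um := by
    obtain ⟨u', z', h1, h2⟩ := hMm.pt 1 one_ne_zero _ _ (Pt.one (3 * s))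
    rw [mul_one] at h1
    rw [h1.sol.unique hmK hPm.sol, ← cp_eq_ev, ← cp_eq_ev] at h2
    exact h2
  have cs := cp_VsUs s hI
  have cn : cp (hm (n ^ 2) Vn (Us s) (Vs s)) * un = cp (hm (n ^ 2) Un (Us s) (Vs s)) := by
    obtain ⟨u', z', h1, h2⟩ := hMn.pt s hs0 _ _ hPs
    rw [h1.sol.unique hnsK hPn.sol] at h2
    rw [cp_hm hMn.dV cs, cp_hm hMn.dU cs, ← h2]; ring
  have cn0 : (hm (n ^ 2) Vn (Us s) (Vs s)).coeff 0 = 1 := by
    rw [coeff_zero_hm (Us0 s) (Vs0 s), hMn.V0]
  have dUns : (hm (n ^ 2) Un (Us s) (Vs s)).natDegree ≤ 7 * n ^ 2 :=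
    hm_natDegree_le (natDegree_Us s) (natDegree_Vs s)
  have dVns : (hm (n ^ 2) Vn (Us s) (Vs s)).natDegree ≤ 7 * n ^ 2 :=
    hm_natDegree_le (natDegree_Us s) (natDegree_Vs s)
  have rU : reflect (7 * n ^ 2) (hm (n ^ 2) Un (Us s) (Vs s)) =
      hm (n ^ 2) (reflect (n ^ 2) Un) (Us s) (Vs s) :=
    reflect_hm hMn.dU (natDegree_Us s) (natDegree_Vs s) (reflect_Us s)
  have rV : reflect (7 * n ^ 2) (hm (n ^ 2) Vn (Us s) (Vs s)) =
      hm (n ^ 2) (reflect (n ^ 2) Vn) (Us s) (Vs s) :=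
    reflect_hm hMn.dV (natDegree_Us s) (natDegree_Vs s) (reflect_Us s)
  obtain ⟨m0, m1⟩ := first_coeffs hPm.sol cm hMm.V0
  obtain ⟨n0, n1⟩ := first_coeffs hPn.sol cn cn0
  set A := hm (n ^ 2) Un (Us s) (Vs s) with hA
  set B := hm (n ^ 2) Vn (Us s) (Vs s) with hB
  -- numerator and denominator
  set num := Um * B - A * Vm with hnum
  set den := Vm * B - Um * A with hden
  have drefl : reflect p num = den ∨ reflect p num = - den := by
    have e1 : reflect p (Um * B) = reflect (m ^ 2) Um * reflect (7 * n ^ 2) B := by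
      rw [← hp]; exact reflect_mul _ _ hMm.dU dVns
    have e2 : reflect p (A * Vm) = reflect (7 * n ^ 2) A * reflect (m ^ 2) Vm := by
      rw [← hp, add_comm]; exact reflect_mul _ _ dUns hMm.dV
    rw [hnum, reflect_sub, e1, e2, rU, rV]
    rcases hpar with ⟨ho, he⟩ | ⟨he, ho⟩
    · left
      have a2 : reflect (m ^ 2) Vm = Um := by rw [← hMm.odd ho, reflect_reflect]
      rw [hMm.odd ho, a2, hMn.evenU he, hMn.evenV he, hden]; ring
    · right
      have a2 : reflect (n ^ 2) Vn = Un := by rw [← hMn.odd ho, reflect_reflect]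
      rw [hMm.evenU he, hMm.evenV he, a2, hMn.odd ho, hden]; ring
  have den0 : den.coeff 0 = 1 := by
    rw [hden, coeff_sub, mul_coeff_zero, mul_coeff_zero, hMm.V0, cn0, m0]; ring
  have num0 : num.coeff 0 = 0 := by
    rw [hnum, coeff_sub, mul_coeff_zero, mul_coeff_zero, m0, n0]; ring
  have num1 : num.coeff 1 = p := by
    rw [hnum, coeff_sub, mul_coeff_one, mul_coeff_one, m0, n0, hMm.V0, cn0, m1, n1, ← hp]
    push_cast
    linear_combination (-(n : K) ^ 2) * hs
  have dnum : num.natDegree ≤ p := by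
    have a1 : (Um * B).natDegree ≤ p := by
      refine le_trans natDegree_mul_le ?_
      have := hMm.dU; omega
    have a2 : (A * Vm).natDegree ≤ p := by
      refine le_trans natDegree_mul_le ?_
      have := hMm.dV; omega
    exact le_trans (natDegree_sub_le _ _) (max_le a1 a2)
  have dden : den.natDegree ≤ p := by
    have a1 : (Vm * B).natDegree ≤ p := by
      refine le_trans natDegree_mul_le ?_
      have := hMm.dV; omega
    have a2 : (Um * A).natDegree ≤ p := by
      refine le_trans natDegree_mul_le ?_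
      have := hMm.dU; omega
    exact le_trans (natDegree_sub_le _ _) (max_le a1 a2)
  have hc1 : ∀ i ≤ p, num.coeff (p - i) ^ 2 = den.coeff i ^ 2 := by
    intro i hi
    have : (reflect p num).coeff i = num.coeff (p - i) := by
      rw [coeff_reflect, revAt_le hi]
    rcases drefl with h | h
    · rw [← this, h]
    · rw [← this, h, coeff_neg]; ring
  have nump : num.coeff p ≠ 0 := by
    intro h0
    have := hc1 0 (by omega)
    rw [Nat.sub_zero, h0, den0] at this
    norm_num at this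
  have numne : num ≠ 0 := by
    intro h; rw [h] at nump; simp at nump
  have denne : den ≠ 0 := by
    intro h; rw [h] at den0; simp at den0
  have hdnum : num.natDegree = p := le_antisymm dnum (le_natDegree_of_ne_zero nump)
  have denp : den.coeff p = 0 := by
    have := hc1 p le_rfl
    rw [Nat.sub_self, num0] at this
    exact (pow_eq_zero_iff two_ne_zero).mp (by rw [← this]; ring)
  have denp1 : den.coeff (p - 1) ≠ 0 := by
    intro h0
    have := hc1 (p - 1) (by omega)
    rw [show p - (p - 1) = 1 by omega, num1, h0] at this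
    exact hpK ((pow_eq_zero_iff two_ne_zero).mp (by rw [this]; ring))
  have hdden : den.natDegree + 1 = p := by
    have h1 : p - 1 ≤ den.natDegree := le_natDegree_of_ne_zero denp1
    have h2 : den.natDegree ≠ p := by
      intro h
      rw [← h, coeff_natDegree, leadingCoeff_eq_zero] at denp
      exact denne denp
    omega
  -- the sum and the difference
  obtain ⟨J, hJ⟩ := unit_of_zero (D := 1 - um * un) (by simp [hPm.u0])
  have hadd := hPm.add hmK hnsK hPn hJ
  have hsub := hPm.add hmK (neg_ne_zero.mpr hnsK) hPn.neg hJ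
  have hmem := (IsRat.add_pt hmK hnsK hPm hPn hrm hrn hJ).2
  have hmem' := (IsRat.add_pt hmK (neg_ne_zero.mpr hnsK) hPm hPn.neg hrm hrn hJ).2
  refine ⟨num, den, _, _, _, _, hdnum, numne, hdden, denne, hadd,
    by rw [← sub_eq_add_neg] at hsub; exact hsub, hmem, hmem', ?_, ?_⟩
  · rcases hpar with ⟨ho, he⟩ | ⟨he, ho⟩
    · exact (hom ho).add_even hmK hnsK hPm hPn hrm hrn (hen he) hJ
    · exact (hem he).add_odd hmK hnsK hPm hPn hrm hrn (hon ho) hJ
  · rw [add_mul_sub _ _ _ _ _ _ _ hPm.ez hPn.ez hJ]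
    have e1 : cp num = cp Vm * cp B * (um - un) := by
      rw [hnum, map_sub, map_mul, map_mul, ← cm, ← cn]; ring
    have e2 : cp den = cp Vm * cp B * (1 - um * un) := by
      rw [hden, map_sub, map_mul, map_mul, ← cm, ← cn]; ring
    rw [e1, e2]
    have hJ2 : ((1 - um * un) * J) ^ 2 = 1 := by rw [hJ]; ring
    linear_combination (cp Vm * cp B) ^ 2 * (um - un) ^ 2 * hJ2

end Pool.Agent.Lib.MP_945b72_nt
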