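import Pool.Agent.Lib.MP_945b72_nt.K3

/-!
The endomorphism `m + n s` of degree `p = m^2 + 7 n^2`: reduced form of degree at most `p`, with
reciprocity.
-/

namespace Pool.Agent.Lib.MP_945b72_nt

open Polynomial

theorem PODE.smul {R : Type*} [CommRing R] {x a : R} {U V : R[X]} (h : PODE x a U V) (c : R) :
    PODE x a (C c * U) (C c * V) := by
  unfold PODE at *
  rw [derivative_C_mul, derivative_C_mul]
  linear_combination (C c) ^ 4 * h

theorem klevel {K : Type*} [Field K] [CharZero K] {s : K} (hs : s ^ 2 = -7) (σ : K →+* K)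
    (hσ : σ s = -s) (hneg : ∀ y : K, y ^ 2 ≠ -1) {m n p : ℕ}
    (hm1 : 1 ≤ m) (hn1 : 1 ≤ n) (hp : m ^ 2 + 7 * n ^ 2 = p) (hodd : Odd p) :
    ∃ (U V : K[X]) (u z : PowerSeries K), U.coeff 0 = 0 ∧ V.coeff 0 = 1 ∧ U.natDegree ≤ p ∧
      V.natDegree ≤ U.natDegree ∧ reflect U.natDegree U = V ∧
      Pt (3 * s) ((m : K) + n * s) u z ∧ cp V * u = cp U := by
  obtain ⟨num, den, u, v, zu, zv, hdnum, numne, hdden, denne, hPu, hPv, hru, hrv, htu, hprod⟩ :=
    numden hs hm1 hn1 hp hodd
  have hp0 : p ≠ 0 := by rintro rfl; simp at hodd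
  have hpK : (p : K) ≠ 0 := by exact_mod_cast hp0
  have hnorm : ((m : K) + n * s) * ((m : K) - n * s) = p := by
    rw [← hp]; push_cast; linear_combination (-(n : K) ^ 2) * hs
  have ha : (m : K) + n * s ≠ 0 := by
    intro h0; rw [h0, zero_mul] at hnorm; exact hpK hnorm.symm
  have hb : (m : K) - n * s ≠ 0 := by
    intro h0; rw [h0, mul_zero] at hnorm; exact hpK hnorm.symm
  obtain ⟨U, V, hUV, hV0, h⟩ := hru.reduced
  obtain ⟨u0, u1⟩ := first_coeffs hPu.sol h hV0
  have hUne : U ≠ 0 := by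
    rintro rfl
    rw [coeff_zero] at u1
    exact ha ((pow_eq_zero_iff two_ne_zero).mp u1.symm)
  have hVne : V ≠ 0 := by rintro rfl; simp at hV0
  -- the conjugate
  have hv : v = -(cj σ u) := by
    have h1 := hPu.sol.conj hσ
    have h2 : σ ((m : K) + n * s) = (m : K) - n * s := by
      rw [map_add, map_mul, map_natCast, map_natCast, hσ]; ring
    rw [h2] at h1
    exact hPv.sol.unique hb h1
  set U' : K[X] := - cjP σ U with hU'
  set V' : K[X] := cjP σ V with hV'
  have h' : cp V' * v = cp U' := by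
    rw [hv, hU', hV', map_neg, cp_cjP, cp_cjP, ← h, map_mul]; ring
  have hV0' : V'.coeff 0 = 1 := by rw [hV', coeff_cjP, hV0]; simp
  have dU' : U'.natDegree = U.natDegree := by rw [hU', natDegree_neg, natDegree_cjP]
  have dV' : V'.natDegree = V.natDegree := by rw [hV', natDegree_cjP]
  have hUV' : IsCoprime U' V' := by
    rw [hU', hV']
    exact (hUV.map (cjP σ)).neg_left
  have hUne' : U' ≠ 0 := by
    rw [hU', neg_ne_zero]
    intro h0
    rw [map_eq_zero_iff _ (RingHom.injective_iff_ker_eq_bot _ |>.mpr ?_)] at h0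
    · exact hUne h0
    · rw [RingHom.ker_eq_bot_iff_eq_zero]
      intro P hP
      by_contra hPne
      have hd : (cjP σ P).coeff P.natDegree ≠ 0 := by
        rw [coeff_cjP]
        apply mul_ne_zero (pow_ne_zero _ (by norm_num))
        rw [_root_.map_ne_zero, coeff_natDegree, Ne, leadingCoeff_eq_zero]
        exact hPne
      rw [hP] at hd
      simp at hd
  have hVne' : V' ≠ 0 := by
    intro h0; rw [h0] at hV0'; simp at hV0'
  -- the polynomial identity
  have hpoly : U * U' * den ^ 2 = num ^ 2 * (V * V') := by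
    apply cp_inj
    simp only [map_mul, map_pow]
    rw [← hprod, ← h, ← h']; ring
  have hdeg : U.natDegree = V.natDegree + 1 := by
    have e := congrArg natDegree hpoly
    rw [natDegree_mul (mul_ne_zero hUne hUne') (pow_ne_zero 2 denne),
      natDegree_mul hUne hUne', natDegree_mul (pow_ne_zero 2 numne) (mul_ne_zero hVne hVne'),
      natDegree_mul hVne hVne', natDegree_pow, natDegree_pow, dU', dV', hdnum] at e
    omega
  have hcop1 : IsCoprime U V' :=
    coprime_aux ha hb hPu.sol hPv.sol hUV h hV0 hUV' h' hV0' rfl hUne (by omega) (by omega)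
      (by omega)
  have hcop2 : IsCoprime U' V :=
    coprime_aux hb ha hPv.sol hPu.sol hUV' h' hV0' hUV h hV0 dU' hUne' (by omega) (by omega)
      (by omega)
  have hle : U.natDegree ≤ p := by
    have h1 : IsCoprime (U * U') (V * V') :=
      IsCoprime.mul_left (IsCoprime.mul_right hUV hcop1) (IsCoprime.mul_right hcop2 hUV')
    have h2 : U * U' ∣ num ^ 2 := by
      apply h1.dvd_of_dvd_mul_right
      rw [← hpoly]; exact dvd_mul_right _ _
    have h3 := natDegree_le_of_dvd h2 (pow_ne_zero 2 numne)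
    rw [natDegree_mul hUne hUne', natDegree_pow, dU', hdnum] at h3
    omega
  -- reciprocity
  set k := U.natDegree with hk
  have hc0 : U.coeff k ≠ 0 := by
    rw [hk, coeff_natDegree, Ne, leadingCoeff_eq_zero]; exact hUne
  set c := U.coeff k with hc
  have hP := hPu.sol.pode h
  have hPr := (hP.reflect (k := k) le_rfl (by omega)).smul c⁻¹
  have e0 : (C c⁻¹ * reflect k V).coeff 0 = 0 := by
    rw [coeff_C_mul, coeff_reflect, revAt_le (by omega), Nat.sub_zero,
      coeff_eq_zero_of_natDegree_lt (by omega), mul_zero]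
  have e1 : (C c⁻¹ * reflect k V).coeff 1 ≠ 0 := by
    rw [coeff_C_mul, coeff_reflect, revAt_le (by omega), show k - 1 = V.natDegree by omega,
      coeff_natDegree]
    exact mul_ne_zero (inv_ne_zero hc0) (by rw [Ne, leadingCoeff_eq_zero]; exact hVne)
  have e2 : (C c⁻¹ * reflect k U).coeff 0 = 1 := by
    rw [coeff_C_mul, coeff_reflect, revAt_le (by omega), Nat.sub_zero, ← hc, inv_mul_cancel₀ hc0]
  obtain ⟨I, hI⟩ := unit_of_zero (D := cp (C c⁻¹ * reflect k U)) (by rw [constantCoeff_cp, e2])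
  have hw : cp (C c⁻¹ * reflect k U) * (I * cp (C c⁻¹ * reflect k V)) =
      cp (C c⁻¹ * reflect k V) := by rw [← mul_assoc, hI, one_mul]
  have hwu := (hPr.sol e0 e1 e2 hw).unique ha hPu.sol
  rw [hwu] at hw
  have hne : C c⁻¹ * reflect k V ≠ 0 := by
    intro h0; rw [h0] at e1; simp at e1
  have hdr : (C c⁻¹ * reflect k V).natDegree ≤ U.natDegree := by
    refine le_trans (natDegree_C_mul_le _ _) (le_trans natDegree_reflect_le ?_)
    exact max_le le_rfl (by omega)
  obtain ⟨r1, r2⟩ := reduced_unique hUV hV0 h hdr hne e2 hw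
  have r1' : reflect k V = C c * U := by
    rw [← r1, ← mul_assoc, ← C_mul, mul_inv_cancel₀ hc0, C_1, one_mul]
  have r2' : reflect k U = C c * V := by
    rw [← r2, ← mul_assoc, ← C_mul, mul_inv_cancel₀ hc0, C_1, one_mul]
  have hcc : c ^ 2 = 1 := by
    have e3 : U = C (c * c) * U := by
      conv_lhs => rw [← reflect_reflect (N := k) (p := U), r2', reflect_C_mul, r1']
      rw [C_mul]; ring
    have e4 := congrArg (fun P => P.coeff k) e3
    simp only [coeff_C_mul] at e4
    rw [← hc] at e4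
    apply mul_right_cancel₀ hc0
    linear_combination -e4
  -- the leading coefficient is a square
  obtain ⟨f, hf, hfu⟩ := htu
  obtain ⟨A, B, hAB, hB0, hfAB⟩ := hf.reduced
  have hsq : cp (B ^ 2) * u = cp (X * A ^ 2) := by
    rw [map_pow, map_mul, map_pow, cp_X, ← hfAB, hfu]; ring
  have hXB : IsCoprime (X * A ^ 2) (B ^ 2) := by
    apply IsCoprime.mul_left
    · apply IsCoprime.pow_right
      rw [Polynomial.irreducible_X.coprime_iff_not_dvd, X_dvd_iff, hB0]
      exact one_ne_zero
    · exact hAB.pow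
  have hXA : X * A ^ 2 ∣ U := by
    apply hXB.dvd_of_dvd_mul_right
    refine ⟨V, ?_⟩
    apply cp_inj
    rw [map_mul, map_mul, ← hsq, ← h]; ring
  have hXAne : X * A ^ 2 ≠ 0 := by
    intro h0; rw [h0, zero_dvd_iff] at hXA; exact hUne hXA
  have hB20 : (B ^ 2).coeff 0 = 1 := by
    rw [coeff_zero_eq_eval_zero, eval_pow, ← coeff_zero_eq_eval_zero, hB0, one_pow]
  obtain ⟨q1, q2⟩ := reduced_unique hUV hV0 h (natDegree_le_of_dvd hXA hUne) hXAne hB20 hsq
  have hlead : c = (A.leadingCoeff) ^ 2 := by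
    rw [hc, hk, coeff_natDegree, ← q1, leadingCoeff_mul, leadingCoeff_X, leadingCoeff_pow, one_mul]
  have hc1 : c = 1 := by
    have : (c - 1) * (c + 1) = 0 := by linear_combination hcc
    rcases mul_eq_zero.mp this with h1 | h1
    · exact sub_eq_zero.mp h1
    · exfalso
      apply hneg A.leadingCoeff
      rw [← hlead]; linear_combination h1
  refine ⟨U, V, u, zu, u0, hV0, hle, by omega, ?_, hPu, h⟩
  rw [r2', hc1, C_1, one_mul]

end Pool.Agent.Lib.MP_945b72_nt
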