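import Pool.Agent.Lib.MP_945b72_nt.K4

/-!
The rational structure over any field of characteristic zero containing a square root of `-7`.
-/

namespace Pool.Agent.Lib.MP_945b72_nt

open Polynomial

section Map

variable {R S : Type*} [CommRing R] [CommRing S]

theorem cp_map (f : R →+* S) (P : R[X]) : cp (P.map f) = PowerSeries.map f (cp P) := by
  ext n
  rw [coeff_cp, coeff_map, PowerSeries.coeff_map, coeff_cp]

theorem Pt.map {x a : R} {u z : PowerSeries R} (h : Pt x a u z) (f : R →+* S) :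
    Pt (f x) (f a) (PowerSeries.map f u) (PowerSeries.map f z) := by
  have hd : ∀ g : PowerSeries R, PowerSeries.derivative S (PowerSeries.map f g) =
      PowerSeries.map f (PowerSeries.derivative R g) := by
    intro g
    ext n
    simp [PowerSeries.coeff_derivative]
  refine ⟨?_, ?_, ?_, ?_⟩
  · rw [← PowerSeries.coeff_zero_eq_constantCoeff_apply, PowerSeries.coeff_map,
      PowerSeries.coeff_zero_eq_constantCoeff_apply, h.u0, map_zero]
  · rw [← PowerSeries.coeff_zero_eq_constantCoeff_apply, PowerSeries.coeff_map,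
      PowerSeries.coeff_zero_eq_constantCoeff_apply, h.z0]
  · rw [hd, h.du, map_mul, PowerSeries.map_C]
  · have e := congrArg (PowerSeries.map f) h.ez
    simp only [qq, map_mul, map_pow, map_add, map_sub, map_one, map_ofNat, PowerSeries.map_C,
      PowerSeries.map_X] at *
    exact e

end Map

instance factQ : Fact (∀ r : ℚ, r ^ 2 ≠ (-7 : ℚ) + 0 * r) :=
  ⟨fun r h => by nlinarith [sq_nonneg r]⟩

/-- the field `ℚ(√-7)` -/
abbrev K7 : Type := QuadraticAlgebra ℚ (-7) 0

/-- the square root of `-7` -/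
def s7 : K7 := ⟨0, 1⟩

theorem s7_sq : s7 ^ 2 = -7 := by
  rw [pow_two]
  ext
  · simp [s7, QuadraticAlgebra.re_ofNat]
  · simp [s7, QuadraticAlgebra.im_ofNat]

theorem K7_neg (y : K7) : y ^ 2 ≠ -1 := by
  intro h
  have hre := congrArg QuadraticAlgebra.re h
  have him := congrArg QuadraticAlgebra.im h
  rw [pow_two] at hre him
  simp only [QuadraticAlgebra.re_mul, QuadraticAlgebra.im_mul, QuadraticAlgebra.re_neg,
    QuadraticAlgebra.im_neg, QuadraticAlgebra.re_one, QuadraticAlgebra.im_one] at hre him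
  have h1 : y.re * y.im = 0 := by linarith
  rcases mul_eq_zero.mp h1 with h2 | h2
  · rw [h2] at hre
    have h3 : (7 * y.im) * (7 * y.im) = 7 := by linarith
    have h4 : ¬ IsSquare (7 : ℚ) := by
      rw [show (7 : ℚ) = ((7 : ℕ) : ℚ) by norm_num, Rat.isSquare_natCast_iff]
      rintro ⟨r, hr⟩
      have : r ≤ 2 := by nlinarith
      interval_cases r <;> omega
    exact h4 ⟨_, h3.symm⟩
  · rw [h2] at hre
    nlinarith [mul_self_nonneg y.re]

theorem klevel_field {L : Type*} [Field L] [CharZero L] {s : L} (hs : s ^ 2 = -7) {m n p : ℕ}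
    (hm1 : 1 ≤ m) (hn1 : 1 ≤ n) (hp : m ^ 2 + 7 * n ^ 2 = p) (hodd : Odd p) :
    ∃ (U V : L[X]) (u z : PowerSeries L), U.coeff 0 = 0 ∧ V.coeff 0 = 1 ∧ U.natDegree ≤ p ∧
      V.natDegree ≤ U.natDegree ∧ reflect U.natDegree U = V ∧
      Pt (3 * s) ((m : L) + n * s) u z ∧ cp V * u = cp U := by
  haveI : CharZero K7 := charZero_of_injective_algebraMap
    (QuadraticAlgebra.algebraMap_injective (R := ℚ) (a := -7) (b := 0))
  have h1 : (-s7) * (-s7) = (-7 : ℚ) • (1 : K7) + (0 : ℚ) • (-s7) := by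
    ext
    · simp [s7, QuadraticAlgebra.re_ofNat]
    · simp [s7, QuadraticAlgebra.im_ofNat]
  have h2 : s * s = (-7 : ℚ) • (1 : L) + (0 : ℚ) • s := by
    rw [← pow_two, hs, zero_smul, add_zero, Algebra.smul_def, mul_one]
    simp
  let σ : K7 →ₐ[ℚ] K7 := QuadraticAlgebra.lift ⟨-s7, h1⟩
  let φ : K7 →ₐ[ℚ] L := QuadraticAlgebra.lift ⟨s, h2⟩
  have hσ : (σ : K7 →+* K7) s7 = - s7 := by
    have : σ s7 = (0 : ℚ) • (1 : K7) + (1 : ℚ) • (-s7) := rfl
    rw [zero_smul, one_smul, zero_add] at this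
    exact this
  have hφ : (φ : K7 →+* L) s7 = s := by
    have : φ s7 = (0 : ℚ) • (1 : L) + (1 : ℚ) • s := rfl
    rw [zero_smul, one_smul, zero_add] at this
    exact this
  obtain ⟨U, V, u, z, hU0, hV0, hUp, hVU, hrefl, hPt, h⟩ :=
    klevel s7_sq (σ : K7 →+* K7) hσ K7_neg hm1 hn1 hp hodd
  refine ⟨U.map (φ : K7 →+* L), V.map (φ : K7 →+* L), PowerSeries.map (φ : K7 →+* L) u,
    PowerSeries.map (φ : K7 →+* L) z, ?_, ?_, ?_, ?_, ?_, ?_, ?_⟩
  · rw [coeff_map, hU0, map_zero]
  · rw [coeff_map, hV0, map_one]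
  · rw [natDegree_map]; exact hUp
  · rw [natDegree_map, natDegree_map]; exact hVU
  · rw [natDegree_map, reflect_map, hrefl]
  · have := hPt.map (φ : K7 →+* L)
    rwa [map_mul, map_ofNat, hφ, map_add, map_natCast, map_mul, map_natCast, hφ] at this
  · rw [cp_map, cp_map, ← map_mul, h]

end Pool.Agent.Lib.MP_945b72_nt
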