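import Pool.Agent.Lib.MP_945b72_nt.Hom

/-!
The differential equation for rational maps; composition and reciprocity.
-/

namespace Pool.Agent.Lib.MP_945b72_nt

open Polynomial

variable {R : Type*} [CommRing R]

/-- the polynomial differential equation satisfied by numerator and denominator -/
def PODE (x a : R) (U V : R[X]) : Prop :=
  (X * qq (C x) X) * (derivative U * V - U * derivative V) ^ 2 =
    C (a ^ 2) * (U * V * (V ^ 2 - 2 * C x * U * V + U ^ 2))

theorem ev_qq (u : PowerSeries R) (x : R) (P : R[X]) :
    ev u (qq (C x) P) = qq (PowerSeries.C x) (ev u P) := by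
  simp only [qq, map_sub, map_add, map_mul, map_pow, map_one, map_ofNat, ev_C]

theorem cp_qq (x : R) (P : R[X]) : cp (qq (C x) P) = qq (PowerSeries.C x) (cp P) := by
  simp only [qq, map_sub, map_add, map_mul, map_pow, map_one, map_ofNat, cp_C]

theorem Sol.pode {x a : R} {u : PowerSeries R} {U V : R[X]} (h : Sol x a u)
    (huv : cp V * u = cp U) : PODE x a U V := by
  apply cp_inj
  have e := congrArg (PowerSeries.derivative R) huv
  rw [Derivation.leibniz, derivative_cp, derivative_cp, smul_eq_mul, smul_eq_mul] at e
  have e2 : cp V ^ 2 * PowerSeries.derivative R u =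
      cp (derivative U) * cp V - cp U * cp (derivative V) := by
    rw [← e, ← huv]; ring
  have e3 := h.eu
  have h1 : cp (qq (C x) X : R[X]) = qq (PowerSeries.C x) PowerSeries.X := by
    rw [cp_qq, cp_X]
  simp only [map_mul, map_sub, map_add, map_pow, cp_C, cp_X, map_ofNat, h1]
  rw [← e2]
  simp only [qq, map_pow] at *
  rw [← huv]
  linear_combination cp V ^ 4 * e3

theorem derivative_ev (u : PowerSeries R) (P : R[X]) :
    PowerSeries.derivative R (ev u P) = ev u (derivative P) * PowerSeries.derivative R u := by
  induction P using Polynomial.induction_on' with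
  | add p q hp hq => rw [map_add, map_add, map_add, map_add, hp, hq]; ring
  | monomial n r =>
    rw [derivative_monomial, ← C_mul_X_pow_eq_monomial, ← C_mul_X_pow_eq_monomial]
    simp only [map_mul, map_pow, ev_C, ev_X, Derivation.leibniz, PowerSeries.derivative_C,
      Derivation.leibniz_pow, smul_eq_mul, nsmul_eq_mul, map_natCast]
    ring

/-- composition of a rational solution with a solution -/
theorem PODE.comp {x a b : R} {U V : R[X]} {v w : PowerSeries R} (h : PODE x a U V)
    (hU0 : U.coeff 0 = 0) (hU1 : U.coeff 1 = a ^ 2) (hV0 : V.coeff 0 = 1) (hv : Sol x b v)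
    (hw : ev v V * w = ev v U) : Sol x (a * b) w := by
  have hv0 := hv.u0
  have cV : PowerSeries.constantCoeff (ev v V) = 1 := by rw [constantCoeff_ev v hv0, hV0]
  have cU : PowerSeries.constantCoeff (ev v U) = 0 := by rw [constantCoeff_ev v hv0, hU0]
  have w0 : PowerSeries.constantCoeff w = 0 := by
    have := congrArg PowerSeries.constantCoeff hw
    rwa [map_mul, cV, cU, one_mul] at this
  have e := congrArg (PowerSeries.derivative R) hw
  rw [Derivation.leibniz, derivative_ev, derivative_ev, smul_eq_mul, smul_eq_mul] at e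
  have e2 : ev v V ^ 2 * PowerSeries.derivative R w =
      (ev v (derivative U) * ev v V - ev v U * ev v (derivative V)) *
        PowerSeries.derivative R v := by
    rw [← hw] at *
    linear_combination ev v V * e
  obtain ⟨I, hI⟩ := unit_of_zero cV
  refine ⟨w0, ?_, ?_⟩
  · -- first coefficient
    have c0 := congrArg PowerSeries.constantCoeff e2
    have dw0 : PowerSeries.constantCoeff (PowerSeries.derivative R w) = PowerSeries.coeff 1 w := by
      rw [← PowerSeries.coeff_zero_eq_constantCoeff_apply, PowerSeries.coeff_derivative]; simp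
    have dv0 : PowerSeries.constantCoeff (PowerSeries.derivative R v) = PowerSeries.coeff 1 v := by
      rw [← PowerSeries.coeff_zero_eq_constantCoeff_apply, PowerSeries.coeff_derivative]; simp
    have dU : (derivative U).coeff 0 = a ^ 2 := by
      rw [coeff_derivative]; simp [hU1]
    simp only [map_mul, map_pow, map_sub, cV, cU, dw0, dv0, constantCoeff_ev v hv0, dU, hv.u1] at c0
    rw [show PowerSeries.coeff 1 w = 1 ^ 2 * PowerSeries.coeff 1 w by ring, c0]
    ring
  · have e4 := congrArg (ev v) h
    simp only [map_mul, map_sub, map_add, map_pow, ev_C, ev_X, map_ofNat, ev_qq] at e4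
    have e5 := hv.eu
    have key : ev v V ^ 4 * ((PowerSeries.X * qq (PowerSeries.C x) PowerSeries.X) *
        (PowerSeries.derivative R w) ^ 2) =
        ev v V ^ 4 * (PowerSeries.C ((a * b) ^ 2) * (w * qq (PowerSeries.C x) w)) := by
      have l1 : ev v V ^ 4 * ((PowerSeries.X * qq (PowerSeries.C x) PowerSeries.X) *
        (PowerSeries.derivative R w) ^ 2) = (PowerSeries.X * qq (PowerSeries.C x) PowerSeries.X) *
        (ev v V ^ 2 * PowerSeries.derivative R w) ^ 2 := by ring
      have l2 : ev v V ^ 4 * (PowerSeries.C ((a * b) ^ 2) * (w * qq (PowerSeries.C x) w)) =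
          PowerSeries.C ((a * b) ^ 2) * (ev v U * ev v V * (ev v V ^ 2 -
            2 * PowerSeries.C x * ev v U * ev v V + ev v U ^ 2)) := by
        rw [← hw]; simp only [qq]; ring
      rw [l1, l2, e2, mul_pow]
      simp only [map_pow, map_mul] at *
      linear_combination (ev v (derivative U) * ev v V - ev v U * ev v (derivative V)) ^ 2 * e5 +
        PowerSeries.C b ^ 2 * e4
    have hI4 : (ev v V * I) ^ 4 = 1 := by rw [hI]; ring
    linear_combination I ^ 4 * key - ((PowerSeries.X * qq (PowerSeries.C x) PowerSeries.X) *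
        (PowerSeries.derivative R w) ^ 2 -
        (PowerSeries.C ((a * b) ^ 2) * (w * qq (PowerSeries.C x) w))) * hI4

/-- a rational solution of the polynomial equation gives a solution -/
theorem PODE.sol [IsDomain R] {x a : R} {U V : R[X]} {w : PowerSeries R} (h : PODE x a U V)
    (hU0 : U.coeff 0 = 0) (hU1 : U.coeff 1 ≠ 0) (hV0 : V.coeff 0 = 1)
    (hw : cp V * w = cp U) : Sol x a w := by
  have cV : PowerSeries.constantCoeff (cp V) = 1 := by rw [constantCoeff_cp, hV0]
  have cU : PowerSeries.constantCoeff (cp U) = 0 := by rw [constantCoeff_cp, hU0]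
  have w0 : PowerSeries.constantCoeff w = 0 := by
    have := congrArg PowerSeries.constantCoeff hw
    rwa [map_mul, cV, cU, one_mul] at this
  have w1 : PowerSeries.coeff 1 w = U.coeff 1 := by
    have := congrArg (PowerSeries.coeff 1) hw
    rw [coeff_cp] at this
    rw [← this, PowerSeries.coeff_mul]
    simp [Finset.antidiagonal, Finset.Nat.antidiagonal_succ, coeff_cp, hV0, w0]
  have e := congrArg (PowerSeries.derivative R) hw
  rw [Derivation.leibniz, derivative_cp, derivative_cp, smul_eq_mul, smul_eq_mul] at e
  have e2 : cp V ^ 2 * PowerSeries.derivative R w =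
      cp (derivative U) * cp V - cp U * cp (derivative V) := by
    rw [← e, ← hw]; ring
  obtain ⟨I, hI⟩ := unit_of_zero cV
  have heq : (PowerSeries.X * qq (PowerSeries.C x) PowerSeries.X) *
        (PowerSeries.derivative R w) ^ 2 =
        (PowerSeries.C (a ^ 2) * (w * qq (PowerSeries.C x) w)) := by
    have e4 := congrArg cp h
    simp only [map_mul, map_sub, map_add, map_pow, cp_C, cp_X, map_ofNat, cp_qq] at e4
    rw [← e2, ← hw] at e4
    have hI4 : (cp V * I) ^ 4 = 1 := by rw [hI]; ring
    simp only [qq, map_pow] at *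
    linear_combination I ^ 4 * e4 - ((PowerSeries.X * (1 - 2 * PowerSeries.C x * PowerSeries.X +
      PowerSeries.X ^ 2)) * (PowerSeries.derivative R w) ^ 2 -
        (PowerSeries.C a ^ 2 * (w * (1 - 2 * PowerSeries.C x * w + w ^ 2)))) * hI4
  refine ⟨w0, ?_, heq⟩
  obtain ⟨g, hg⟩ := PowerSeries.X_dvd_iff.mpr w0
  have g0 : PowerSeries.constantCoeff g = PowerSeries.coeff 1 w := by
    rw [hg, show (1 : ℕ) = 0 + 1 from rfl, PowerSeries.coeff_succ_X_mul]; simp
  have dw0 : PowerSeries.constantCoeff (PowerSeries.derivative R w) = PowerSeries.coeff 1 w := by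
      rw [← PowerSeries.coeff_zero_eq_constantCoeff_apply, PowerSeries.coeff_derivative]; simp
  have e5 : (PowerSeries.X : PowerSeries R) * (qq (PowerSeries.C x) PowerSeries.X *
        (PowerSeries.derivative R w) ^ 2) =
        PowerSeries.X * (PowerSeries.C (a ^ 2) * (g * qq (PowerSeries.C x) w)) := by
    have h5 := heq
    conv_rhs at h5 => rw [show w * qq (PowerSeries.C x) w =
      (PowerSeries.X * g) * qq (PowerSeries.C x) w by rw [← hg]]
    linear_combination h5
  have e6 := mul_left_cancel₀ PowerSeries.X_ne_zero e5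
  have e7 := congrArg PowerSeries.constantCoeff e6
  simp only [map_mul, map_pow, dw0, g0, qq, map_sub, map_add, map_one,
    PowerSeries.constantCoeff_X, PowerSeries.constantCoeff_C, w0] at e7
  have e8 : PowerSeries.coeff 1 w * (PowerSeries.coeff 1 w - a ^ 2) = 0 := by
    linear_combination e7
  rcases mul_eq_zero.mp e8 with h0 | h0
  · exfalso; rw [w1] at h0; exact hU1 h0
  · exact sub_eq_zero.mp h0

end Pool.Agent.Lib.MP_945b72_nt
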