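import Pool.Agent.Lib.MP_945b72_nt.Clausen
import Pool.Agent.Lib.MP_945b72_nt.K5

/-!
The square of the logarithm.
-/

namespace Pool.Agent.Lib.MP_945b72_nt

open PowerSeries Finset

section Log

variable {L : Type*} [Field L] [CharZero L]

/-- generating function of the Legendre polynomials -/
noncomputable def GG (z : L) : L⟦X⟧ := PowerSeries.mk (fun m => yy z m (m + 1))

/-- the logarithm divided by `t` -/
noncomputable def LL (z : L) : L⟦X⟧ := PowerSeries.mk (fun m => yy z m (m + 1) / (2 * m + 1))

/-- the square of the logarithm -/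
noncomputable def lam (z : L) : L⟦X⟧ := X * LL z ^ 2

theorem two_C : (2 : L⟦X⟧) = C 2 := (map_ofNat _ 2).symm

theorem GG_deriv (z : L) : d⁄dX L (GG z) - 2 * (C (1 + 2 * z) * (X * d⁄dX L (GG z))) +
    X * (X * d⁄dX L (GG z)) = C (1 + 2 * z) * GG z - X * GG z := by
  obtain ⟨x, hx⟩ : ∃ x, x = 1 + 2 * z := ⟨_, rfl⟩
  rw [two_C, ← hx]
  ext m
  rcases m with _ | _ | m
  · simp only [map_add, map_sub, coeff_C_mul, coeff_zero_X_mul, coeff_derivative, GG, coeff_mk]
    have e0 : yy z 0 (0 + 1) = 1 := by simp [yy, tt]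
    have e1 : yy z (0 + 1) (0 + 1 + 1) = x := by
      rw [hx]; simp [yy, tt, Finset.sum_range_succ]
    rw [e0, e1]
    push_cast
    ring
  · simp only [map_add, map_sub, coeff_C_mul, coeff_succ_X_mul, coeff_zero_X_mul]
    simp only [coeff_derivative, GG, coeff_mk]
    have h := yy_rec z 0
    rw [← hx] at h
    push_cast at h ⊢
    simp only [zero_add] at h ⊢
    linear_combination h
  · simp only [map_add, map_sub, coeff_C_mul, coeff_succ_X_mul]
    simp only [coeff_derivative, GG, coeff_mk]
    have h := yy_rec z (m + 1)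
    rw [← hx] at h
    push_cast at h ⊢
    linear_combination h

theorem GG_zero (z : L) : constantCoeff (GG z) = 1 := by
  rw [← coeff_zero_eq_constantCoeff_apply, GG, coeff_mk]
  simp [yy, tt]

theorem GG_sq (z : L) : qq (C (1 + 2 * z)) X * GG z ^ 2 = 1 := by
  apply derivative.ext
  · have h := GG_deriv z
    obtain ⟨x, hx⟩ : ∃ x, x = 1 + 2 * z := ⟨_, rfl⟩
    rw [← hx] at h ⊢
    have h2 : d⁄dX L (2 : L⟦X⟧) = 0 := by rw [two_C, derivative_C]
    simp only [qq, map_add, map_sub, Derivation.leibniz, Derivation.leibniz_pow, h2,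
      derivative_C, derivative_X, smul_eq_mul, Derivation.map_one_eq_zero, nsmul_eq_mul]
    push_cast
    linear_combination 2 * GG z * h
  · simp [qq, GG_zero]

theorem LL_deriv (z : L) : 2 * (X * d⁄dX L (LL z)) + LL z = GG z := by
  rw [two_C]
  ext m
  have hm : (2 * (m : L) + 1) ≠ 0 := by exact_mod_cast (show 2 * m + 1 ≠ 0 by omega)
  cases m with
  | zero => simp [LL, GG]
  | succ m =>
    simp only [map_add, coeff_C_mul, coeff_succ_X_mul, coeff_derivative, LL, GG, coeff_mk]
    push_cast at hm ⊢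
    field_simp

theorem LL_zero (z : L) : constantCoeff (LL z) = 1 := by
  rw [← coeff_zero_eq_constantCoeff_apply, LL, coeff_mk]
  simp [yy, tt]

theorem lam_ode (z : L) : (X * qq (C (1 + 2 * z)) X) * (d⁄dX L (lam z)) ^ 2 = lam z := by
  have h1 := GG_sq z
  have h2 := LL_deriv z
  have h3 : d⁄dX L (lam z) = LL z * GG z := by
    rw [lam, Derivation.leibniz, Derivation.leibniz_pow, derivative_X, ← h2]
    simp only [smul_eq_mul, nsmul_eq_mul]
    push_cast
    ring
  rw [h3, lam]
  linear_combination X * LL z ^ 2 * h1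

theorem lam_one (z : L) : coeff 1 (lam z) = 1 := by
  rw [lam, show (1 : ℕ) = 0 + 1 from rfl, coeff_succ_X_mul, coeff_zero_eq_constantCoeff_apply,
    map_pow, LL_zero, one_pow]

theorem lam_zero (z : L) : constantCoeff (lam z) = 0 := by
  rw [lam]; simp

theorem lam_unique {x a : L} (ha : a ≠ 0) {f g : L⟦X⟧} (f0 : constantCoeff f = 0)
    (g0 : constantCoeff g = 0) (f1 : coeff 1 f = a ^ 2) (g1 : coeff 1 g = a ^ 2)
    (hf : (X * qq (C x) X) * (d⁄dX L f) ^ 2 = C (a ^ 2) * f)
    (hg : (X * qq (C x) X) * (d⁄dX L g) ^ 2 = C (a ^ 2) * g) : f = g := by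
  have hmain : ∀ m : ℕ, 2 ≤ m → (X : L⟦X⟧) ^ m ∣ f - g := by
    intro m hm
    induction m, hm using Nat.le_induction with
    | base =>
      rw [X_pow_dvd_iff]
      intro k hk
      interval_cases k
      · simp [f0, g0]
      · simp [f1, g1]
    | succ m hm ih =>
      obtain ⟨h, hh⟩ := ih
      have hd : d⁄dX L (f - g) = X ^ (m - 1) * ((m : L⟦X⟧) * h + X * d⁄dX L h) := by
        rw [hh, Derivation.leibniz, derivative_pow, derivative_X]
        obtain ⟨j, rfl⟩ : ∃ j, m = j + 1 := ⟨m - 1, by omega⟩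
        simp only [Nat.add_sub_cancel, smul_eq_mul]
        ring
      have e : (X * qq (C x) X) * (d⁄dX L (f - g)) * (d⁄dX L f + d⁄dX L g) =
          C (a ^ 2) * (f - g) := by
        rw [map_sub]
        linear_combination hf - hg
      rw [hd, hh] at e
      have hX : (X : L⟦X⟧) * X ^ (m - 1) = X ^ m := by
        rw [← pow_succ']; congr 1; omega
      have e2 : (X : L⟦X⟧) ^ m * (qq (C x) X * ((m : L⟦X⟧) * h + X * d⁄dX L h) *
          (d⁄dX L f + d⁄dX L g)) =
          X ^ m * (C (a ^ 2) * h) := by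
        rw [← hX] at e ⊢
        linear_combination e
      have e3 := mul_left_cancel₀ (pow_ne_zero m X_ne_zero) e2
      have e4 := congrArg constantCoeff e3
      have du0 : constantCoeff (d⁄dX L f) = a ^ 2 := by
        rw [← coeff_zero_eq_constantCoeff_apply, coeff_derivative]
        simp [f1]
      have dv0 : constantCoeff (d⁄dX L g) = a ^ 2 := by
        rw [← coeff_zero_eq_constantCoeff_apply, coeff_derivative]
        simp [g1]
      simp only [qq, map_mul, map_add, map_sub, map_pow, map_one, constantCoeff_X,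
        constantCoeff_C, map_natCast, du0, dv0] at e4
      have e5 : a ^ 2 * ((2 * (m : L) - 1) * constantCoeff h) = 0 := by
        linear_combination e4
      have hg0 : constantCoeff h = 0 := by
        rcases mul_eq_zero.mp e5 with h | h
        · exact absurd h (pow_ne_zero 2 ha)
        · rcases mul_eq_zero.mp h with h | h
          · exfalso
            have : ((2 * m - 1 : ℤ) : L) = 0 := by push_cast; exact h
            rw [Int.cast_eq_zero] at this
            omega
          · exact h
      rw [hh]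
      obtain ⟨g', hg'⟩ := X_dvd_iff.mpr hg0
      exact ⟨g', by rw [hg']; ring⟩
  have : f - g = 0 := by
    ext n
    have h := X_pow_dvd_iff.mp (hmain (n + 2) (by omega)) n (by omega)
    simpa using h
  exact sub_eq_zero.mp this

theorem coeff_subst_sum {u : L⟦X⟧} (hu : constantCoeff u = 0) (f : L⟦X⟧) (N : ℕ) :
    coeff N (f.subst u) = ∑ d ∈ range (N + 1), coeff d f * coeff N (u ^ d) := by
  rw [coeff_subst' (HasSubst.of_constantCoeff_zero' hu), finsum_eq_sum_of_support_subset]
  · rfl
  · intro d hd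
    rw [Function.mem_support] at hd
    rw [coe_range, Set.mem_Iio]
    by_contra hlt
    apply hd
    have : (X : L⟦X⟧) ^ d ∣ u ^ d := pow_dvd_pow_of_dvd (X_dvd_iff.mpr hu) d
    rw [X_pow_dvd_iff.mp this N (by omega), smul_zero]

theorem lam_subst {z a : L} (ha : a ≠ 0) {u : L⟦X⟧} (hu : Sol (1 + 2 * z) a u) :
    (lam z).subst u = C (a ^ 2) * lam z := by
  have hs : HasSubst u := HasSubst.of_constantCoeff_zero' hu.u0
  apply lam_unique (x := 1 + 2 * z) ha
  · rw [← coeff_zero_eq_constantCoeff_apply, coeff_subst_sum hu.u0]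
    simp [lam_zero]
  · simp [lam_zero]
  · rw [coeff_subst_sum hu.u0, sum_range_succ, sum_range_one]
    simp [lam_zero, lam_one, hu.u1]
  · rw [coeff_C_mul, lam_one, mul_one]
  · obtain ⟨x, hx⟩ : ∃ x, x = 1 + 2 * z := ⟨_, rfl⟩
    have h1 := congrArg (substAlgHom hs) (lam_ode z)
    have heu := hu.eu
    rw [← hx] at h1 heu ⊢
    have hX : substAlgHom hs (X : L⟦X⟧) = u := by
      rw [coe_substAlgHom, subst_X hs]
    have hC : ∀ r : L, substAlgHom hs (C r : L⟦X⟧) = C r := by
      intro r
      exact (substAlgHom hs).commutes r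
    simp only [map_mul, map_pow, qq, map_add, map_sub, map_one, map_ofNat, hX] at h1
    rw [hC, coe_substAlgHom] at h1
    rw [derivative_subst hs]
    simp only [qq] at heu ⊢
    linear_combination (subst u (d⁄dX L (lam z))) ^ 2 * heu + C (a ^ 2) * h1
  · have := lam_ode z
    rw [Derivation.leibniz, derivative_C]
    simp only [smul_eq_mul, map_pow, smul_zero]
    linear_combination C a ^ 4 * this

end Log

end Pool.Agent.Lib.MP_945b72_nt
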