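import Pool.Agent.Lib.MP_945b72_nt.P1

/-!
The reduction of the endomorphism of degree `p` modulo `p^2`.
-/

namespace Pool.Agent.Lib.MP_945b72_nt

open Polynomial Finset

variable {p : ℕ} [hpf : Fact p.Prime]

theorem isUnit_nat {n : ℕ} (h0 : 0 < n) (h : n < p) : IsUnit (n : ℤ_[p]) := by
  rw [PadicInt.isUnit_iff, PadicInt.norm_natCast_eq_one_iff]
  exact (Nat.Prime.coprime_iff_not_dvd hpf.out).mpr (Nat.not_dvd_of_pos_of_lt h0 h)

theorem hensel {m n : ℕ} (hm : 1 ≤ m) (hn : 1 ≤ n) (h : m ^ 2 + 7 * n ^ 2 = p) :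
    ∃ s : ℤ_[p], s ^ 2 = -7 ∧ (p : ℤ_[p]) ∣ m + n * s := by
  have h8 : 8 ≤ p := by nlinarith
  have hnp : n < p := by nlinarith
  have hmp : m < p := by nlinarith
  obtain ⟨t, ht⟩ := isUnit_iff_exists_inv.mp (isUnit_nat (p := p) (by omega) hnp)
  have hunit2 : IsUnit (2 : ℤ_[p]) := by
    have := isUnit_nat (p := p) (n := 2) (by omega) (by omega)
    exact_mod_cast this
  have hum : IsUnit (m : ℤ_[p]) := isUnit_nat (by omega) hmp
  have hut : IsUnit t := IsUnit.of_mul_eq_one (n : ℤ_[p]) (by rw [mul_comm]; exact ht)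
  set F : ℤ_[p][X] := X ^ 2 + C 7 with hF
  set a : ℤ_[p] := -(m * t) with ha
  have hpm : (m : ℤ_[p]) ^ 2 + 7 * (n : ℤ_[p]) ^ 2 = p := by exact_mod_cast congrArg (Nat.cast) h
  have e1 : F.aeval a = (p : ℤ_[p]) * t ^ 2 := by
    rw [hF, ha]
    simp only [map_add, map_pow, aeval_X, aeval_C, Algebra.algebraMap_self, RingHom.id_apply]
    rw [← hpm]
    linear_combination (-7 * (n * t + 1)) * ht
  have e2 : F.derivative.aeval a = 2 * a := by
    rw [hF, derivative_add, derivative_C, add_zero, pow_two, derivative_mul, derivative_X]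
    simp only [one_mul, mul_one, map_add, aeval_X]
    ring
  have n2 : ‖F.derivative.aeval a‖ = 1 := by
    rw [e2, ← PadicInt.isUnit_iff, ha]
    exact hunit2.mul (hum.mul hut).neg
  have n1 : ‖F.aeval a‖ < ‖F.derivative.aeval a‖ ^ 2 := by
    rw [n2, one_pow, PadicInt.norm_lt_one_iff_dvd, e1]
    exact dvd_mul_right _ _
  obtain ⟨s, hs, hsa, -⟩ := hensels_lemma n1
  refine ⟨s, ?_, ?_⟩
  · rw [hF] at hs
    simp only [map_add, map_pow, aeval_X, aeval_C, Algebra.algebraMap_self, RingHom.id_apply] at hs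
    linear_combination hs
  · rw [n2, PadicInt.norm_lt_one_iff_dvd] at hsa
    have : (m : ℤ_[p]) + n * s = n * (s - a) := by
      rw [ha]; linear_combination -(m : ℤ_[p]) * ht
    rw [this]
    exact hsa.mul_left _

theorem low_coeffs {x a : ℤ_[p]} {u z : PowerSeries ℤ_[p]} (h : Pt x a u z)
    (ha : (p : ℤ_[p]) ∣ a) (i : ℕ) (hi : i < p) : (p : ℤ_[p]) ∣ PowerSeries.coeff i u := by
  cases i with
  | zero => rw [PowerSeries.coeff_zero_eq_constantCoeff_apply, h.u0]; exact dvd_zero _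
  | succ i =>
    have e := congrArg (PowerSeries.coeff i) h.du
    rw [PowerSeries.coeff_derivative, PowerSeries.coeff_C_mul] at e
    have h1 : (p : ℤ_[p]) ∣ PowerSeries.coeff (i + 1) u * ((i : ℤ_[p]) + 1) := by
      rw [e]; exact ha.mul_right _
    rcases PadicInt.prime_p.dvd_or_dvd h1 with h2 | h2
    · exact h2
    · exfalso
      have h3 : IsUnit (((i + 1 : ℕ)) : ℤ_[p]) := isUnit_nat (by omega) hi
      push_cast at h3
      exact PadicInt.prime_p.not_unit (isUnit_of_dvd_unit h2 h3)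

theorem top_coeff {u : PowerSeries ℤ_[p]} {U V : ℚ_[p][X]} {k : ℕ}
    (hlow : ∀ i < p, (p : ℤ_[p]) ∣ PowerSeries.coeff i u) (hk : k ≤ p)
    (hU : U.natDegree ≤ k) (hV : V.natDegree ≤ k)
    (hUV : reflect k U = V) (hV0 : V.coeff 0 = 1)
    (h : cp V * PowerSeries.map (algebraMap ℤ_[p] ℚ_[p]) u = cp U) :
    (p : ℤ_[p]) ^ 2 ∣ PowerSeries.coeff p u - 1 := by
  obtain ⟨i0, hi0, hmax⟩ := (range (k + 1)).exists_max_image (fun i => ‖V.coeff i‖)
    ⟨0, by simp⟩
  rw [mem_range] at hi0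
  set l := V.coeff i0 with hl
  have hl1 : 1 ≤ ‖l‖ := by
    have := hmax 0 (by simp)
    rwa [hV0, norm_one] at this
  have hl0 : l ≠ 0 := by
    intro h0; rw [h0, norm_zero] at hl1; norm_num at hl1
  have hbd : ∀ i, ‖V.coeff i / l‖ ≤ 1 := by
    intro i
    rw [norm_div]
    rcases Nat.lt_or_ge i (k + 1) with hi | hi
    · have := hmax i (mem_range.mpr hi)
      exact div_le_one_of_le₀ this (norm_nonneg _)
    · rw [coeff_eq_zero_of_natDegree_lt (by omega)]; simp
  have hex : ∀ i, ∃ y : ℤ_[p], (y : ℚ_[p]) = V.coeff i / l := fun i => ⟨⟨_, hbd i⟩, rfl⟩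
  choose v' hv' using hex
  set v : PowerSeries ℤ_[p] := PowerSeries.mk v' with hv
  have hvc : ∀ i, ((PowerSeries.coeff i v : ℤ_[p]) : ℚ_[p]) = V.coeff i / l := by
    intro i; rw [hv, PowerSeries.coeff_mk, hv']
  have hmapv : PowerSeries.map (algebraMap ℤ_[p] ℚ_[p]) v = PowerSeries.C l⁻¹ * cp V := by
    ext i
    rw [PowerSeries.coeff_map, PadicInt.algebraMap_apply, hvc, PowerSeries.coeff_C_mul, coeff_cp]
    rw [div_eq_inv_mul]
  have hvu : ∀ i ≤ k, PowerSeries.coeff i (v * u) = PowerSeries.coeff (k - i) v := by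
    intro i hi
    apply PadicInt.ext
    rw [hvc]
    have e : PowerSeries.map (algebraMap ℤ_[p] ℚ_[p]) (v * u) = PowerSeries.C l⁻¹ * cp U := by
      rw [map_mul, hmapv, ← h]; ring
    have e2 := congrArg (PowerSeries.coeff i) e
    rw [PowerSeries.coeff_map, PadicInt.algebraMap_apply, PowerSeries.coeff_C_mul, coeff_cp] at e2
    rw [e2, ← hUV, coeff_reflect, revAt_le (by omega), show k - (k - i) = i by omega,
      div_eq_inv_mul]
  have hdvd : ∀ i < p, (p : ℤ_[p]) ∣ PowerSeries.coeff i (v * u) := by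
    intro i hi
    rw [PowerSeries.coeff_mul]
    apply dvd_sum
    intro ab hab
    rw [HasAntidiagonal.mem_antidiagonal] at hab
    exact (hlow ab.2 (by omega)).mul_left _
  have hi0c : PowerSeries.coeff i0 v = 1 := by
    apply PadicInt.ext
    rw [hvc, ← hl, div_self hl0]; simp
  have hkp : k = p := by
    by_contra hne
    have h1 := hdvd (k - i0) (by omega)
    rw [hvu (k - i0) (by omega), show k - (k - i0) = i0 by omega, hi0c] at h1
    exact PadicInt.prime_p.not_unit (isUnit_of_dvd_one h1)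
  subst hkp
  have hvd : ∀ i, 1 ≤ i → i ≤ k → (k : ℤ_[k]) ∣ PowerSeries.coeff i v := by
    intro i h1 h2
    have h3 := hdvd (k - i) (by omega)
    rwa [hvu (k - i) (by omega), show k - (k - i) = i by omega] at h3
  have hi00 : i0 = 0 := by
    by_contra hne
    have h1 := hvd i0 (by omega) (by omega)
    rw [hi0c] at h1
    exact PadicInt.prime_p.not_unit (isUnit_of_dvd_one h1)
  have hv0 : PowerSeries.coeff 0 v = 1 := by rw [← hi00]; exact hi0c
  have htop := hvu k le_rfl
  rw [Nat.sub_self, hv0, PowerSeries.coeff_mul, Finset.Nat.sum_antidiagonal_eq_sum_range_succ_mk,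
    sum_range_succ'] at htop
  simp only [Nat.sub_zero, hv0, one_mul] at htop
  have hrest : (k : ℤ_[k]) ^ 2 ∣ ∑ i ∈ range k, PowerSeries.coeff (i + 1) v *
      PowerSeries.coeff (k - (i + 1)) u := by
    apply dvd_sum
    intro i hi
    rw [mem_range] at hi
    rw [pow_two]
    exact mul_dvd_mul (hvd (i + 1) (by omega) (by omega)) (hlow _ (by omega))
  have : PowerSeries.coeff k u - 1 = - ∑ i ∈ range k, PowerSeries.coeff (i + 1) v *
      PowerSeries.coeff (k - (i + 1)) u := by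
    linear_combination htop
  rw [this]
  exact (dvd_neg).mpr hrest

/-- powers of the series -/
theorem pow_coeff {u : PowerSeries ℤ_[p]}
    (hlow : ∀ i < p, (p : ℤ_[p]) ∣ PowerSeries.coeff i u) (hu0 : PowerSeries.constantCoeff u = 0)
    (j : ℕ) (hj : 2 ≤ j) :
    (p : ℤ_[p]) ^ j ∣ PowerSeries.coeff p (u ^ j) := by
  choose! g hg using hlow
  set G : PowerSeries ℤ_[p] := PowerSeries.mk (fun i => if i < p ∧ i ≠ 0 then g i else 0) with hG
  have hdiv : (PowerSeries.X : PowerSeries ℤ_[p]) ^ p ∣ u - PowerSeries.C (p : ℤ_[p]) * G := by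
    rw [PowerSeries.X_pow_dvd_iff]
    intro i hi
    rw [map_sub, PowerSeries.coeff_C_mul, hG, PowerSeries.coeff_mk]
    rcases Nat.eq_zero_or_pos i with h0 | h0
    · subst h0
      rw [PowerSeries.coeff_zero_eq_constantCoeff_apply, hu0]; simp
    · rw [if_pos ⟨hi, h0.ne'⟩, ← hg i hi, sub_self]
  obtain ⟨h, hh⟩ := hdiv
  have hu : u = PowerSeries.C (p : ℤ_[p]) * G + PowerSeries.X ^ p * h := by
    rw [← hh]; ring
  have hG0 : PowerSeries.constantCoeff G = 0 := by
    rw [← PowerSeries.coeff_zero_eq_constantCoeff_apply, hG, PowerSeries.coeff_mk]; simp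
  have key : ∀ j, 1 ≤ j → ∃ S : PowerSeries ℤ_[p],
      u ^ j = (PowerSeries.C (p : ℤ_[p]) * G) ^ j + PowerSeries.X ^ p * S ∧
      (2 ≤ j → PowerSeries.constantCoeff S = 0) := by
    intro j hj
    induction j, hj using Nat.le_induction with
    | base => exact ⟨h, by rw [pow_one, pow_one]; exact hu, fun h => by omega⟩
    | succ j hj ih =>
      obtain ⟨S, hS, -⟩ := ih
      refine ⟨(PowerSeries.C (p : ℤ_[p]) * G) ^ j * h + S * u, ?_, fun _ => ?_⟩
      · rw [pow_succ, hS]
        conv_lhs => rw [show ((PowerSeries.C (p : ℤ_[p]) * G) ^ j + PowerSeries.X ^ p * S) * u =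
          (PowerSeries.C (p : ℤ_[p]) * G) ^ j * u + PowerSeries.X ^ p * (S * u) by ring]
        conv_lhs => enter [1, 2]; rw [hu]
        ring
      · rw [map_add, map_mul, map_mul, map_pow, map_mul, hG0, hu0, mul_zero,
          zero_pow (by omega)]
        ring
  obtain ⟨S, hS, hS0⟩ := key j (by omega)
  have e : PowerSeries.coeff p (PowerSeries.X ^ p * S) = 0 := by
    rw [PowerSeries.coeff_X_pow_mul', if_pos le_rfl, Nat.sub_self,
      PowerSeries.coeff_zero_eq_constantCoeff_apply, hS0 hj]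
  rw [hS, map_add, e, add_zero, mul_pow, ← map_pow, PowerSeries.coeff_C_mul]
  exact dvd_mul_right _ _

end Pool.Agent.Lib.MP_945b72_nt
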