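import Mathlib

/-!
Pairs of power series attached to the Jacobi quartic `y^2 = 1 - 2 x t^2 + t^4`, in the variable
`w = t^2`: the pair `(u, z)` of an endomorphism with multiplier `a` satisfies `u' = a z` and
`w q(w) z^2 = u q(u)` with `q(u) = 1 - 2 x u + u^2`.
-/

namespace Pool.Agent.Lib.MP_945b72_nt

open PowerSeries

section Abstract

variable {A : Type*} [CommRing A]

/-- `q(u) = 1 - 2 x u + u^2`. -/
def qq (x u : A) : A := 1 - 2 * x * u + u ^ 2

/-- numerator of the sum formula -/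
def addA (x W u₁ z₁ u₂ z₂ : A) : A := u₁ * qq x u₂ + u₂ * qq x u₁ + 2 * W * z₁ * z₂

/-- numerator of the sum formula for `z` -/
def addZ (x u₁ z₁ u₂ z₂ : A) : A :=
  (1 + u₁ * u₂) * (z₁ * qq x u₂ + z₂ * qq x u₁ - 2 * x * (u₁ * z₂ + u₂ * z₁)) +
    2 * (u₁ + u₂) * (u₁ * z₂ + u₂ * z₁)

theorem add_eq (x W u₁ z₁ u₂ z₂ I : A) (e₁ : W * z₁ ^ 2 = u₁ * qq x u₁)
    (e₂ : W * z₂ ^ 2 = u₂ * qq x u₂) (hI : (1 - u₁ * u₂) * I = 1) :
    W * (addZ x u₁ z₁ u₂ z₂ * I ^ 3) ^ 2 =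
      (addA x W u₁ z₁ u₂ z₂ * I ^ 2) * qq x (addA x W u₁ z₁ u₂ z₂ * I ^ 2) := by
  have hv : (W * z₁ * z₂) ^ 2 = u₁ * qq x u₁ * (u₂ * qq x u₂) := by
    rw [← e₁, ← e₂]; ring
  have key : W * (addZ x u₁ z₁ u₂ z₂) ^ 2 = addA x W u₁ z₁ u₂ z₂ *
      ((1 - u₁ * u₂) ^ 4 - 2 * x * addA x W u₁ z₁ u₂ z₂ * (1 - u₁ * u₂) ^ 2 +
        (addA x W u₁ z₁ u₂ z₂) ^ 2) := by
    simp only [addZ, addA, qq] at *
    linear_combination
      ((1 + u₁ * u₂) * ((1 - 2 * x * u₂ + u₂ ^ 2) - 2 * x * u₂) + 2 * (u₁ + u₂) * u₂) ^ 2 * e₁ +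
      ((1 + u₁ * u₂) * ((1 - 2 * x * u₁ + u₁ ^ 2) - 2 * x * u₁) + 2 * (u₁ + u₂) * u₁) ^ 2 * e₂ -
      (- 8 * x * (1 - u₁ * u₂) ^ 2 +
        12 * (u₁ * (1 - 2 * x * u₂ + u₂ ^ 2) + u₂ * (1 - 2 * x * u₁ + u₁ ^ 2)) +
        8 * (W * z₁ * z₂)) * hv
  have hI4 : ((1 - u₁ * u₂) * I) ^ 4 = 1 := by rw [hI]; ring
  have hI2 : ((1 - u₁ * u₂) * I) ^ 2 = 1 := by rw [hI]; ring
  generalize addZ x u₁ z₁ u₂ z₂ = Z at *
  generalize addA x W u₁ z₁ u₂ z₂ = B at *
  simp only [qq]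
  linear_combination I ^ 6 * key + B * I ^ 2 * hI4 - 2 * x * B ^ 2 * I ^ 4 * hI2

theorem add_deriv {S : Type*} [CommRing S] [Algebra S A] (D : Derivation S A A) (x w a b u₁ z₁ u₂ z₂ I : A)
    (hx : D x = 0) (hw : D w = 1)
    (h₁ : D u₁ = a * z₁) (h₂ : D u₂ = b * z₂)
    (e₁ : w * qq x w * z₁ ^ 2 = u₁ * qq x u₁) (e₂ : w * qq x w * z₂ ^ 2 = u₂ * qq x u₂)
    (f₁ : 2 * (w * qq x w) * D z₁ + (1 - 4 * x * w + 3 * w ^ 2) * z₁ =
      a * (1 - 4 * x * u₁ + 3 * u₁ ^ 2))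
    (f₂ : 2 * (w * qq x w) * D z₂ + (1 - 4 * x * w + 3 * w ^ 2) * z₂ =
      b * (1 - 4 * x * u₂ + 3 * u₂ ^ 2))
    (hI : (1 - u₁ * u₂) * I = 1) :
    D (addA x (w * qq x w) u₁ z₁ u₂ z₂ * I ^ 2) = (a + b) * (addZ x u₁ z₁ u₂ z₂ * I ^ 3) := by
  have hDI : D I = I ^ 2 * (a * z₁ * u₂ + b * z₂ * u₁) := by
    have h := congrArg D hI
    simp only [Derivation.leibniz, map_sub, h₁, h₂, smul_eq_mul,
      Derivation.map_one_eq_zero, zero_sub] at h
    have h' : (1 - u₁ * u₂) * D I = I * (a * z₁ * u₂ + b * z₂ * u₁) := by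
      linear_combination h
    calc D I = ((1 - u₁ * u₂) * I) * D I := by rw [hI]; ring
      _ = I * ((1 - u₁ * u₂) * D I) := by ring
      _ = _ := by rw [h']; ring
  have hDA : D (addA x (w * qq x w) u₁ z₁ u₂ z₂) =
      a * z₁ * qq x u₂ + u₁ * (- 2 * x * (b * z₂) + 2 * u₂ * (b * z₂)) + b * z₂ * qq x u₁ +
        u₂ * (- 2 * x * (a * z₁) + 2 * u₁ * (a * z₁)) +
        2 * (1 - 4 * x * w + 3 * w ^ 2) * z₁ * z₂ +
        2 * (w * qq x w) * (D z₁ * z₂ + z₁ * D z₂) := by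
    have h2 : D (2 : A) = 0 := by
      have := D.map_natCast 2
      simpa using this
    simp only [addA, qq, map_add, map_sub, Derivation.leibniz, Derivation.leibniz_pow, h₁, h₂, hx,
      hw, h2, smul_eq_mul, Derivation.map_one_eq_zero, nsmul_eq_mul]
    push_cast
    ring
  have hDAI : D (addA x (w * qq x w) u₁ z₁ u₂ z₂ * I ^ 2) =
      D (addA x (w * qq x w) u₁ z₁ u₂ z₂) * I ^ 2 +
        addA x (w * qq x w) u₁ z₁ u₂ z₂ * (2 * I * D I) := by
    simp only [Derivation.leibniz, Derivation.leibniz_pow, smul_eq_mul, nsmul_eq_mul]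
    push_cast
    ring
  have key : (1 - u₁ * u₂) * D (addA x (w * qq x w) u₁ z₁ u₂ z₂) +
      2 * addA x (w * qq x w) u₁ z₁ u₂ z₂ * (a * z₁ * u₂ + b * z₂ * u₁) =
      (a + b) * addZ x u₁ z₁ u₂ z₂ := by
    rw [hDA]
    simp only [addA, addZ]
    generalize w * qq x w = W at *
    simp only [qq] at *
    linear_combination z₂ * (1 - u₁ * u₂) * f₁ + z₁ * (1 - u₁ * u₂) * f₂ +
      4 * a * u₂ * z₂ * e₁ + 4 * b * u₁ * z₁ * e₂
  rw [hDAI, hDI]
  generalize D (addA x (w * qq x w) u₁ z₁ u₂ z₂) = DA at *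
  generalize addA x (w * qq x w) u₁ z₁ u₂ z₂ = B at *
  generalize addZ x u₁ z₁ u₂ z₂ = Z at *
  linear_combination I ^ 3 * key - DA * I ^ 2 * hI

/-- product formula -/
theorem add_mul_sub (x W u₁ z₁ u₂ z₂ I : A) (e₁ : W * z₁ ^ 2 = u₁ * qq x u₁)
    (e₂ : W * z₂ ^ 2 = u₂ * qq x u₂) (hI : (1 - u₁ * u₂) * I = 1) :
    (addA x W u₁ z₁ u₂ z₂ * I ^ 2) * (addA x W u₁ z₁ u₂ (-z₂) * I ^ 2) =
      (u₁ - u₂) ^ 2 * I ^ 2 := by
  have hv : (W * z₁ * z₂) ^ 2 = u₁ * qq x u₁ * (u₂ * qq x u₂) := by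
    rw [← e₁, ← e₂]; ring
  have hI2 : ((1 - u₁ * u₂) * I) ^ 2 = 1 := by rw [hI]; ring
  simp only [addA, qq] at *
  linear_combination (-4 * I ^ 4) * hv + (u₁ - u₂) ^ 2 * I ^ 2 * hI2

theorem double_eq (x W u z I : A) (e : W * z ^ 2 = u * qq x u) :
    addA x W u z u z * I ^ 2 = 4 * u * qq x u * I ^ 2 := by
  simp only [addA, qq] at *
  linear_combination 2 * I ^ 2 * e

end Abstract

section Series

variable {R : Type*} [CommRing R]

/-- The pair of series `(u, z)` of an endomorphism with multiplier `a`. -/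
structure Pt (x a : R) (u z : R⟦X⟧) : Prop where
  u0 : constantCoeff u = 0
  z0 : constantCoeff z = a
  du : d⁄dX R u = C a * z
  ez : (X * qq (C x) X) * z ^ 2 = u * qq (C x) u

variable {x a b : R} {u z u₁ z₁ u₂ z₂ : R⟦X⟧}

theorem Pt.one (x : R) : Pt x 1 (X : R⟦X⟧) 1 := by
  refine ⟨by simp, by simp, by simp, by ring⟩

theorem Pt.neg (h : Pt x a u z) : Pt x (-a) u (-z) := by
  refine ⟨h.u0, by simp [h.z0], ?_, ?_⟩
  · rw [h.du, map_neg]; ring
  · rw [← h.ez]; ring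

/-- the derivative equation for `z`. -/
theorem Pt.dz [IsDomain R] (ha : a ≠ 0) (h : Pt x a u z) :
    2 * ((X : R⟦X⟧) * qq (C x) X) * d⁄dX R z + (1 - 4 * C x * X + 3 * X ^ 2) * z =
      C a * (1 - 4 * C x * u + 3 * u ^ 2) := by
  have hz : z ≠ 0 := by
    intro h0
    apply ha
    rw [← h.z0, h0, map_zero]
  have e := congrArg (d⁄dX R) h.ez
  have h2 : d⁄dX R (2 : R⟦X⟧) = 0 := by
    have := (d⁄dX R).map_natCast 2
    simpa using this
  simp only [qq, map_add, map_sub, Derivation.leibniz, Derivation.leibniz_pow, h.du, h2,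
    derivative_C, derivative_X, smul_eq_mul, Derivation.map_one_eq_zero, nsmul_eq_mul] at e
  push_cast at e
  apply mul_left_cancel₀ hz
  simp only [qq]
  linear_combination e

theorem unit_of_zero {D : R⟦X⟧} (h : constantCoeff D = 1) : ∃ I : R⟦X⟧, D * I = 1 := by
  have : IsUnit D := by
    rw [PowerSeries.isUnit_iff_constantCoeff, h]
    exact isUnit_one
  obtain ⟨v, hv⟩ := this
  exact ⟨(v⁻¹ : (R⟦X⟧)ˣ), by rw [← hv]; simp⟩

theorem constantCoeff_inv_one {D I : R⟦X⟧} (h : constantCoeff D = 1) (hI : D * I = 1) :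
    constantCoeff I = 1 := by
  have := congrArg constantCoeff hI
  rw [map_mul, h, one_mul, map_one] at this
  exact this

theorem Pt.add [IsDomain R] (ha : a ≠ 0) (hb : b ≠ 0) (h₁ : Pt x a u₁ z₁) (h₂ : Pt x b u₂ z₂)
    {I : R⟦X⟧} (hI : (1 - u₁ * u₂) * I = 1) :
    Pt x (a + b) (addA (C x) (X * qq (C x) X) u₁ z₁ u₂ z₂ * I ^ 2)
      (addZ (C x) u₁ z₁ u₂ z₂ * I ^ 3) := by
  have hI0 : constantCoeff I = 1 := by
    apply constantCoeff_inv_one _ hI
    simp [h₁.u0]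
  refine ⟨?_, ?_, ?_, ?_⟩
  · simp [addA, h₁.u0, h₂.u0]
  · simp [addZ, qq, h₁.u0, h₂.u0, h₁.z0, h₂.z0, hI0]
  · rw [map_add]
    exact add_deriv (d⁄dX R) (C x) X (C a) (C b) u₁ z₁ u₂ z₂ I derivative_C derivative_X
      h₁.du h₂.du h₁.ez h₂.ez (h₁.dz ha) (h₂.dz hb) hI
  · exact add_eq (C x) (X * qq (C x) X) u₁ z₁ u₂ z₂ I h₁.ez h₂.ez hI

/-- the one-variable form: `w q(w) u'^2 = a^2 u q(u)`. -/
structure Sol (x a : R) (u : R⟦X⟧) : Prop where
  u0 : constantCoeff u = 0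
  u1 : coeff 1 u = a ^ 2
  eu : (X * qq (C x) X) * (d⁄dX R u) ^ 2 = C (a ^ 2) * (u * qq (C x) u)

theorem Pt.sol (h : Pt x a u z) : Sol x a u := by
  refine ⟨h.u0, ?_, ?_⟩
  · have e := congrArg constantCoeff h.du
    rw [map_mul, h.z0, constantCoeff_C] at e
    rw [← coeff_zero_eq_constantCoeff_apply, coeff_derivative] at e
    simp at e
    rw [e]; ring
  · rw [h.du, ← h.ez, map_pow]; ring

theorem Sol.unique [IsDomain R] [CharZero R] (ha : a ≠ 0) {u v : R⟦X⟧} (hu : Sol x a u)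
    (hv : Sol x a v) : u = v := by
  have hmain : ∀ m : ℕ, 2 ≤ m → (X : R⟦X⟧) ^ m ∣ u - v := by
    intro m hm
    induction m, hm using Nat.le_induction with
    | base =>
      rw [X_pow_dvd_iff]
      intro k hk
      interval_cases k
      · simp [hu.u0, hv.u0]
      · simp [hu.u1, hv.u1]
    | succ m hm ih =>
      obtain ⟨g, hg⟩ := ih
      have hd : d⁄dX R (u - v) = X ^ (m - 1) * ((m : R⟦X⟧) * g + X * d⁄dX R g) := by
        rw [hg, Derivation.leibniz, derivative_pow, derivative_X]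
        obtain ⟨j, rfl⟩ : ∃ j, m = j + 1 := ⟨m - 1, by omega⟩
        simp only [Nat.add_sub_cancel, smul_eq_mul]
        ring
      have e : (X * qq (C x) X) * (d⁄dX R (u - v)) * (d⁄dX R u + d⁄dX R v) =
          C (a ^ 2) * ((u - v) * (1 - 2 * C x * (u + v) + (u ^ 2 + u * v + v ^ 2))) := by
        rw [map_sub]
        have h1 := hu.eu
        have h2 := hv.eu
        simp only [qq] at *
        linear_combination h1 - h2
      rw [hd, hg] at e
      have hX : (X : R⟦X⟧) * X ^ (m - 1) = X ^ m := by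
        rw [← pow_succ']; congr 1; omega
      have e2 : (X : R⟦X⟧) ^ m * (qq (C x) X * ((m : R⟦X⟧) * g + X * d⁄dX R g) *
          (d⁄dX R u + d⁄dX R v)) =
          X ^ m * (C (a ^ 2) * (g * (1 - 2 * C x * (u + v) + (u ^ 2 + u * v + v ^ 2)))) := by
        rw [← hX] at e ⊢
        linear_combination e
      have e3 := mul_left_cancel₀ (pow_ne_zero m X_ne_zero) e2
      have e4 := congrArg constantCoeff e3
      have du0 : constantCoeff (d⁄dX R u) = a ^ 2 := by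
        rw [← coeff_zero_eq_constantCoeff_apply, coeff_derivative]
        simp [hu.u1]
      have dv0 : constantCoeff (d⁄dX R v) = a ^ 2 := by
        rw [← coeff_zero_eq_constantCoeff_apply, coeff_derivative]
        simp [hv.u1]
      simp only [qq, map_mul, map_add, map_sub, map_pow, map_one, constantCoeff_X,
        constantCoeff_C, map_natCast, du0, dv0, hu.u0, hv.u0] at e4
      have e5 : a ^ 2 * ((2 * (m : R) - 1) * constantCoeff g) = 0 := by
        have : (constantCoeff (2 : R⟦X⟧)) = (2 : R) := map_ofNat _ 2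
        linear_combination e4
      have hg0 : constantCoeff g = 0 := by
        rcases mul_eq_zero.mp e5 with h | h
        · exact absurd h (pow_ne_zero 2 ha)
        · rcases mul_eq_zero.mp h with h | h
          · exfalso
            have : ((2 * m - 1 : ℤ) : R) = 0 := by push_cast; exact h
            rw [Int.cast_eq_zero] at this
            omega
          · exact h
      rw [hg]
      obtain ⟨g', hg'⟩ := X_dvd_iff.mpr hg0
      exact ⟨g', by rw [hg']; ring⟩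
  have : u - v = 0 := by
    ext n
    have h := X_pow_dvd_iff.mp (hmain (n + 2) (by omega)) n (by omega)
    simpa using h
  exact sub_eq_zero.mp this

end Series

end Pool.Agent.Lib.MP_945b72_nt
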